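import Pool.Agent.Q94.LM.Stm

/-!
# MP_332aa0_an: assembly
-/

open scoped BigOperators Topology ENNReal
open MeasureTheory Finset Filter Q94.WF

namespace Q94.LM

/-! ### Basic facts on `E` -/

lemma E_add_le {p : ℝ} (hp : 0 ≤ p) (hp1 : p ≤ 1) {g h : G → ℝ} (hg : Measurable g) :
    E p (fun x => g x + h x) ≤ E p g + E p h := by
  unfold E
  rw [← lintegral_add_left (by fun_prop)]
  refine lintegral_mono fun x => ?_
  exact (ENNReal.rpow_le_rpow (enorm_add_le _ _) hp).trans (ENNReal.rpow_add_le_add_rpow _ _ hp hp1)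

lemma E_neg (p : ℝ) (g : G → ℝ) : E p (fun x => -g x) = E p g := by
  unfold E; simp [enorm_neg]

lemma E_sub_le {p : ℝ} (hp : 0 ≤ p) (hp1 : p ≤ 1) {g h : G → ℝ} (hg : Measurable g) :
    E p (fun x => g x - h x) ≤ E p g + E p h := by
  have := E_add_le hp hp1 (g := g) (h := fun x => -h x) hg
  rw [E_neg] at this
  simpa [sub_eq_add_neg] using this

lemma E_mono {p : ℝ} (hp : 0 ≤ p) {g h : G → ℝ} (hgh : ∀ x, |g x| ≤ |h x|) : E p g ≤ E p h := by
  unfold E
  refine lintegral_mono fun x => ENNReal.rpow_le_rpow ?_ hp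
  rw [Real.enorm_eq_ofReal_abs, Real.enorm_eq_ofReal_abs]
  exact ENNReal.ofReal_le_ofReal (hgh x)

lemma E_const_mul {p : ℝ} (hp : 0 ≤ p) {a : ℝ} (g : G → ℝ) :
    E p (fun x => a * g x) = ENNReal.ofReal (|a| ^ p) * E p g := by
  unfold E
  simp_rw [enorm_mul, ENNReal.mul_rpow_of_nonneg _ _ hp]
  rw [Real.enorm_eq_ofReal_abs, ENNReal.ofReal_rpow_of_nonneg (abs_nonneg a) hp]
  rw [lintegral_const_mul' _ _ ENNReal.ofReal_ne_top]

lemma E_const {p : ℝ} (hp : 0 ≤ p) (a : ℝ) : E p (fun _ => a) = ENNReal.ofReal (|a| ^ p) := by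
  unfold E
  rw [lintegral_const, Real.enorm_eq_ofReal_abs, ENNReal.ofReal_rpow_of_nonneg (abs_nonneg a) hp]
  simp

lemma E_zero {p : ℝ} (hp : 0 < p) : E p (fun _ => 0) = 0 := by
  rw [E_const hp.le]; simp [hp.ne']

lemma E_sum_le {p : ℝ} (hp : 0 < p) (hp1 : p ≤ 1) {ι : Type*} (s : Finset ι) (g : ι → G → ℝ)
    (hg : ∀ i, Measurable (g i)) :
    E p (fun x => ∑ i ∈ s, g i x) ≤ ∑ i ∈ s, E p (g i) := by
  classical
  induction s using Finset.induction_on with
  | empty => simp [E_zero hp]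
  | insert a s ha ih =>
    simp_rw [Finset.sum_insert ha]
    exact (E_add_le hp.le hp1 (hg a)).trans (add_le_add_right ih _)

lemma measurable_P (c : ℕ → ℝ) (N : ℕ) : Measurable (P c N) := by
  unfold P
  exact Finset.measurable_fun_sum _ fun i _ => (measurable_w i).const_mul _

lemma dep_w {n i : ℕ} (hi : i < 2 ^ n) : Dep n (w i) := by
  intro x y hxy
  rw [w_eq hi, w_eq hi]
  refine Finset.prod_congr rfl fun k hk => ?_
  unfold r
  rw [hxy k (Finset.mem_range.1 hk)]

lemma dep_P (c : ℕ → ℝ) {n N : ℕ} (hN : N ≤ 2 ^ n) : Dep n (P c N) := by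
  intro x y hxy
  unfold P
  refine Finset.sum_congr rfl fun i hi => ?_
  rw [dep_w ((Finset.mem_range.1 hi).trans_le hN) x y hxy]

lemma dep_D {n N : ℕ} (hN : N ≤ 2 ^ n) : Dep n (D N) := by
  intro x y hxy
  unfold D
  exact Finset.sum_congr rfl fun i hi => dep_w ((Finset.mem_range.1 hi).trans_le hN) x y hxy

lemma dep_A {n k : ℕ} (hk : k ≤ 2 ^ n) : Dep n (A k) := by
  intro x y hxy
  unfold A
  refine Finset.sum_congr rfl fun i hi => ?_
  rw [dep_D ((Finset.mem_range.1 hi).le.trans hk) x y hxy]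

lemma dep_B {n k : ℕ} : Dep n (B n k) := by
  intro x y hxy
  unfold B
  refine Finset.sum_congr rfl fun i hi => ?_
  rw [dep_D ((Finset.mem_range.1 hi).le) x y hxy]

/-! ### Harmonic numbers -/

lemma H_eq (k : ℕ) : H k = ∑ i ∈ range k, 1 / ((k : ℝ) - i) := by
  unfold H
  rw [← Finset.sum_range_reflect]
  refine Finset.sum_congr rfl fun i hi => ?_
  have := Finset.mem_range.1 hi
  congr 1
  have h2 : k - 1 - i = k - (i + 1) := by omega
  rw [h2, Nat.cast_sub (by omega)]
  push_cast; ring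

lemma H_mono {a b : ℕ} (h : a ≤ b) : H a ≤ H b := by
  unfold H
  exact Finset.sum_le_sum_of_subset_of_nonneg (range_mono h) fun i _ _ => by positivity

lemma H_two_pow (n : ℕ) : ((n : ℝ) + 1) / 2 ≤ H (2 ^ n) := by
  induction n with
  | zero => simp [H]; norm_num
  | succ n ih =>
    have h1 : H (2 ^ (n + 1)) = H (2 ^ n) + ∑ i ∈ range (2 ^ n), 1 / (((2 ^ n + i : ℕ) : ℝ) + 1) := by
      unfold H
      rw [pow_succ, mul_two, Finset.sum_range_add]
    have h2 : (1 : ℝ) / 2 ≤ ∑ i ∈ range (2 ^ n), 1 / (((2 ^ n + i : ℕ) : ℝ) + 1) := by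
      have h3 : ∀ i ∈ range (2 ^ n), (1 : ℝ) / (2 * 2 ^ n) ≤ 1 / (((2 ^ n + i : ℕ) : ℝ) + 1) := by
        intro i hi
        have hi' := Finset.mem_range.1 hi
        have : ((i : ℝ)) + 1 ≤ 2 ^ n := by exact_mod_cast hi'
        apply one_div_le_one_div_of_le (by positivity)
        push_cast
        linarith
      have h4 := Finset.sum_le_sum h3
      rw [Finset.sum_const, card_range, nsmul_eq_mul] at h4
      have h5 : ((2 ^ n : ℕ) : ℝ) * (1 / (2 * 2 ^ n)) = 1 / 2 := by
        have : (2 : ℝ) ^ n ≠ 0 := by positivity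
        push_cast
        field_simp
      rw [h5] at h4
      exact h4
    rw [h1]
    have h6 : (((n + 1 : ℕ) : ℝ) + 1) / 2 = ((n : ℝ) + 1) / 2 + 1 / 2 := by push_cast; ring
    rw [h6]
    exact add_le_add ih h2

lemma H_ge {n k : ℕ} (h : 2 ^ n ≤ k) : ((n : ℝ) + 1) / 2 ≤ H k := (H_two_pow n).trans (H_mono h)

lemma one_le_H {k : ℕ} (h : 1 ≤ k) : 1 ≤ H k := by
  have : H 1 ≤ H k := H_mono h
  simpa [H] using this

/-! ### Means of coefficient sequences -/

/-- the logarithmic mean of the coefficients `c` -/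
noncomputable def LL (c : ℕ → ℝ) (k : ℕ) (x : G) : ℝ :=
  (1 / H k) * ∑ i ∈ range k, P c i x / ((k : ℝ) - i)

lemma Lm_eq (f : ℕ → G → ℝ) (k : ℕ) (x : G) : Lm f k x = LL (coef f) k x := rfl

/-- the `j`-th block of coefficients -/
noncomputable def blk (c : ℕ → ℝ) (j : ℕ) (i : ℕ) : ℝ := if 2 ^ j ≤ i ∧ i < 2 ^ (j + 1) then c i else 0

lemma P_blk_of_le (c : ℕ → ℝ) {j N : ℕ} (h : 2 ^ (j + 1) ≤ N) (x : G) :
    P (blk c j) N x = P c (2 ^ (j + 1)) x - P c (2 ^ j) x := by
  have h1 : P (blk c j) N x = P (blk c j) (2 ^ (j + 1)) x := by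
    unfold P
    symm
    refine Finset.sum_subset (range_mono h) fun i _ hi => ?_
    unfold blk
    have : ¬ i < 2 ^ (j + 1) := by simpa using hi
    rw [if_neg (by tauto), zero_mul]
  have h2 : ∀ a b : ℕ, (∀ i ∈ range b, blk c j (a + i) = c (a + i)) →
      ∑ i ∈ range b, blk c j (a + i) * w (a + i) x = ∑ i ∈ range b, c (a + i) * w (a + i) x :=
    fun a b hh => Finset.sum_congr rfl fun i hi => by rw [hh i hi]
  rw [h1]
  unfold P
  rw [pow_succ, mul_two, Finset.sum_range_add, Finset.sum_range_add,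
    Finset.sum_eq_zero (s := range (2 ^ j)) (f := fun i => blk c j i * w i x), h2]
  · ring
  · intro i hi
    have := Finset.mem_range.1 hi
    unfold blk
    rw [if_pos ⟨by omega, by rw [pow_succ]; omega⟩]
  · intro i hi
    have := Finset.mem_range.1 hi
    unfold blk
    rw [if_neg (by omega), zero_mul]

lemma P_zero (c : ℕ → ℝ) (x : G) : P c 0 x = 0 := by simp [P]

lemma P_one (c : ℕ → ℝ) (x : G) : P c 1 x = c 0 := by simp [P, w_zero]

/-- decomposition into blocks -/
lemma P_decomp (c : ℕ → ℝ) {i n : ℕ} (hi1 : 1 ≤ i) (hi : i ≤ 2 ^ (n + 1)) (x : G) :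
    P c i x = c 0 + ∑ j ∈ range (n + 1), P (blk c j) i x := by
  have h1 : ∀ a ∈ range i, c a * w a x
      = (if a = 0 then c 0 else 0) * w a x + ∑ j ∈ range (n + 1), blk c j a * w a x := by
    intro a ha
    have ha' := Finset.mem_range.1 ha
    rw [← Finset.sum_mul, ← add_mul]
    congr 1
    by_cases h0 : a = 0
    · subst h0
      rw [if_pos rfl, Finset.sum_eq_zero, add_zero]
      intro j _
      unfold blk
      rw [if_neg]
      have : 0 < 2 ^ j := by positivity
      omega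
    · rw [if_neg h0, zero_add]
      have h3 : Nat.log 2 a ∈ range (n + 1) := by
        rw [Finset.mem_range]
        exact Nat.log_lt_of_lt_pow h0 (by omega)
      rw [Finset.sum_eq_single_of_mem _ h3]
      · unfold blk
        rw [if_pos ⟨Nat.pow_log_le_self 2 h0, Nat.lt_pow_succ_log_self (by norm_num) a⟩]
      · intro j _ hj
        unfold blk
        rw [if_neg]
        rintro ⟨h4, h5⟩
        apply hj
        exact (Nat.log_eq_of_pow_le_of_lt_pow h4 h5).symm
  unfold P
  rw [Finset.sum_congr rfl h1, Finset.sum_add_distrib, Finset.sum_comm]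
  congr 1
  rw [Finset.sum_eq_single_of_mem 0 (Finset.mem_range.2 (by omega))]
  · simp [w_zero]
  · intro b _ hb
    rw [if_neg hb, zero_mul]

/-- decomposition of the means -/
lemma LL_decomp (c : ℕ → ℝ) {k n : ℕ} (hk1 : 1 ≤ k) (hk : k ≤ 2 ^ (n + 1)) (x : G) :
    LL c k x = (c 0 - c 0 / (k * H k)) + ∑ j ∈ range (n + 1), LL (blk c j) k x := by
  have hH : 0 < H k := lt_of_lt_of_le one_pos (one_le_H hk1)
  have hk0 : (0 : ℝ) < k := by exact_mod_cast hk1
  unfold LL
  rw [← Finset.mul_sum, Finset.sum_comm]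
  have h1 : ∀ i ∈ range k, P c i x / ((k : ℝ) - i)
      = (c 0 * (1 / ((k : ℝ) - i)) - if i = 0 then c 0 / k else 0)
        + ∑ j ∈ range (n + 1), P (blk c j) i x / ((k : ℝ) - i) := by
    intro i hi
    have hi' := Finset.mem_range.1 hi
    by_cases h0 : i = 0
    · subst h0
      simp only [P_zero, if_true, Nat.cast_zero, sub_zero, zero_div, Finset.sum_const_zero, add_zero]
      ring
    · rw [P_decomp c (by omega) (hi'.le.trans hk) x, if_neg h0, add_div, Finset.sum_div]
      ring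
  rw [Finset.sum_congr rfl h1, Finset.sum_add_distrib, Finset.sum_sub_distrib, ← Finset.mul_sum,
    ← H_eq, mul_add]
  congr 1
  rw [Finset.sum_ite_eq' (range k) 0, if_pos (Finset.mem_range.2 (by omega))]
  field_simp

lemma conv_sum_kernel {ι : Type*} (s : Finset ι) (K : ι → G → ℝ) (a : ι → ℝ) (g : G → ℝ)
    (h : ∀ i ∈ s, ∀ x, Integrable (fun t => K i (add x t) * g t) μ) (x : G) :
    conv (fun y => ∑ i ∈ s, K i y * a i) g x = ∑ i ∈ s, conv (K i) g x * a i := by
  unfold conv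
  have h1 : ∀ t, (∑ i ∈ s, K i (add x t) * a i) * g t = ∑ i ∈ s, (K i (add x t) * g t) * a i := by
    intro t
    rw [Finset.sum_mul]
    exact Finset.sum_congr rfl fun i _ => by ring
  simp_rw [h1]
  rw [integral_finsetSum _ fun i hi => (h i hi x).mul_const _]
  exact Finset.sum_congr rfl fun i _ => integral_mul_const _ _

lemma measurable_add (x : G) : Measurable (add x) := by
  rw [measurable_pi_iff]
  intro i
  unfold add
  exact (measurable_of_finite (fun b : Bool => xor (x i) b)).comp (measurable_pi_apply i)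

lemma abs_P_le (c : ℕ → ℝ) (N : ℕ) (x : G) : |P c N x| ≤ ∑ i ∈ range N, |c i| := by
  unfold P
  refine (Finset.abs_sum_le_sum_abs _ _).trans (le_of_eq ?_)
  exact Finset.sum_congr rfl fun i _ => by rw [abs_mul, abs_w, mul_one]

lemma integrable_DP (c : ℕ → ℝ) (i N : ℕ) (x : G) :
    Integrable (fun t => D i (add x t) * P c N t) μ := by
  refine Integrable.of_bound (((measurable_D i).comp (measurable_add x)).mul
    (measurable_P c N)).aestronglyMeasurable (i * ∑ i ∈ range N, |c i|)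
    (Eventually.of_forall fun t => ?_)
  rw [Real.norm_eq_abs, abs_mul]
  exact mul_le_mul (abs_D_le i _) (abs_P_le c N t) (abs_nonneg _) (Nat.cast_nonneg _)

lemma conv_A (h4 : J4c) (c : ℕ → ℝ) {k N : ℕ} (hk : k ≤ N) (x : G) :
    conv (A k) (P c N) x = ∑ i ∈ range k, P c i x / ((k : ℝ) - i) := by
  have h1 : A k = fun y => ∑ i ∈ range k, D i y * (1 / ((k : ℝ) - i)) := by
    funext y
    unfold A
    exact Finset.sum_congr rfl fun i _ => by ring
  rw [h1, conv_sum_kernel (range k) D _ _ (fun i _ x => integrable_DP c i N x)]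
  refine Finset.sum_congr rfl fun i hi => ?_
  rw [h4.1 c i N x ((Finset.mem_range.1 hi).le.trans hk)]
  ring

lemma conv_B (h4 : J4c) (c : ℕ → ℝ) {l k N : ℕ} (hl : 2 ^ l ≤ N) (x : G) :
    conv (B l k) (P c N) x = ∑ i ∈ range (2 ^ l), P c i x / ((k : ℝ) - i) := by
  have h1 : B l k = fun y => ∑ i ∈ range (2 ^ l), D i y * (1 / ((k : ℝ) - i)) := by
    funext y
    unfold B
    exact Finset.sum_congr rfl fun i _ => by ring
  rw [h1, conv_sum_kernel (range (2 ^ l)) D _ _ (fun i _ x => integrable_DP c i N x)]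
  refine Finset.sum_congr rfl fun i hi => ?_
  rw [h4.1 c i N x ((Finset.mem_range.1 hi).le.trans hl)]
  ring

end Q94.LM
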