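import Pool.Agent.Q94.LM.Asm

/-!
# MP_332aa0_an: assembly of the case `p < 1`
-/

open scoped BigOperators Topology ENNReal
open MeasureTheory Finset Filter Q94.WF

namespace Q94.LM

lemma LL_blk_eq (h4 : J4c) (c : ℕ → ℝ) {j k : ℕ} (hk : 2 ^ (j + 1) ≤ k) (x : G) :
    LL (blk c j) k x - P (blk c j) (2 ^ (j + 1)) x
      = (1 / H k) * conv (B (j + 1) k) (P (blk c j) (2 ^ (j + 1))) x
        + (-((∑ i ∈ range (2 ^ (j + 1)), 1 / ((k : ℝ) - i)) / H k)) *
          P (blk c j) (2 ^ (j + 1)) x := by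
  have hk1 : 1 ≤ k := le_trans Nat.one_le_two_pow hk
  have hH : 0 < H k := lt_of_lt_of_le one_pos (one_le_H hk1)
  rw [conv_B h4 (blk c j) le_rfl]
  set d := P (blk c j) (2 ^ (j + 1)) x with hd
  have h1 : ∑ i ∈ range k, P (blk c j) i x / ((k : ℝ) - i)
      = ∑ i ∈ range k, d * (1 / ((k : ℝ) - i))
        + ∑ i ∈ range (2 ^ (j + 1)), (P (blk c j) i x / ((k : ℝ) - i) - d * (1 / ((k : ℝ) - i))) := by
    have h2 : ∑ i ∈ range (2 ^ (j + 1)), (P (blk c j) i x / ((k : ℝ) - i) - d * (1 / ((k : ℝ) - i)))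
        = ∑ i ∈ range k, (P (blk c j) i x / ((k : ℝ) - i) - d * (1 / ((k : ℝ) - i))) := by
      refine Finset.sum_subset (range_mono hk) fun i _ hi => ?_
      have hi' : 2 ^ (j + 1) ≤ i := by simpa using hi
      rw [P_blk_of_le c hi', ← P_blk_of_le c (le_refl (2 ^ (j + 1))), ← hd]
      ring
    rw [h2, Finset.sum_sub_distrib]
    ring
  unfold LL
  rw [h1, ← Finset.mul_sum, ← H_eq, Finset.sum_sub_distrib, ← Finset.mul_sum]
  field_simp
  ring

lemma sum_s_le {l k : ℕ} (hk : 2 * 2 ^ l ≤ k) :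
    0 ≤ ∑ i ∈ range (2 ^ l), 1 / ((k : ℝ) - i) ∧
    ∑ i ∈ range (2 ^ l), 1 / ((k : ℝ) - i) ≤ 2 ^ l * (2 / k) := by
  have h0 : (1 : ℝ) ≤ 2 ^ l := one_le_pow₀ (by norm_num)
  have hk' : (2 : ℝ) * 2 ^ l ≤ k := by exact_mod_cast hk
  have hkpos : (0 : ℝ) < k := by linarith
  have h1 : ∀ i ∈ range (2 ^ l), (k : ℝ) / 2 ≤ (k : ℝ) - i := by
    intro i hi
    have : (i : ℝ) ≤ 2 ^ l := by exact_mod_cast (Finset.mem_range.1 hi).le
    linarith
  constructor
  · refine Finset.sum_nonneg fun i hi => ?_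
    have := h1 i hi
    have : 0 < (k : ℝ) - i := by linarith
    positivity
  · have h2 : ∀ i ∈ range (2 ^ l), 1 / ((k : ℝ) - i) ≤ 2 / k := by
      intro i hi
      have h3 := h1 i hi
      have h4 : 1 / ((k : ℝ) - i) ≤ 1 / ((k : ℝ) / 2) :=
        one_div_le_one_div_of_le (by positivity) h3
      refine h4.trans (le_of_eq ?_)
      field_simp
    refine (Finset.sum_le_sum h2).trans ?_
    rw [Finset.sum_const, card_range, nsmul_eq_mul]
    push_cast
    exact le_rfl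

lemma measurable_conv_P_B (h4 : J4c) (c : ℕ → ℝ) {l k N : ℕ} (hl : 2 ^ l ≤ N) :
    Measurable (conv (B l k) (P c N)) := by
  have : conv (B l k) (P c N) = fun x => ∑ i ∈ range (2 ^ l), P c i x / ((k : ℝ) - i) :=
    funext fun x => conv_B h4 c hl x
  rw [this]
  exact Finset.measurable_fun_sum _ fun i _ => (measurable_P c i).div_const _

lemma measurable_LL (c : ℕ → ℝ) (k : ℕ) : Measurable (LL c k) := by
  unfold LL
  exact (Finset.measurable_fun_sum _ fun i _ => (measurable_P c i).div_const _).const_mul _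

/-- low blocks -/
lemma blk_low (h1f : J1f) (h4a : J4a) (h4c : J4c) {p c₁ β : ℝ} (hp0 : 0 < p) (hp1 : p ≤ 1)
    (hc₁ : 0 ≤ c₁)
    (hTs : ∀ j : ℕ, E p (Ts j) ≤ ENNReal.ofReal (c₁ * (j + 1) * 2 ^ (β * j)))
    (c : ℕ → ℝ) {j n k : ℕ} (hj : j + 2 ≤ n) (hk : 2 ^ n ≤ k) :
    E p (fun x => LL (blk c j) k x - P (blk c j) (2 ^ (j + 1)) x) ≤
      ENNReal.ofReal ((4 / k) ^ p * (2 ^ (((j : ℝ) + 1) * (1 - p)) * (c₁ * (j + 2) *
        2 ^ (β * (j + 1))) + (2 ^ j : ℝ) ^ p)) * E p (P (blk c j) (2 ^ (j + 1))) := by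
  have hk1 : 1 ≤ k := le_trans Nat.one_le_two_pow hk
  have hk2 : 2 * 2 ^ (j + 1) ≤ k := by
    refine le_trans ?_ hk
    calc 2 * 2 ^ (j + 1) = 2 ^ (j + 2) := by ring
      _ ≤ 2 ^ n := Nat.pow_le_pow_right (by norm_num) hj
  have hkpos : (0 : ℝ) < k := by exact_mod_cast hk1
  have hH1 := one_le_H hk1
  have hH : 0 < H k := by linarith
  set d := P (blk c j) (2 ^ (j + 1)) with hd
  have e1 : E p (fun x => LL (blk c j) k x - d x)
      = E p (fun x => (1 / H k) * conv (B (j + 1) k) d x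
        + (-((∑ i ∈ range (2 ^ (j + 1)), 1 / ((k : ℝ) - i)) / H k)) * d x) := by
    congr 1
    funext x
    exact LL_blk_eq h4c c (by omega) x
  rw [e1]
  refine (E_add_le hp0.le hp1 ((measurable_conv_P_B h4c (blk c j) le_rfl).const_mul _)).trans ?_
  rw [E_const_mul hp0.le, E_const_mul hp0.le]
  have hs := sum_s_le hk2
  set s := ∑ i ∈ range (2 ^ (j + 1)), 1 / ((k : ℝ) - i) with hsdef
  have b1 : |1 / H k| ^ p ≤ 1 := by
    apply Real.rpow_le_one (abs_nonneg _) _ hp0.le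
    rw [abs_of_pos (by positivity)]
    rw [div_le_one hH]; exact hH1
  have b2 : |-(s / H k)| ^ p ≤ (4 / k * 2 ^ j) ^ p := by
    apply Real.rpow_le_rpow (abs_nonneg _) _ hp0.le
    rw [abs_neg, abs_of_nonneg (div_nonneg hs.1 hH.le)]
    refine (div_le_self hs.1 hH1).trans (hs.2.trans (le_of_eq ?_))
    rw [pow_succ]; ring
  have b3 : E p (conv (B (j + 1) k) d) ≤ ENNReal.ofReal (2 ^ (((j : ℝ) + 1) * (1 - p))) *
      (ENNReal.ofReal ((4 / k) ^ p) * ENNReal.ofReal (c₁ * (j + 2) * 2 ^ (β * (j + 1)))) * E p d := by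
    refine (h4a p (j + 1) (B (j + 1) k) d hp0 hp1 dep_B (dep_P _ le_rfl)).trans ?_
    have b4 : E p (B (j + 1) k) ≤ ENNReal.ofReal ((4 / k) ^ p) *
        ENNReal.ofReal (c₁ * (j + 2) * 2 ^ (β * (j + 1))) := by
      have b5 : E p (B (j + 1) k) ≤ E p (fun x => (4 / k) * Ts (j + 1) x) := by
        refine E_mono hp0.le fun x => ?_
        refine (h1f (j + 1) k x hk2).trans (le_trans (le_of_eq ?_) (le_abs_self _))
        ring
      refine b5.trans ?_
      rw [E_const_mul hp0.le, abs_of_pos (by positivity)]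
      gcongr
      refine (hTs (j + 1)).trans (le_of_eq ?_)
      push_cast
      congr 2
      ring
    push_cast
    gcongr
  calc ENNReal.ofReal (|1 / H k| ^ p) * E p (conv (B (j + 1) k) d)
        + ENNReal.ofReal (|-(s / H k)| ^ p) * E p d
      ≤ 1 * (ENNReal.ofReal (2 ^ (((j : ℝ) + 1) * (1 - p))) *
      (ENNReal.ofReal ((4 / k) ^ p) * ENNReal.ofReal (c₁ * (j + 2) * 2 ^ (β * (j + 1)))) * E p d)
        + ENNReal.ofReal ((4 / k * 2 ^ j) ^ p) * E p d := by
        gcongr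
        exact ENNReal.ofReal_le_one.2 b1
    _ = _ := by
        rw [one_mul, ← add_mul]
        congr 1
        rw [← ENNReal.ofReal_mul (by positivity), ← ENNReal.ofReal_mul (by positivity),
          ← ENNReal.ofReal_add (by positivity) (by positivity)]
        congr 1
        rw [Real.mul_rpow (by positivity) (by positivity)]
        ring

/-- high blocks -/
lemma blk_high (h4a : J4a) (h4c : J4c) {p cA : ℝ} (hp0 : 0 < p) (hp1 : p ≤ 1) (hcA : 0 < cA)
    (hA : ∀ k, E p (A k) ≤ ENNReal.ofReal cA)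
    (c : ℕ → ℝ) {j n k : ℕ} (hj : j ≤ n) (hk : 2 ^ n ≤ k) (hk' : k < 2 ^ (n + 1)) :
    E p (fun x => LL (blk c j) k x - P (blk c j) (2 ^ (j + 1)) x) ≤
      ENNReal.ofReal ((2 / ((n : ℝ) + 1)) ^ p * 2 ^ (((n : ℝ) + 1) * (1 - p)) * cA + 1) *
        E p (P (blk c j) (2 ^ (j + 1))) := by
  have hk1 : 1 ≤ k := le_trans Nat.one_le_two_pow hk
  have hH1 := one_le_H hk1
  have hH : 0 < H k := by linarith
  have hHn := H_ge hk
  set d := P (blk c j) (2 ^ (j + 1)) with hd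
  have hd2 : P (blk c j) (2 ^ (n + 1)) = d := by
    funext x
    rw [P_blk_of_le c (Nat.pow_le_pow_right (by norm_num) (by omega)), hd, P_blk_of_le c le_rfl]
  refine (E_sub_le hp0.le hp1 (measurable_LL _ k)).trans ?_
  have e1 : E p (LL (blk c j) k) = E p (fun x => (1 / H k) * conv (A k) d x) := by
    congr 1
    funext x
    rw [← hd2, conv_A h4c (blk c j) hk'.le]
    rfl
  rw [e1, E_const_mul hp0.le]
  have b1 : |1 / H k| ^ p ≤ (2 / ((n : ℝ) + 1)) ^ p := by
    apply Real.rpow_le_rpow (abs_nonneg _) _ hp0.le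
    rw [abs_of_pos (by positivity)]
    have : (1 : ℝ) / H k ≤ 1 / (((n : ℝ) + 1) / 2) := one_div_le_one_div_of_le (by positivity) hHn
    refine this.trans (le_of_eq ?_)
    field_simp
  have b2 : E p (conv (A k) d) ≤ ENNReal.ofReal (2 ^ (((n : ℝ) + 1) * (1 - p))) *
      ENNReal.ofReal cA * E p d := by
    have := h4a p (n + 1) (A k) d hp0 hp1 (dep_A hk'.le)
      (dep_P _ (Nat.pow_le_pow_right (by norm_num) (by omega)))
    refine this.trans ?_
    push_cast
    gcongr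
    exact hA k
  calc ENNReal.ofReal (|1 / H k| ^ p) * E p (conv (A k) d) + E p d
      ≤ ENNReal.ofReal ((2 / ((n : ℝ) + 1)) ^ p) * (ENNReal.ofReal (2 ^ (((n : ℝ) + 1) * (1 - p))) *
      ENNReal.ofReal cA * E p d) + 1 * E p d := by
        rw [one_mul]
        gcongr
    _ = _ := by
        rw [← mul_assoc, ← add_mul]
        congr 1
        rw [ENNReal.ofReal_add (by positivity) (by norm_num), ENNReal.ofReal_one,
          ENNReal.ofReal_mul (by positivity), ENNReal.ofReal_mul (by positivity)]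
        ring

end Q94.LM
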