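import Pool.Agent.Q94.LM.Asm2

/-!
# MP_332aa0_an: the theorem for `p < 1`
-/

open scoped BigOperators Topology ENNReal
open MeasureTheory Finset Filter Q94.WF

namespace Q94.LM

/-- `(‖f‖_{H_p})^p` is the integral of the `p`-th power of the maximal function -/
lemma Hnorm_rpow {p : ℝ} (hp : 0 < p) (f : ℕ → G → ℝ) :
    Hnorm p f ^ p = ∫⁻ x, (⨆ n, ‖f n x‖ₑ) ^ p ∂μ := by
  unfold Hnorm
  rw [← ENNReal.rpow_mul, one_div, inv_mul_cancel₀ hp.ne', ENNReal.rpow_one]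

lemma E_le_Hnorm {p : ℝ} (hp : 0 < p) (f : ℕ → G → ℝ) (n : ℕ) : E p (f n) ≤ Hnorm p f ^ p := by
  rw [Hnorm_rpow hp]
  unfold E
  exact lintegral_mono fun x => ENNReal.rpow_le_rpow (le_iSup (fun n => ‖f n x‖ₑ) n) hp.le

lemma E_block_le (h5a : J5a) {p : ℝ} (hp : 0 < p) {f : ℕ → G → ℝ} (hf : Martingale f ℱ μ) (j : ℕ) :
    E p (P (blk (coef f) j) (2 ^ (j + 1))) ≤ Hnorm p (tail f j) ^ p := by
  have h1 : P (blk (coef f) j) (2 ^ (j + 1)) = tail f j (j + 1) := by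
    funext x
    unfold tail
    rw [P_blk_of_le _ le_rfl, h5a f hf, h5a f hf, min_eq_right (by omega)]
  rw [h1]
  exact E_le_Hnorm hp _ _

/-- the weight -/
noncomputable def wt (p : ℝ) (n : ℕ) : ℝ := 2 ^ ((n : ℝ) * (1 - p)) / (n : ℝ) ^ p

lemma weighted {p : ℝ} (hp0 : 0 < p) (W : ℝ≥0∞) (n : ℕ) :
    (W * ENNReal.ofReal (2 ^ ((n : ℝ) * (1 / p - 1)) / n)) ^ p = W ^ p * ENNReal.ofReal (wt p n) := by
  rw [ENNReal.mul_rpow_of_nonneg _ _ hp0.le, ENNReal.ofReal_rpow_of_nonneg (by positivity) hp0.le]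
  congr 2
  unfold wt
  rw [Real.div_rpow (by positivity) (by positivity), ← Real.rpow_mul (by norm_num)]
  congr 2
  field_simp

/-- the main estimate: for `2^n ≤ k < 2^{n+1}` -/
lemma main_bound (h1f : J1f) (h4a : J4a) (h4c : J4c) (h5a : J5a) (h5b : J5b)
    {p c₁ β cA : ℝ} (hp0 : 0 < p) (hp1 : p ≤ 1) (hc₁ : 0 ≤ c₁) (hcA : 0 < cA)
    (hTs : ∀ j : ℕ, E p (Ts j) ≤ ENNReal.ofReal (c₁ * (j + 1) * 2 ^ (β * j)))
    (hA : ∀ k, E p (A k) ≤ ENNReal.ofReal cA)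
    {f : ℕ → G → ℝ} (hf : Martingale f ℱ μ)
    (ht : Tendsto (fun n => Hnorm p (tail f n)) atTop (𝓝 0)) {n k : ℕ} (hn : 1 ≤ n)
    (hk : 2 ^ n ≤ k) (hk' : k < 2 ^ (n + 1)) :
    E p (fun x => Lm f k x - limf f x) ≤
      ENNReal.ofReal ((|coef f 0| / k) ^ p) +
      ((∑ j ∈ range (n - 1), ENNReal.ofReal ((4 / k) ^ p * (2 ^ (((j : ℝ) + 1) * (1 - p)) *
        (c₁ * (j + 2) * 2 ^ (β * (j + 1))) + (2 ^ j : ℝ) ^ p)) * Hnorm p (tail f j) ^ p) +
      (ENNReal.ofReal ((2 / ((n : ℝ) + 1)) ^ p * 2 ^ (((n : ℝ) + 1) * (1 - p)) * cA + 1) *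
        (Hnorm p (tail f (n - 1)) ^ p + Hnorm p (tail f n) ^ p))) +
      Hnorm p (tail f (n + 1)) ^ p := by
  have hk1 : 1 ≤ k := le_trans Nat.one_le_two_pow hk
  have hkpos : (0 : ℝ) < k := by exact_mod_cast hk1
  have hH1 := one_le_H hk1
  have hH : 0 < H k := by linarith
  set c := coef f with hc
  have e1 : ∀ x, Lm f k x - limf f x = (-(c 0 / (k * H k)) +
      ∑ j ∈ range (n + 1), (LL (blk c j) k x - P (blk c j) (2 ^ (j + 1)) x)) +
      (f (n + 1) x - limf f x) := by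
    intro x
    rw [Lm_eq, LL_decomp _ hk1 hk'.le, h5a f hf (n + 1) x, ← hc,
      P_decomp c Nat.one_le_two_pow le_rfl x, Finset.sum_sub_distrib]
    have : ∑ j ∈ range (n + 1), P (blk c j) (2 ^ (n + 1)) x
        = ∑ j ∈ range (n + 1), P (blk c j) (2 ^ (j + 1)) x := by
      refine Finset.sum_congr rfl fun j hj => ?_
      have := Finset.mem_range.1 hj
      rw [P_blk_of_le c le_rfl, P_blk_of_le c (Nat.pow_le_pow_right (by norm_num) (by omega))]
    rw [this]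
    ring
  have m1 : ∀ j, Measurable (fun x => LL (blk c j) k x - P (blk c j) (2 ^ (j + 1)) x) := fun j =>
    (measurable_LL _ k).sub (measurable_P _ _)
  simp_rw [e1]
  refine (E_add_le hp0.le hp1 (by fun_prop)).trans (add_le_add ?_ ((h5b p f hp0 hf ht).2 (n + 1)))
  refine (E_add_le hp0.le hp1 measurable_const).trans (add_le_add ?_ ?_)
  · rw [E_const hp0.le]
    apply ENNReal.ofReal_le_ofReal
    apply Real.rpow_le_rpow (abs_nonneg _) _ hp0.le
    rw [abs_neg, abs_div, abs_of_pos (by positivity : 0 < (k : ℝ) * H k)]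
    apply div_le_div_of_nonneg_left (abs_nonneg _) hkpos
    nlinarith
  · refine (E_sum_le hp0 hp1 _ _ m1).trans ?_
    have hsplit : n + 1 = (n - 1) + 1 + 1 := by omega
    rw [hsplit, Finset.sum_range_succ, Finset.sum_range_succ, add_assoc]
    refine add_le_add ?_ ?_
    · refine Finset.sum_le_sum fun j hj => ?_
      have hj' := Finset.mem_range.1 hj
      refine (blk_low h1f h4a h4c hp0 hp1 hc₁ hTs c (j := j) (by omega : j + 2 ≤ n) hk).trans ?_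
      gcongr
      exact E_block_le h5a hp0 hf j
    · rw [mul_add]
      refine add_le_add ?_ ?_
      · refine (blk_high h4a h4c hp0 hp1 hcA hA c (j := n - 1) (by omega) hk hk').trans ?_
        gcongr
        exact E_block_le h5a hp0 hf _
      · have : n - 1 + 1 = n := by omega
        rw [this]
        refine (blk_high h4a h4c hp0 hp1 hcA hA c (j := n) le_rfl hk hk').trans ?_
        gcongr
        exact E_block_le h5a hp0 hf _

lemma one_le_wt {p : ℝ} (hp0 : 0 < p) (hp1 : p < 1) : ∃ c : ℝ, 0 < c ∧ ∀ n : ℕ, 1 ≤ n → c ≤ wt p n := by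
  -- `n^p / 2^{n(1-p)} → 0`
  have h1 : Tendsto (fun n : ℕ => ((n : ℝ) ^ (1 : ℕ)) * ((2 : ℝ) ^ (-(1 - p))) ^ n) atTop (𝓝 0) := by
    apply tendsto_pow_const_mul_const_pow_of_abs_lt_one
    rw [abs_of_pos (by positivity)]
    exact Real.rpow_lt_one_of_one_lt_of_neg (by norm_num) (by linarith)
  obtain ⟨M, hM⟩ := h1.bddAbove_range
  refine ⟨1 / (max M 1), by positivity, fun n hn => ?_⟩
  have h2 := hM ⟨n, rfl⟩
  simp only [pow_one] at h2
  have hn' : (1 : ℝ) ≤ n := by exact_mod_cast hn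
  have h3 : (n : ℝ) ^ p ≤ n := by
    calc (n : ℝ) ^ p ≤ (n : ℝ) ^ (1 : ℝ) := Real.rpow_le_rpow_of_exponent_le hn' hp1.le
      _ = n := Real.rpow_one _
  have h4 : ((2 : ℝ) ^ (-(1 - p))) ^ n = 1 / 2 ^ ((n : ℝ) * (1 - p)) := by
    rw [← Real.rpow_natCast, ← Real.rpow_mul (by norm_num), one_div, ← Real.rpow_neg (by norm_num)]
    congr 1; ring
  rw [h4] at h2
  unfold wt
  have h5 : (0 : ℝ) < 2 ^ ((n : ℝ) * (1 - p)) := by positivity
  have h6 : (0 : ℝ) < (n : ℝ) ^ p := by positivity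
  rw [div_le_div_iff₀ (by positivity) h6, one_mul]
  have h7 : (n : ℝ) ≤ M * 2 ^ ((n : ℝ) * (1 - p)) := by
    have := mul_le_mul_of_nonneg_right h2 h5.le
    have h8 : (n : ℝ) * (1 / 2 ^ ((n : ℝ) * (1 - p))) * 2 ^ ((n : ℝ) * (1 - p)) = n := by
      field_simp
    linarith
  calc (n : ℝ) ^ p ≤ n := h3
    _ ≤ M * 2 ^ ((n : ℝ) * (1 - p)) := h7
    _ ≤ max M 1 * 2 ^ ((n : ℝ) * (1 - p)) := by gcongr; exact le_max_left _ _
    _ = _ := by ring

end Q94.LM
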