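import Pool.Agent.Q94.LM.Asm3

/-!
# MP_332aa0_an: the theorem for `p < 1`, limits
-/

open scoped BigOperators Topology ENNReal
open MeasureTheory Finset Filter Q94.WF

namespace Q94.LM

lemma Hnorm_tail_lt_top {p : ℝ} (hp0 : 0 < p) {f : ℕ → G → ℝ} (h : Hnorm p f < ⊤) (n : ℕ) :
    Hnorm p (tail f n) < ⊤ := by
  have h1 : Hnorm p f ^ p < ⊤ := ENNReal.rpow_lt_top_of_nonneg hp0.le h.ne
  have h2 : Hnorm p (tail f n) ^ p ≤ 2 ^ p * Hnorm p f ^ p := by
    rw [Hnorm_rpow hp0, Hnorm_rpow hp0, ← lintegral_const_mul' _ _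
      (ENNReal.rpow_ne_top_of_nonneg hp0.le (by norm_num))]
    refine lintegral_mono fun x => ?_
    rw [← ENNReal.mul_rpow_of_nonneg _ _ hp0.le]
    refine ENNReal.rpow_le_rpow (iSup_le fun k => ?_) hp0.le
    unfold tail
    refine enorm_sub_le.trans ?_
    rw [two_mul]
    exact add_le_add (le_iSup (fun k => ‖f k x‖ₑ) k) (le_iSup (fun k => ‖f k x‖ₑ) (min k n))
  have h3 : Hnorm p (tail f n) ^ p < ⊤ :=
    lt_of_le_of_lt h2 (ENNReal.mul_lt_top (ENNReal.rpow_lt_top_of_nonneg hp0.le (by norm_num)) h1)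
  by_contra hcon
  rw [not_lt, top_le_iff] at hcon
  rw [hcon, ENNReal.top_rpow_of_pos hp0] at h3
  exact lt_irrefl _ h3

lemma low_term {p c₁ β γ K : ℝ} (hp0 : 0 < p) (hp1 : p < 1) (hc₁ : 0 ≤ c₁) (hγ0 : 0 ≤ γ)
    (hγp : γ < p) (hβγ : β ≤ γ) (hpγ : 2 * p - 1 ≤ γ) (hK : 0 ≤ K) {j n k : ℕ} (hj : j + 1 ≤ n)
    (hk : 2 ^ n ≤ k) :
    (4 / (k : ℝ)) ^ p * (2 ^ (((j : ℝ) + 1) * (1 - p)) *
        (c₁ * (j + 2) * 2 ^ (β * (j + 1))) + (2 ^ j : ℝ) ^ p) * (K * (j + 1) / 2 ^ ((j : ℝ) * (1 - p)))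
      ≤ 4 * K * (4 * c₁ + 1) * (n + 1) ^ 2 * 2 ^ ((γ - p) * n) := by
  have hj0 : (0 : ℝ) ≤ j := Nat.cast_nonneg j
  have hjn : (j : ℝ) + 1 ≤ n := by exact_mod_cast hj
  have hk0 : (0 : ℝ) < 2 ^ n := by positivity
  have hk' : (2 : ℝ) ^ n ≤ k := by exact_mod_cast hk
  have e1 : (4 / (k : ℝ)) ^ p ≤ 4 * 2 ^ (-(p * n)) := by
    calc (4 / (k : ℝ)) ^ p ≤ (4 / 2 ^ n) ^ p := by gcongr
      _ = 4 ^ p * 2 ^ (-(p * n)) := by
          rw [Real.div_rpow (by norm_num) hk0.le, ← Real.rpow_natCast, ← Real.rpow_mul (by norm_num),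
            Real.rpow_neg (by norm_num), mul_comm (n : ℝ) p]
          rfl
      _ ≤ 4 ^ (1 : ℝ) * 2 ^ (-(p * n)) := by
          gcongr
          norm_num
      _ = _ := by rw [Real.rpow_one]
  have e2 : (2 : ℝ) ^ (((j : ℝ) + 1) * (1 - p)) ≤ 2 * 2 ^ ((j : ℝ) * (1 - p)) := by
    have : ((j : ℝ) + 1) * (1 - p) = (1 - p) + (j : ℝ) * (1 - p) := by ring
    rw [this, Real.rpow_add (by norm_num)]
    gcongr
    calc (2 : ℝ) ^ (1 - p) ≤ 2 ^ (1 : ℝ) := Real.rpow_le_rpow_of_exponent_le (by norm_num) (by linarith)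
      _ = 2 := Real.rpow_one _
  have e3 : (2 : ℝ) ^ (β * (j + 1)) ≤ 2 * 2 ^ (γ * j) := by
    calc (2 : ℝ) ^ (β * (j + 1)) ≤ 2 ^ (1 + γ * j) := by
          apply Real.rpow_le_rpow_of_exponent_le (by norm_num)
          nlinarith
      _ = 2 * 2 ^ (γ * j) := by rw [Real.rpow_add (by norm_num), Real.rpow_one]
  have e4 : (2 ^ j : ℝ) ^ p ≤ 2 ^ ((j : ℝ) * (1 - p)) * 2 ^ (γ * j) := by
    rw [← Real.rpow_natCast, ← Real.rpow_mul (by norm_num), ← Real.rpow_add (by norm_num)]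
    apply Real.rpow_le_rpow_of_exponent_le (by norm_num)
    nlinarith
  have e5 : (2 : ℝ) ^ (((j : ℝ) + 1) * (1 - p)) *
        (c₁ * (j + 2) * 2 ^ (β * (j + 1))) + (2 ^ j : ℝ) ^ p
      ≤ 2 ^ ((j : ℝ) * (1 - p)) * 2 ^ (γ * j) * (4 * c₁ * (j + 2) + 1) := by
    calc _ ≤ (2 * 2 ^ ((j : ℝ) * (1 - p))) * (c₁ * (j + 2) * (2 * 2 ^ (γ * j)))
          + 2 ^ ((j : ℝ) * (1 - p)) * 2 ^ (γ * j) := by gcongr
      _ = _ := by ring
  have hpow : (0 : ℝ) < 2 ^ ((j : ℝ) * (1 - p)) := by positivity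
  calc _ ≤ (4 * 2 ^ (-(p * n))) * (2 ^ ((j : ℝ) * (1 - p)) * 2 ^ (γ * j) * (4 * c₁ * (j + 2) + 1)) *
        (K * (j + 1) / 2 ^ ((j : ℝ) * (1 - p))) := by gcongr
    _ = 4 * K * 2 ^ (-(p * n)) * 2 ^ (γ * j) * ((4 * c₁ * (j + 2) + 1) * (j + 1)) := by
        field_simp
    _ ≤ 4 * K * 2 ^ (-(p * n)) * 2 ^ (γ * n) * ((4 * c₁ + 1) * (n + 1) ^ 2) := by
        have h0 : (4 * c₁ * ((j : ℝ) + 2) + 1) * (j + 1) ≤ (4 * c₁ + 1) * (n + 1) ^ 2 := by
          have h1 : 4 * c₁ * ((j : ℝ) + 2) + 1 ≤ (4 * c₁ + 1) * (n + 1) := by nlinarith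
          have h2 : (j : ℝ) + 1 ≤ n + 1 := by linarith
          calc (4 * c₁ * ((j : ℝ) + 2) + 1) * (j + 1) ≤ ((4 * c₁ + 1) * (n + 1)) * (n + 1) := by
                gcongr
            _ = (4 * c₁ + 1) * (n + 1) ^ 2 := by ring
        have h3 : (2 : ℝ) ^ (γ * j) ≤ 2 ^ (γ * n) := by
          apply Real.rpow_le_rpow_of_exponent_le (by norm_num)
          nlinarith
        have h4 : 4 * K * 2 ^ (-(p * n)) * 2 ^ (γ * j) ≤ 4 * K * 2 ^ (-(p * n)) * 2 ^ (γ * n) := by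
          gcongr
        exact mul_le_mul h4 h0 (by positivity) (by positivity)
    _ = _ := by
        have : (2 : ℝ) ^ ((γ - p) * n) = 2 ^ (-(p * n)) * 2 ^ (γ * n) := by
          rw [← Real.rpow_add (by norm_num)]; congr 1; ring
        rw [this]; ring

lemma high_term {p : ℝ} (hp0 : 0 < p) (hp1 : p < 1) {j n : ℕ} (hj : 1 ≤ j) (hjn : j ≤ n)
    (hnj : n ≤ j + 1) :
    (2 / ((n : ℝ) + 1)) ^ p * 2 ^ (((n : ℝ) + 1) * (1 - p)) ≤ 8 * wt p j := by
  have hj' : (1 : ℝ) ≤ j := by exact_mod_cast hj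
  have hjn' : (j : ℝ) ≤ n := by exact_mod_cast hjn
  have hnj' : (n : ℝ) ≤ j + 1 := by exact_mod_cast hnj
  have e1 : (2 / ((n : ℝ) + 1)) ^ p ≤ 2 / (j : ℝ) ^ p := by
    calc (2 / ((n : ℝ) + 1)) ^ p ≤ (2 / (j : ℝ)) ^ p := by
          gcongr
          linarith
      _ = 2 ^ p / (j : ℝ) ^ p := Real.div_rpow (by norm_num) (by linarith) _
      _ ≤ 2 / (j : ℝ) ^ p := by
          gcongr
          calc (2 : ℝ) ^ p ≤ 2 ^ (1 : ℝ) := Real.rpow_le_rpow_of_exponent_le (by norm_num) hp1.le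
            _ = 2 := Real.rpow_one _
  have e2 : (2 : ℝ) ^ (((n : ℝ) + 1) * (1 - p)) ≤ 4 * 2 ^ ((j : ℝ) * (1 - p)) := by
    calc (2 : ℝ) ^ (((n : ℝ) + 1) * (1 - p)) ≤ 2 ^ (2 + (j : ℝ) * (1 - p)) := by
          apply Real.rpow_le_rpow_of_exponent_le (by norm_num)
          nlinarith
      _ = 4 * 2 ^ ((j : ℝ) * (1 - p)) := by
          rw [Real.rpow_add (by norm_num)]; norm_num
  calc _ ≤ (2 / (j : ℝ) ^ p) * (4 * 2 ^ ((j : ℝ) * (1 - p))) := by gcongr
    _ = _ := by unfold wt; ring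

theorem m1 (h1f : J1f) (h2c : J2c) (h3b : J3b) (h4a : J4a) (h4c : J4c) (h5a : J5a) (h5b : J5b) :
    M1 := by
  intro p f hp0 hp1 hf hfin ha
  obtain ⟨c₁, β, hc₁, hβp, hβ0, hTs⟩ := h2c p hp0 hp1
  obtain ⟨cA, hcA, hA⟩ := h3b p hp0 hp1
  obtain ⟨cw, hcw, hwt⟩ := one_le_wt hp0 hp1
  set W : ℕ → ℝ≥0∞ := fun n => Hnorm p (tail f n) ^ p with hW
  have hWtop : ∀ n, W n ≠ ⊤ := fun n =>
    (ENNReal.rpow_lt_top_of_nonneg hp0.le (Hnorm_tail_lt_top hp0 hfin n).ne).ne
  -- step 1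
  set b : ℕ → ℝ≥0∞ := fun n => W n * ENNReal.ofReal (wt p n) with hb
  have hb0 : Tendsto b atTop (𝓝 0) := by
    have h1 := ((ENNReal.continuous_rpow_const (y := p)).tendsto 0).comp ha
    rw [ENNReal.zero_rpow_of_pos hp0] at h1
    refine h1.congr fun n => ?_
    simp only [Function.comp_apply]
    rw [weighted hp0]
  -- step 2
  have hWb : ∀ n : ℕ, 1 ≤ n → W n ≤ ENNReal.ofReal (1 / cw) * b n := by
    intro n hn
    have h1 : W n * ENNReal.ofReal cw ≤ b n := by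
      simp only [hb]
      gcongr
      exact hwt n hn
    calc W n = ENNReal.ofReal (1 / cw) * (W n * ENNReal.ofReal cw) := by
          rw [mul_comm (W n), ← mul_assoc, ← ENNReal.ofReal_mul (by positivity),
            one_div_mul_cancel hcw.ne', ENNReal.ofReal_one, one_mul]
      _ ≤ _ := by gcongr
  have hW0 : Tendsto W atTop (𝓝 0) := by
    have h1 : Tendsto (fun n => ENNReal.ofReal (1 / cw) * b n) atTop (𝓝 0) := by
      have := ENNReal.Tendsto.const_mul (a := ENNReal.ofReal (1 / cw)) hb0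
        (Or.inr ENNReal.ofReal_ne_top)
      rwa [mul_zero] at this
    refine tendsto_of_tendsto_of_tendsto_of_le_of_le' tendsto_const_nhds h1
      (Eventually.of_forall fun n => zero_le) ?_
    filter_upwards [eventually_ge_atTop 1] with n hn using hWb n hn
  have ht : Tendsto (fun n => Hnorm p (tail f n)) atTop (𝓝 0) := by
    have h1 := ((ENNReal.continuous_rpow_const (y := 1 / p)).tendsto 0).comp hW0
    rw [ENNReal.zero_rpow_of_pos (by positivity)] at h1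
    refine h1.congr fun n => ?_
    simp only [Function.comp_apply, hW]
    rw [← ENNReal.rpow_mul, mul_one_div_cancel hp0.ne', ENNReal.rpow_one]
  -- step 3
  obtain ⟨K, hK0, hK⟩ : ∃ K : ℝ, 0 ≤ K ∧ ∀ j, W j ≤
      ENNReal.ofReal (K * (j + 1) / 2 ^ ((j : ℝ) * (1 - p))) := by
    have h1 : Tendsto (fun n => (b n).toReal) atTop (𝓝 0) := by
      have := (ENNReal.tendsto_toReal ENNReal.zero_ne_top).comp hb0
      rwa [ENNReal.toReal_zero] at this
    obtain ⟨M, hM⟩ := h1.bddAbove_range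
    refine ⟨max M 0 + (W 0).toReal, by positivity, fun j => ?_⟩
    rcases Nat.eq_zero_or_pos j with h0 | hjpos
    · subst h0
      rw [← ENNReal.ofReal_toReal (hWtop 0)]
      apply ENNReal.ofReal_le_ofReal
      simp
    · have hj' : (0 : ℝ) < j := by exact_mod_cast hjpos
      have hj1 : (1 : ℝ) ≤ j := by exact_mod_cast hjpos
      have hwpos : 0 < wt p j := by unfold wt; positivity
      have h2 : W j = ENNReal.ofReal ((b j).toReal / wt p j) := by
        simp only [hb]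
        rw [ENNReal.toReal_mul, ENNReal.toReal_ofReal hwpos.le, mul_div_assoc, div_self hwpos.ne',
          mul_one, ENNReal.ofReal_toReal (hWtop j)]
      rw [h2]
      apply ENNReal.ofReal_le_ofReal
      have h3 : (b j).toReal ≤ max M 0 + (W 0).toReal :=
        (hM ⟨j, rfl⟩).trans ((le_max_left _ _).trans (le_add_of_nonneg_right ENNReal.toReal_nonneg))
      have h4 : (j : ℝ) ^ p ≤ j + 1 := by
        calc (j : ℝ) ^ p ≤ (j : ℝ) ^ (1 : ℝ) := Real.rpow_le_rpow_of_exponent_le hj1 hp1.le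
          _ = j := Real.rpow_one _
          _ ≤ j + 1 := by linarith
      unfold wt
      rw [div_div_eq_mul_div]
      have h5 : (0 : ℝ) ≤ max M 0 + (W 0).toReal := by positivity
      gcongr
  -- the bound
  set γ := max β (2 * p - 1) with hγ
  have hγ0 : 0 ≤ γ := hβ0.trans (le_max_left _ _)
  have hγp : γ < p := max_lt hβp (by linarith)
  set Φ : ℕ → ℝ≥0∞ := fun n => ENNReal.ofReal ((|coef f 0| / 2 ^ n) ^ p) +
      (ENNReal.ofReal (4 * K * (4 * c₁ + 1) * (n + 1) ^ 3 * 2 ^ ((γ - p) * n)) +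
      ((ENNReal.ofReal (8 * cA) * b (n - 1) + W (n - 1)) +
        (ENNReal.ofReal (8 * cA) * b n + W n))) + W (n + 1) with hΦ
  have hbound : ∀ n k : ℕ, 2 ≤ n → 2 ^ n ≤ k → k < 2 ^ (n + 1) →
      E p (fun x => Lm f k x - limf f x) ≤ Φ n := by
    intro n k hn hk hk'
    have hk0 : (2 : ℝ) ^ n ≤ k := by exact_mod_cast hk
    refine (main_bound h1f h4a h4c h5a h5b hp0 hp1.le hc₁.le hcA hTs hA hf ht (by omega : 1 ≤ n)
      hk hk').trans ?_
    simp only [hΦ]
    refine add_le_add (add_le_add ?_ (add_le_add ?_ ?_)) le_rfl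
    · apply ENNReal.ofReal_le_ofReal
      gcongr
    · have h1 : ∀ j ∈ range (n - 1), ENNReal.ofReal ((4 / (k : ℝ)) ^ p *
          (2 ^ (((j : ℝ) + 1) * (1 - p)) * (c₁ * (j + 2) * 2 ^ (β * (j + 1))) + (2 ^ j : ℝ) ^ p)) *
          Hnorm p (tail f j) ^ p ≤
          ENNReal.ofReal (4 * K * (4 * c₁ + 1) * (n + 1) ^ 2 * 2 ^ ((γ - p) * n)) := by
        intro j hj
        have hj' := Finset.mem_range.1 hj
        calc _ ≤ ENNReal.ofReal ((4 / (k : ℝ)) ^ p *
          (2 ^ (((j : ℝ) + 1) * (1 - p)) * (c₁ * (j + 2) * 2 ^ (β * (j + 1))) + (2 ^ j : ℝ) ^ p)) *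
            ENNReal.ofReal (K * (j + 1) / 2 ^ ((j : ℝ) * (1 - p))) := by
              gcongr
              exact hK j
          _ ≤ _ := by
              rw [← ENNReal.ofReal_mul (by positivity)]
              apply ENNReal.ofReal_le_ofReal
              exact low_term hp0 hp1 hc₁.le hγ0 hγp (le_max_left _ _) (le_max_right _ _) hK0
                (by omega) hk
      refine (Finset.sum_le_sum h1).trans ?_
      rw [Finset.sum_const, card_range, nsmul_eq_mul, ← ENNReal.ofReal_natCast,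
        ← ENNReal.ofReal_mul (by positivity)]
      apply ENNReal.ofReal_le_ofReal
      have h2 : (((n - 1 : ℕ) : ℝ)) ≤ n + 1 := by
        have : (n - 1 : ℕ) ≤ n + 1 := by omega
        exact_mod_cast this
      calc _ ≤ ((n : ℝ) + 1) * (4 * K * (4 * c₁ + 1) * (n + 1) ^ 2 * 2 ^ ((γ - p) * n)) := by gcongr
        _ = _ := by ring
    · rw [mul_add]
      have h1 : ∀ j : ℕ, 1 ≤ j → j ≤ n → n ≤ j + 1 →
          ENNReal.ofReal ((2 / ((n : ℝ) + 1)) ^ p * 2 ^ (((n : ℝ) + 1) * (1 - p)) * cA + 1) *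
            Hnorm p (tail f j) ^ p ≤ ENNReal.ofReal (8 * cA) * b j + W j := by
        intro j h1 h2 h3
        rw [ENNReal.ofReal_add (by positivity) (by norm_num), ENNReal.ofReal_one, add_mul, one_mul]
        refine add_le_add ?_ le_rfl
        simp only [hb]
        rw [mul_comm (W j), ← mul_assoc, ← ENNReal.ofReal_mul (by positivity)]
        have h5 := high_term hp0 hp1 h1 h2 h3
        have h6 : (2 / ((n : ℝ) + 1)) ^ p * 2 ^ (((n : ℝ) + 1) * (1 - p)) * cA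
            ≤ 8 * cA * wt p j := by
          calc _ ≤ (8 * wt p j) * cA := mul_le_mul_of_nonneg_right h5 hcA.le
            _ = _ := by ring
        exact mul_le_mul_left (ENNReal.ofReal_le_ofReal h6) _
      exact add_le_add (h1 (n - 1) (by omega) (by omega) (by omega))
        (h1 n (by omega) le_rfl (by omega))
  -- the limit of the bound
  have hΦ0 : Tendsto Φ atTop (𝓝 0) := by
    have l1 : Tendsto (fun n : ℕ => ENNReal.ofReal ((|coef f 0| / 2 ^ n) ^ p)) atTop (𝓝 0) := by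
      have h1 : Tendsto (fun n : ℕ => (|coef f 0| / (2 : ℝ) ^ n) ^ p) atTop (𝓝 0) := by
        have h2 : Tendsto (fun n : ℕ => |coef f 0| / (2 : ℝ) ^ n) atTop (𝓝 0) :=
          tendsto_const_nhds.div_atTop (tendsto_pow_atTop_atTop_of_one_lt (by norm_num))
        have h3 := (Real.continuousAt_rpow_const 0 p (Or.inr hp0.le)).tendsto.comp h2
        rwa [Real.zero_rpow hp0.ne'] at h3
      have := (ENNReal.continuous_ofReal.tendsto 0).comp h1
      rwa [ENNReal.ofReal_zero] at this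
    have l2 : Tendsto (fun n : ℕ => ENNReal.ofReal
        (4 * K * (4 * c₁ + 1) * (n + 1) ^ 3 * 2 ^ ((γ - p) * n))) atTop (𝓝 0) := by
      have h1 : Tendsto (fun n : ℕ => ((n : ℝ) ^ (3 : ℕ)) * ((2 : ℝ) ^ (γ - p)) ^ n) atTop (𝓝 0) := by
        apply tendsto_pow_const_mul_const_pow_of_abs_lt_one
        rw [abs_of_pos (by positivity)]
        exact Real.rpow_lt_one_of_one_lt_of_neg (by norm_num) (by linarith)
      have h2 := (h1.comp (tendsto_add_atTop_nat 1)).const_mul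
        (4 * K * (4 * c₁ + 1) * 2 ^ (-(γ - p)))
      rw [mul_zero] at h2
      have h3 : Tendsto (fun n : ℕ => 4 * K * (4 * c₁ + 1) * ((n : ℝ) + 1) ^ 3 *
          (2 : ℝ) ^ ((γ - p) * n)) atTop (𝓝 0) := by
        refine h2.congr fun n => ?_
        simp only [Function.comp_apply]
        rw [← Real.rpow_natCast ((2 : ℝ) ^ (γ - p)), ← Real.rpow_mul (by norm_num)]
        push_cast
        have h4 : (2 : ℝ) ^ ((γ - p) * ((n : ℝ) + 1)) = 2 ^ (γ - p) * 2 ^ ((γ - p) * n) := by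
          rw [← Real.rpow_add (by norm_num)]; congr 1; ring
        rw [h4, Real.rpow_neg (by norm_num)]
        have : (2 : ℝ) ^ (γ - p) ≠ 0 := by positivity
        field_simp
      have := (ENNReal.continuous_ofReal.tendsto 0).comp h3
      rwa [ENNReal.ofReal_zero] at this
    have l3 : Tendsto (fun n => ENNReal.ofReal (8 * cA) * b n + W n) atTop (𝓝 0) := by
      have h1 := ENNReal.Tendsto.const_mul (a := ENNReal.ofReal (8 * cA)) hb0
        (Or.inr ENNReal.ofReal_ne_top)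
      rw [mul_zero] at h1
      have := h1.add hW0
      rwa [add_zero] at this
    have l4 : Tendsto (fun n => ENNReal.ofReal (8 * cA) * b (n - 1) + W (n - 1)) atTop (𝓝 0) :=
      l3.comp (tendsto_sub_atTop_nat 1)
    have l5 : Tendsto (fun n => W (n + 1)) atTop (𝓝 0) := hW0.comp (tendsto_add_atTop_nat 1)
    have h9 := ((l1.add (l2.add (l4.add l3))).add l5)
    rw [add_zero, add_zero, add_zero, add_zero] at h9
    exact h9
  -- conclusion
  have hE : Tendsto (fun k => E p (fun x => Lm f k x - limf f x)) atTop (𝓝 0) := by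
    have h1 : Tendsto (fun k : ℕ => Nat.log 2 k) atTop atTop := by
      rw [tendsto_atTop_atTop]
      intro m
      exact ⟨2 ^ m, fun k hk => Nat.le_log_of_pow_le (by norm_num) hk⟩
    refine tendsto_of_tendsto_of_tendsto_of_le_of_le' tendsto_const_nhds (hΦ0.comp h1)
      (Eventually.of_forall fun n => zero_le) ?_
    filter_upwards [eventually_ge_atTop 4] with k hk
    simp only [Function.comp_apply]
    refine hbound _ k ?_ (Nat.pow_log_le_self 2 (by omega)) (Nat.lt_pow_succ_log_self (by norm_num) k)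
    exact Nat.le_log_of_pow_le (by norm_num) (by omega)
  have h1 := ((ENNReal.continuous_rpow_const (y := 1 / p)).tendsto 0).comp hE
  rw [ENNReal.zero_rpow_of_pos (by positivity)] at h1
  exact h1

end Q94.LM
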