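import Pool.Agent.Q94.LM.Asm4

/-!
# MP_332aa0_an: the theorem for `p = 1`
-/

open scoped BigOperators Topology ENNReal
open MeasureTheory Finset Filter Q94.WF

namespace Q94.LM

/-- low coefficients -/
noncomputable def lo (c : ℕ → ℝ) (m : ℕ) (i : ℕ) : ℝ := if i < 2 ^ m then c i else 0

/-- high coefficients -/
noncomputable def hi (c : ℕ → ℝ) (m : ℕ) (i : ℕ) : ℝ := if i < 2 ^ m then 0 else c i

lemma P_lo_hi (c : ℕ → ℝ) (m N : ℕ) (x : G) : P c N x = P (lo c m) N x + P (hi c m) N x := by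
  unfold P
  rw [← Finset.sum_add_distrib]
  refine Finset.sum_congr rfl fun i _ => ?_
  unfold lo hi
  split_ifs <;> ring

lemma LL_lo_hi (c : ℕ → ℝ) (m k : ℕ) (x : G) : LL c k x = LL (lo c m) k x + LL (hi c m) k x := by
  unfold LL
  rw [← mul_add, ← Finset.sum_add_distrib]
  congr 1
  refine Finset.sum_congr rfl fun i _ => ?_
  rw [P_lo_hi c m]
  ring

lemma P_lo_of_le (c : ℕ → ℝ) {m N : ℕ} (h : 2 ^ m ≤ N) (x : G) :
    P (lo c m) N x = P c (2 ^ m) x := by
  unfold P
  have h1 : ∑ i ∈ range N, lo c m i * w i x = ∑ i ∈ range (2 ^ m), lo c m i * w i x := by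
    symm
    refine Finset.sum_subset (range_mono h) fun i _ hi => ?_
    unfold lo
    rw [if_neg (by simpa using hi), zero_mul]
  rw [h1]
  refine Finset.sum_congr rfl fun i hi => ?_
  unfold lo
  rw [if_pos (Finset.mem_range.1 hi)]

lemma P_hi_of_le (c : ℕ → ℝ) {m N : ℕ} (h : 2 ^ m ≤ N) (x : G) :
    P (hi c m) N x = P c N x - P c (2 ^ m) x := by
  rw [P_lo_hi c m N x, P_lo_of_le c h]; ring

lemma abs_P_lo_le (c : ℕ → ℝ) (m N : ℕ) (x : G) :
    |P (lo c m) N x| ≤ ∑ i ∈ range (2 ^ m), |c i| := by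
  rcases le_total N (2 ^ m) with h | h
  · refine (abs_P_le _ _ _).trans ?_
    refine (Finset.sum_le_sum_of_subset_of_nonneg (range_mono h) fun i _ _ => abs_nonneg _).trans ?_
    refine Finset.sum_le_sum fun i hi => ?_
    unfold lo
    rw [if_pos (Finset.mem_range.1 hi)]
  · rw [P_lo_of_le c h]
    exact abs_P_le _ _ _

lemma lo_bound (c : ℕ → ℝ) {m k : ℕ} (hk : 2 * 2 ^ m ≤ k) (x : G) :
    |LL (lo c m) k x - P c (2 ^ m) x| ≤ (∑ i ∈ range (2 ^ m), |c i|) * (4 * 2 ^ m) / k := by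
  have hk1 : 1 ≤ k := by
    have : 0 < 2 ^ m := by positivity
    omega
  have hH1 := one_le_H hk1
  have hH : 0 < H k := by linarith
  have hs := sum_s_le hk
  set M := ∑ i ∈ range (2 ^ m), |c i| with hM
  have hM0 : 0 ≤ M := Finset.sum_nonneg fun i _ => abs_nonneg _
  set d := P c (2 ^ m) x with hd
  have hd1 : |d| ≤ M := abs_P_le _ _ _
  have h1 : ∑ i ∈ range k, P (lo c m) i x / ((k : ℝ) - i)
      = d * H k + ∑ i ∈ range (2 ^ m), (P (lo c m) i x - d) * (1 / ((k : ℝ) - i)) := by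
    have h2 : ∑ i ∈ range (2 ^ m), (P (lo c m) i x - d) * (1 / ((k : ℝ) - i))
        = ∑ i ∈ range k, (P (lo c m) i x - d) * (1 / ((k : ℝ) - i)) := by
      refine Finset.sum_subset (range_mono (by omega)) fun i _ hi => ?_
      have hi' : 2 ^ m ≤ i := by simpa using hi
      rw [P_lo_of_le c hi', ← hd]
      ring
    rw [h2, H_eq, Finset.mul_sum, ← Finset.sum_add_distrib]
    exact Finset.sum_congr rfl fun i _ => by ring
  have h3 : LL (lo c m) k x - d
      = (1 / H k) * ∑ i ∈ range (2 ^ m), (P (lo c m) i x - d) * (1 / ((k : ℝ) - i)) := by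
    unfold LL
    rw [h1]
    field_simp
    ring
  rw [h3, abs_mul, abs_of_pos (by positivity : (0 : ℝ) < 1 / H k)]
  have h4 : |∑ i ∈ range (2 ^ m), (P (lo c m) i x - d) * (1 / ((k : ℝ) - i))|
      ≤ (2 * M) * ∑ i ∈ range (2 ^ m), 1 / ((k : ℝ) - i) := by
    refine (Finset.abs_sum_le_sum_abs _ _).trans ?_
    rw [Finset.mul_sum]
    refine Finset.sum_le_sum fun i hi => ?_
    have hi' := Finset.mem_range.1 hi
    have hik : (i : ℝ) < k := by
      have : i < k := by omega
      exact_mod_cast this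
    rw [abs_mul, abs_of_pos (by
      have : 0 < (k : ℝ) - i := by linarith
      positivity : (0 : ℝ) < 1 / ((k : ℝ) - i))]
    have : 0 < (k : ℝ) - i := by linarith
    gcongr
    calc |P (lo c m) i x - d| ≤ |P (lo c m) i x| + |d| := abs_sub _ _
      _ ≤ M + M := add_le_add (abs_P_lo_le _ _ _ _) hd1
      _ = 2 * M := by ring
  have h5 : 1 / H k ≤ 1 := by rw [div_le_one hH]; exact hH1
  calc (1 / H k) * |∑ i ∈ range (2 ^ m), (P (lo c m) i x - d) * (1 / ((k : ℝ) - i))|
      ≤ 1 * ((2 * M) * (2 ^ m * (2 / k))) := by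
        refine mul_le_mul h5 (h4.trans ?_) (abs_nonneg _) (by norm_num)
        exact mul_le_mul_of_nonneg_left hs.2 (by positivity)
    _ = _ := by ring

lemma weak_split {a b e : G → ℝ} {ε : ℝ} (ha : ∀ x, |a x| ≤ ε) {B E' : ℝ≥0∞}
    (hb : ∀ t : ℝ, 0 < t → ENNReal.ofReal t * μ {x | t < |b x|} ≤ B)
    (he : ∀ t : ℝ, 0 < t → ENNReal.ofReal t * μ {x | t < |e x|} ≤ E') {t : ℝ} (ht : 0 < t) :
    ENNReal.ofReal t * μ {x | t < |a x + b x + e x|} ≤ ENNReal.ofReal (3 * ε) + 3 * B + 3 * E' := by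
  have h1 : {x | t < |a x + b x + e x|} ⊆
      ({x | t / 3 < |a x|} ∪ {x | t / 3 < |b x|}) ∪ {x | t / 3 < |e x|} := by
    intro x hx
    by_contra hcon
    simp only [Set.mem_union, Set.mem_ofPred_eq, not_or, not_lt] at hcon hx
    have h2 := abs_add_le (a x + b x) (e x)
    have h3 := abs_add_le (a x) (b x)
    linarith [hcon.1.1, hcon.1.2, hcon.2]
  have h3 : ENNReal.ofReal t = 3 * ENNReal.ofReal (t / 3) := by
    have : (3 : ℝ≥0∞) = ENNReal.ofReal 3 := by norm_num
    rw [this, ← ENNReal.ofReal_mul (by norm_num)]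
    congr 1; ring
  have ht3 : 0 < t / 3 := by positivity
  have ha' : ENNReal.ofReal t * μ {x | t / 3 < |a x|} ≤ ENNReal.ofReal (3 * ε) := by
    by_cases hε : ε ≤ t / 3
    · have : {x | t / 3 < |a x|} = ∅ := by
        ext x
        simp only [Set.mem_ofPred_eq, Set.mem_empty_iff_false, iff_false, not_lt]
        exact (ha x).trans hε
      rw [this]; simp
    · push Not at hε
      calc ENNReal.ofReal t * μ {x | t / 3 < |a x|} ≤ ENNReal.ofReal (3 * ε) * 1 := by
            gcongr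
            · linarith
            · exact prob_le_one
        _ = _ := mul_one _
  calc ENNReal.ofReal t * μ {x | t < |a x + b x + e x|}
      ≤ ENNReal.ofReal t * (μ {x | t / 3 < |a x|} + μ {x | t / 3 < |b x|} + μ {x | t / 3 < |e x|}) := by
        gcongr
        refine (measure_mono h1).trans ((measure_union_le _ _).trans ?_)
        gcongr
        exact measure_union_le _ _
    _ = ENNReal.ofReal t * μ {x | t / 3 < |a x|} + 3 * (ENNReal.ofReal (t / 3) * μ {x | t / 3 < |b x|})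
        + 3 * (ENNReal.ofReal (t / 3) * μ {x | t / 3 < |e x|}) := by
        rw [mul_add, mul_add, ← mul_assoc 3, ← mul_assoc 3, ← h3]
    _ ≤ _ := by
        gcongr
        · exact hb _ ht3
        · exact he _ ht3

theorem m2 (h4c : J4c) (h4d : J4d) (h5a : J5a) (h5b : J5b) (h5c : J5c) : M2 := by
  intro f hf hfin
  obtain ⟨c₀, hc₀, h4⟩ := h4d
  have ht := h5c f hf hfin
  have hae := (h5b 1 f one_pos hf ht).1
  have hE := (h5b 1 f one_pos hf ht).2
  have hmf : ∀ n, Measurable (f n) := fun n => by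
    have : f n = P (coef f) (2 ^ n) := funext fun x => h5a f hf n x
    rw [this]; exact measurable_P _ _
  have hml : AEMeasurable (limf f) μ :=
    aemeasurable_of_tendsto_metrizable_ae atTop (fun n => (hmf n).aemeasurable) hae
  set c := coef f with hc
  rw [ENNReal.tendsto_nhds_zero]
  intro ε hε
  -- choose m
  have hlim : Tendsto (fun m => 3 * (ENNReal.ofReal c₀ * Hnorm 1 (tail f m)) + 3 * Hnorm 1 (tail f m))
      atTop (𝓝 0) := by
    have h1 := ENNReal.Tendsto.const_mul (a := ENNReal.ofReal c₀) ht (Or.inr ENNReal.ofReal_ne_top)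
    have h2 := ENNReal.Tendsto.const_mul (a := 3) h1 (Or.inr (by norm_num))
    have h3 := ENNReal.Tendsto.const_mul (a := 3) ht (Or.inr (by norm_num))
    have := h2.add h3
    simpa using this
  obtain ⟨m, hm⟩ := ((ENNReal.tendsto_nhds_zero.1 hlim) (ε / 2) (ENNReal.half_pos hε.ne')).exists
  set M := (∑ i ∈ range (2 ^ m), |c i|) * (4 * 2 ^ m) with hM
  have hlim2 : Tendsto (fun k : ℕ => ENNReal.ofReal (3 * (M / k))) atTop (𝓝 0) := by
    have h1 : Tendsto (fun k : ℕ => 3 * (M / (k : ℝ))) atTop (𝓝 0) := by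
      have := (tendsto_const_div_atTop_nhds_zero_nat M).const_mul 3
      rwa [mul_zero] at this
    have := (ENNReal.continuous_ofReal.tendsto 0).comp h1
    rwa [ENNReal.ofReal_zero] at this
  filter_upwards [(ENNReal.tendsto_nhds_zero.1 hlim2) (ε / 2) (ENNReal.half_pos hε.ne'),
    eventually_ge_atTop (2 * 2 ^ m)] with k hk1 hk2
  have hk0 : k ≠ 0 := by
    have : 0 < 2 ^ m := by positivity
    omega
  set n := Nat.log 2 k with hn
  have hnk : 2 ^ n ≤ k := Nat.pow_log_le_self 2 hk0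
  have hnk' : k < 2 ^ (n + 1) := Nat.lt_pow_succ_log_self (by norm_num) k
  have hmn : 2 ^ m ≤ 2 ^ (n + 1) := by omega
  have hmn' : m ≤ n + 1 := (Nat.pow_le_pow_iff_right (by norm_num)).1 hmn
  have e1 : ∀ x, Lm f k x - limf f x = (LL (lo c m) k x - P c (2 ^ m) x) + LL (hi c m) k x
      + (f m x - limf f x) := by
    intro x
    rw [Lm_eq, LL_lo_hi _ m, h5a f hf m x, ← hc]
    ring
  have hb : ∀ t : ℝ, 0 < t → ENNReal.ofReal t * μ {x | t < |LL (hi c m) k x|} ≤
      ENNReal.ofReal c₀ * Hnorm 1 (tail f m) := by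
    intro t ht
    have h1 := h4 n k hnk hnk' (hi c m) t ht
    have h2 : ∀ x, conv (A k) (P (hi c m) (2 ^ (n + 1))) x / H k = LL (hi c m) k x := by
      intro x
      rw [conv_A h4c _ hnk'.le]
      unfold LL
      ring
    simp_rw [h2] at h1
    refine h1.trans ?_
    gcongr
    have h3 : P (hi c m) (2 ^ (n + 1)) = tail f m (n + 1) := by
      funext x
      unfold tail
      rw [P_hi_of_le c hmn, min_eq_right hmn', h5a f hf (n + 1) x, h5a f hf m x]
    rw [h3]
    have := E_le_Hnorm one_pos (tail f m) (n + 1)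
    rwa [ENNReal.rpow_one] at this
  have he : ∀ t : ℝ, 0 < t → ENNReal.ofReal t * μ {x | t < |f m x - limf f x|} ≤
      Hnorm 1 (tail f m) := by
    intro t _
    have h1 := hE m
    rw [ENNReal.rpow_one] at h1
    refine le_trans ?_ h1
    unfold E
    have h2 : AEMeasurable (fun x => ‖f m x - limf f x‖ₑ ^ (1 : ℝ)) μ :=
      (((hmf m).aemeasurable.sub hml).enorm).pow_const _
    refine le_trans ?_ (mul_meas_ge_le_lintegral₀ h2 (ENNReal.ofReal t))
    gcongr
    rename_i x
    intro hx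
    rw [ENNReal.rpow_one, Real.enorm_eq_ofReal_abs]
    exact ENNReal.ofReal_le_ofReal hx.le
  unfold Wnorm
  rw [div_one, ENNReal.rpow_one]
  refine iSup_le fun t => iSup_le fun ht0 => ?_
  rw [Real.rpow_one]
  simp_rw [e1]
  refine (weak_split (ε := M / k) (fun x => lo_bound c hk2 x) hb he ht0).trans ?_
  rw [add_assoc]
  calc ENNReal.ofReal (3 * (M / k)) + (3 * (ENNReal.ofReal c₀ * Hnorm 1 (tail f m))
        + 3 * Hnorm 1 (tail f m)) ≤ ε / 2 + ε / 2 := add_le_add hk1 hm
    _ = ε := ENNReal.add_halves ε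

end Q94.LM
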