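import Pool.Agent.Q94.LM.N3
import Pool.Agent.Q94.LM.Asm5
import Pool.Agent.Q176.LM.K2
import Pool.Agent.Q176.LM.V1
import Pool.Agent.Q176.LM.V2

/-!
# MP_332aa0_an: complex martingales
-/

open scoped BigOperators Topology ENNReal
open MeasureTheory Finset Filter Q94.WF

namespace Q94.LMC

/-- Walsh-Fourier coefficients `lim_k ∫ f^{(k)} w_i dμ` of a martingale. -/
noncomputable def coef (f : ℕ → G → ℂ) (i : ℕ) : ℂ :=
  limUnder atTop fun k => ∫ x, f k x * (w i x : ℂ) ∂μ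

/-- Partial sums `S_k f = ∑_{j < k} f̂(j) w_j`. -/
noncomputable def S (f : ℕ → G → ℂ) (k : ℕ) (x : G) : ℂ := ∑ j ∈ range k, coef f j * (w j x : ℂ)

/-- `l_n = ∑_{k=1}^n 1/k`. -/
noncomputable def l (n : ℕ) : ℝ := ∑ i ∈ range n, 1 / ((i : ℝ) + 1)

/-- The Nörlund logarithmic means. -/
noncomputable def L (f : ℕ → G → ℂ) (n : ℕ) (x : G) : ℂ :=
  ((1 / l n : ℝ) : ℂ) * ∑ k ∈ range n, S f k x / ((n : ℂ) - k)

/-- The martingale `f - S_{2^n} f = (f^{(k)} - f^{(min(k,n))})_k`. -/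
def tail (f : ℕ → G → ℂ) (n : ℕ) : ℕ → G → ℂ := fun k x => f k x - f (min k n) x

/-- The function `lim_n f^{(n)}`. -/
noncomputable def lim (f : ℕ → G → ℂ) (x : G) : ℂ := limUnder atTop fun n => f n x

/-- `‖f‖_{H_p} = ‖sup_n |f^{(n)}|‖_p`. -/
noncomputable def Hnorm (p : ℝ) (f : ℕ → G → ℂ) : ℝ≥0∞ :=
  (∫⁻ x, (⨆ n, ‖f n x‖ₑ) ^ p ∂μ) ^ (1 / p)

/-- `‖g‖_p`. -/
noncomputable def Lnorm (p : ℝ) (g : G → ℂ) : ℝ≥0∞ := (∫⁻ x, ‖g x‖ₑ ^ p ∂μ) ^ (1 / p)

/-- `‖g‖_{weak-L_p}`. -/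
noncomputable def Wnorm (p : ℝ) (g : G → ℂ) : ℝ≥0∞ :=
  (⨆ (t : ℝ) (_ : 0 < t), ENNReal.ofReal (t ^ p) * μ {x | t < ‖g x‖}) ^ (1 / p)

/-! ### Real and imaginary parts -/

/-- real part -/
def re (f : ℕ → G → ℂ) : ℕ → G → ℝ := fun n x => (f n x).re

/-- imaginary part -/
def im (f : ℕ → G → ℂ) : ℕ → G → ℝ := fun n x => (f n x).im

lemma mart_re {f : ℕ → G → ℂ} (hf : Martingale f ℱ μ) : Martingale (re f) ℱ μ := by
  refine martingale_of_setIntegral_eq_succ (fun n => ?_) (fun n => (hf.integrable n).re) ?_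
  · exact Complex.continuous_re.comp_stronglyMeasurable (hf.stronglyAdapted n)
  · intro n s hs
    have h1 : ∀ k, ∫ x in s, re f k x ∂μ = (∫ x in s, f k x ∂μ).re := fun k =>
      Complex.reCLM.integral_comp_comm (hf.integrable k).integrableOn
    rw [h1, h1, hf.setIntegral_eq (Nat.le_succ n) hs]

lemma mart_im {f : ℕ → G → ℂ} (hf : Martingale f ℱ μ) : Martingale (im f) ℱ μ := by
  refine martingale_of_setIntegral_eq_succ (fun n => ?_) (fun n => (hf.integrable n).im) ?_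
  · exact Complex.continuous_im.comp_stronglyMeasurable (hf.stronglyAdapted n)
  · intro n s hs
    have h1 : ∀ k, ∫ x in s, im f k x ∂μ = (∫ x in s, f k x ∂μ).im := fun k =>
      Complex.imCLM.integral_comp_comm (hf.integrable k).integrableOn
    rw [h1, h1, hf.setIntegral_eq (Nat.le_succ n) hs]

lemma coef_eq {f : ℕ → G → ℂ} (hf : Martingale f ℱ μ) (i : ℕ) :
    coef f i = (WF.coef (re f) i : ℂ) + (WF.coef (im f) i : ℂ) * Complex.I := by
  unfold coef
  refine Tendsto.limUnder_eq ?_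
  refine tendsto_const_nhds.congr' ?_
  filter_upwards [eventually_ge_atTop i] with k hk
  have hi : i < 2 ^ k := lt_of_lt_of_le Nat.lt_two_pow_self (Nat.pow_le_pow_right (by norm_num) hk)
  have h1 : ∀ x, f k x * (w i x : ℂ)
      = ((re f k x * w i x : ℝ) : ℂ) + ((im f k x * w i x : ℝ) : ℂ) * Complex.I := by
    intro x
    apply Complex.ext <;> simp [re, im]
  have i1 : Integrable (fun x => re f k x * w i x) μ :=
    LM.integrable_dep (LM.dep_mul (LM.mart_dep (mart_re hf) k) (LM.dep_w hi))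
  have i2 : Integrable (fun x => im f k x * w i x) μ :=
    LM.integrable_dep (LM.dep_mul (LM.mart_dep (mart_im hf) k) (LM.dep_w hi))
  simp_rw [h1]
  rw [integral_add i1.ofReal (i2.ofReal.mul_const _), integral_mul_const, integral_complex_ofReal,
    integral_complex_ofReal, ← LM.coef_eq (mart_re hf) hi, ← LM.coef_eq (mart_im hf) hi]

lemma S_eq {f : ℕ → G → ℂ} (hf : Martingale f ℱ μ) (k : ℕ) (x : G) :
    S f k x = (WF.S (re f) k x : ℂ) + (WF.S (im f) k x : ℂ) * Complex.I := by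
  unfold S WF.S
  push_cast
  rw [Finset.sum_mul, ← Finset.sum_add_distrib]
  refine Finset.sum_congr rfl fun i _ => ?_
  rw [coef_eq hf]
  ring

lemma L_eq {f : ℕ → G → ℂ} (hf : Martingale f ℱ μ) (k : ℕ) (x : G) :
    L f k x = (LM.Lm (re f) k x : ℂ) + (LM.Lm (im f) k x : ℂ) * Complex.I := by
  unfold L LM.Lm
  have hl : l k = LM.H k := rfl
  rw [hl]
  push_cast
  rw [mul_assoc, ← mul_add, Finset.sum_mul, ← Finset.sum_add_distrib]
  congr 1
  refine Finset.sum_congr rfl fun i _ => ?_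
  rw [S_eq hf]
  ring

lemma Hnorm_rpow {p : ℝ} (hp : 0 < p) (f : ℕ → G → ℂ) :
    Hnorm p f ^ p = ∫⁻ x, (⨆ n, ‖f n x‖ₑ) ^ p ∂μ := by
  unfold Hnorm
  rw [← ENNReal.rpow_mul, one_div, inv_mul_cancel₀ hp.ne', ENNReal.rpow_one]

lemma enorm_re_le (z : ℂ) : ‖z.re‖ₑ ≤ ‖z‖ₑ := by
  rw [Real.enorm_eq_ofReal_abs, ← ofReal_norm]
  exact ENNReal.ofReal_le_ofReal (Complex.abs_re_le_norm z)

lemma enorm_im_le (z : ℂ) : ‖z.im‖ₑ ≤ ‖z‖ₑ := by
  rw [Real.enorm_eq_ofReal_abs, ← ofReal_norm]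
  exact ENNReal.ofReal_le_ofReal (Complex.abs_im_le_norm z)

lemma Hnorm_re_le {p : ℝ} (hp : 0 < p) (f : ℕ → G → ℂ) : WF.Hnorm p (re f) ≤ Hnorm p f := by
  unfold WF.Hnorm Hnorm
  refine ENNReal.rpow_le_rpow (lintegral_mono fun x => ENNReal.rpow_le_rpow ?_ hp.le) (by positivity)
  exact iSup_mono fun n => enorm_re_le _

lemma Hnorm_im_le {p : ℝ} (hp : 0 < p) (f : ℕ → G → ℂ) : WF.Hnorm p (im f) ≤ Hnorm p f := by
  unfold WF.Hnorm Hnorm
  refine ENNReal.rpow_le_rpow (lintegral_mono fun x => ENNReal.rpow_le_rpow ?_ hp.le) (by positivity)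
  exact iSup_mono fun n => enorm_im_le _

lemma tail_re (f : ℕ → G → ℂ) (n : ℕ) : re (tail f n) = LM.tail (re f) n := by
  funext k x; simp [re, tail, LM.tail]

lemma tail_im (f : ℕ → G → ℂ) (n : ℕ) : im (tail f n) = LM.tail (im f) n := by
  funext k x; simp [im, tail, LM.tail]

/-- the data: convergence of the real and imaginary parts -/
lemma tail_tendsto {p : ℝ} (hp : 0 < p) {f : ℕ → G → ℂ}
    (ht : Tendsto (fun n => Hnorm p (tail f n)) atTop (𝓝 0)) :
    Tendsto (fun n => WF.Hnorm p (LM.tail (re f) n)) atTop (𝓝 0) ∧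
    Tendsto (fun n => WF.Hnorm p (LM.tail (im f) n)) atTop (𝓝 0) := by
  constructor
  · refine tendsto_of_tendsto_of_tendsto_of_le_of_le tendsto_const_nhds ht (fun n => zero_le) ?_
    intro n
    beta_reduce
    rw [← tail_re]
    exact Hnorm_re_le hp _
  · refine tendsto_of_tendsto_of_tendsto_of_le_of_le tendsto_const_nhds ht (fun n => zero_le) ?_
    intro n
    beta_reduce
    rw [← tail_im]
    exact Hnorm_im_le hp _

lemma ae_lim {f : ℕ → G → ℂ}
    (h1 : ∀ᵐ x ∂μ, Tendsto (fun n => re f n x) atTop (𝓝 (LM.limf (re f) x)))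
    (h2 : ∀ᵐ x ∂μ, Tendsto (fun n => im f n x) atTop (𝓝 (LM.limf (im f) x))) :
    ∀ᵐ x ∂μ, Tendsto (fun n => f n x) atTop (𝓝 (lim f x)) ∧
      lim f x = (LM.limf (re f) x : ℂ) + (LM.limf (im f) x : ℂ) * Complex.I := by
  filter_upwards [h1, h2] with x hx1 hx2
  have h3 : Tendsto (fun n => f n x) atTop
      (𝓝 ((LM.limf (re f) x : ℂ) + (LM.limf (im f) x : ℂ) * Complex.I)) := by
    have h4 := ((Complex.continuous_ofReal.tendsto _).comp hx1).add
      (((Complex.continuous_ofReal.tendsto _).comp hx2).mul_const Complex.I)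
    refine h4.congr fun n => ?_
    simp only [Function.comp_apply, re, im]
    exact Complex.re_add_im _
  have h5 : lim f x = (LM.limf (re f) x : ℂ) + (LM.limf (im f) x : ℂ) * Complex.I := by
    unfold lim; exact h3.limUnder_eq
  refine ⟨?_, h5⟩
  rw [h5]; exact h3

lemma norm_le (a b c d : ℝ) : ‖((a : ℂ) + (b : ℂ) * Complex.I) - ((c : ℂ) + (d : ℂ) * Complex.I)‖
    ≤ |a - c| + |b - d| := by
  have h1 : ((a : ℂ) + (b : ℂ) * Complex.I) - ((c : ℂ) + (d : ℂ) * Complex.I)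
      = ((a - c : ℝ) : ℂ) + ((b - d : ℝ) : ℂ) * Complex.I := by push_cast; ring
  rw [h1]
  refine (norm_add_le _ _).trans ?_
  rw [norm_mul, Complex.norm_I, mul_one, Complex.norm_real, Complex.norm_real, Real.norm_eq_abs,
    Real.norm_eq_abs]

lemma Wnorm_rpow {p : ℝ} (hp : 0 < p) (g : G → ℂ) :
    Wnorm p g ^ p = ⨆ (t : ℝ) (_ : 0 < t), ENNReal.ofReal (t ^ p) * μ {x | t < ‖g x‖} := by
  unfold Wnorm
  rw [← ENNReal.rpow_mul, one_div, inv_mul_cancel₀ hp.ne', ENNReal.rpow_one]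

lemma WnormR_rpow {p : ℝ} (hp : 0 < p) (g : G → ℝ) :
    LM.Wnorm p g ^ p = ⨆ (t : ℝ) (_ : 0 < t), ENNReal.ofReal (t ^ p) * μ {x | t < |g x|} := by
  unfold LM.Wnorm
  rw [← ENNReal.rpow_mul, one_div, inv_mul_cancel₀ hp.ne', ENNReal.rpow_one]

lemma Wnorm_add_le {p : ℝ} (hp : 0 < p) {g : G → ℂ} {a b : G → ℝ}
    (h : ∀ᵐ x ∂μ, ‖g x‖ ≤ |a x| + |b x|) :
    Wnorm p g ^ p ≤ ENNReal.ofReal (2 ^ p) * (LM.Wnorm p a ^ p + LM.Wnorm p b ^ p) := by
  rw [Wnorm_rpow hp, WnormR_rpow hp, WnormR_rpow hp]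
  refine iSup_le fun t => iSup_le fun ht => ?_
  have ht2 : 0 < t / 2 := by positivity
  have h1 : μ {x | t < ‖g x‖} ≤ μ {x | t / 2 < |a x|} + μ {x | t / 2 < |b x|} := by
    refine le_trans ?_ (measure_union_le _ _)
    refine measure_mono_ae ?_
    filter_upwards [h] with x hx hx2
    have hx3 : t < ‖g x‖ := hx2
    by_contra hcon
    have h3 : ¬ (t / 2 < |a x|) ∧ ¬ (t / 2 < |b x|) := by
      constructor
      · intro h4; exact hcon (Or.inl h4)
      · intro h4; exact hcon (Or.inr h4)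
    linarith [h3.1, h3.2]
  have h2 : ENNReal.ofReal (t ^ p) = ENNReal.ofReal (2 ^ p) * ENNReal.ofReal ((t / 2) ^ p) := by
    rw [← ENNReal.ofReal_mul (by positivity), ← Real.mul_rpow (by norm_num) ht2.le]
    congr 2; ring
  calc ENNReal.ofReal (t ^ p) * μ {x | t < ‖g x‖}
      ≤ ENNReal.ofReal (t ^ p) * (μ {x | t / 2 < |a x|} + μ {x | t / 2 < |b x|}) := by gcongr
    _ = ENNReal.ofReal (2 ^ p) * (ENNReal.ofReal ((t / 2) ^ p) * μ {x | t / 2 < |a x|}
        + ENNReal.ofReal ((t / 2) ^ p) * μ {x | t / 2 < |b x|}) := by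
        rw [h2, mul_assoc, mul_add]
    _ ≤ _ := by
        gcongr
        · exact le_iSup₂ (f := fun (t : ℝ) (_ : 0 < t) => ENNReal.ofReal (t ^ p) *
            μ {x | t < |a x|}) (t / 2) ht2
        · exact le_iSup₂ (f := fun (t : ℝ) (_ : 0 < t) => ENNReal.ofReal (t ^ p) *
            μ {x | t < |b x|}) (t / 2) ht2

lemma tendsto_of_rpow {p : ℝ} (hp : 0 < p) {F : ℕ → ℝ≥0∞}
    (h : Tendsto (fun k => F k ^ p) atTop (𝓝 0)) : Tendsto F atTop (𝓝 0) := by
  have h1 := ((ENNReal.continuous_rpow_const (y := 1 / p)).tendsto 0).comp h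
  rw [ENNReal.zero_rpow_of_pos (by positivity)] at h1
  refine h1.congr fun n => ?_
  simp only [Function.comp_apply]
  rw [← ENNReal.rpow_mul, mul_one_div_cancel hp.ne', ENNReal.rpow_one]

lemma rpow_tendsto {p : ℝ} (hp : 0 < p) {F : ℕ → ℝ≥0∞} (h : Tendsto F atTop (𝓝 0)) :
    Tendsto (fun k => F k ^ p) atTop (𝓝 0) := by
  have h1 := ((ENNReal.continuous_rpow_const (y := p)).tendsto 0).comp h
  rw [ENNReal.zero_rpow_of_pos hp] at h1
  exact h1

/-! ### The facts -/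

lemma J2a : LM.J2a := Q176.LM.j2a LM.j1d LM.j1e
lemma J2b : LM.J2b := Q176.LM.j2b LM.j1d LM.j1e
lemma J2c : LM.J2c := Q176.LM.j2c LM.j1d
lemma J4a : LM.J4a := Q176.LM.j4a
lemma J4b : LM.J4b := Q176.LM.j4b
lemma J4d : LM.J4d := LM.j4d (LM.j3c J2b) J4a J4b

lemma M1 : LM.M1 := LM.m1 LM.j1f J2c (LM.j3b J2a) J4a LM.j4c LM.j5a LM.j5b
lemma M2 : LM.M2 := LM.m2 LM.j4c J4d LM.j5a LM.j5b LM.j5c

/-- `‖f - S_{2^n} f‖_{H_1} → 0` for `f ∈ H_1`. -/
lemma tail_one {f : ℕ → G → ℂ} (hf : Martingale f ℱ μ) (h : Hnorm 1 f < ⊤) :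
    Tendsto (fun n => WF.Hnorm 1 (LM.tail (re f) n)) atTop (𝓝 0) ∧
    Tendsto (fun n => WF.Hnorm 1 (LM.tail (im f) n)) atTop (𝓝 0) :=
  ⟨LM.j5c _ (mart_re hf) (lt_of_le_of_lt (Hnorm_re_le one_pos f) h),
    LM.j5c _ (mart_im hf) (lt_of_le_of_lt (Hnorm_im_le one_pos f) h)⟩

theorem case_one {f : ℕ → G → ℂ} (hf : Martingale f ℱ μ) (h : Hnorm 1 f < ⊤) :
    (∀ᵐ x ∂μ, Tendsto (fun n => f n x) atTop (𝓝 (lim f x))) ∧
    Tendsto (fun k => Wnorm 1 (fun x => L f k x - lim f x)) atTop (𝓝 0) := by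
  obtain ⟨t1, t2⟩ := tail_one hf h
  have a1 := (LM.j5b 1 (re f) one_pos (mart_re hf) t1).1
  have a2 := (LM.j5b 1 (im f) one_pos (mart_im hf) t2).1
  have ae := ae_lim a1 a2
  refine ⟨ae.mono fun x hx => hx.1, ?_⟩
  have w1 := M2 _ (mart_re hf) (lt_of_le_of_lt (Hnorm_re_le one_pos f) h)
  have w2 := M2 _ (mart_im hf) (lt_of_le_of_lt (Hnorm_im_le one_pos f) h)
  apply tendsto_of_rpow one_pos
  have hsum := (rpow_tendsto one_pos w1).add (rpow_tendsto one_pos w2)
  have hmul := ENNReal.Tendsto.const_mul (a := ENNReal.ofReal ((2 : ℝ) ^ (1 : ℝ))) hsum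
    (Or.inr ENNReal.ofReal_ne_top)
  rw [add_zero, mul_zero] at hmul
  refine tendsto_of_tendsto_of_tendsto_of_le_of_le tendsto_const_nhds hmul (fun n => zero_le) ?_
  intro k
  refine Wnorm_add_le one_pos ?_
  filter_upwards [ae] with x hx
  rw [L_eq hf, hx.2]
  exact norm_le _ _ _ _

lemma measurable_Lm (f : ℕ → G → ℝ) (k : ℕ) : Measurable (LM.Lm f k) := LM.measurable_LL _ k

lemma Wnorm_le_Lnorm {p : ℝ} (hp : 0 < p) {g : G → ℂ} (hg : AEMeasurable g μ) :
    Wnorm p g ≤ Lnorm p g := by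
  unfold Wnorm Lnorm
  refine ENNReal.rpow_le_rpow (iSup_le fun t => iSup_le fun ht => ?_) (by positivity)
  refine le_trans ?_ (mul_meas_ge_le_lintegral₀ (hg.enorm.pow_const p) (ENNReal.ofReal (t ^ p)))
  refine mul_le_mul_right (measure_mono fun x hx => ?_) _
  have hx' : t < ‖g x‖ := hx
  show ENNReal.ofReal (t ^ p) ≤ ‖g x‖ₑ ^ p
  rw [← ENNReal.ofReal_rpow_of_nonneg ht.le hp.le, ← ofReal_norm]
  exact ENNReal.rpow_le_rpow (ENNReal.ofReal_le_ofReal hx'.le) hp.le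

theorem case_lt {p : ℝ} (hp0 : 0 < p) (hp1 : p < 1) {f : ℕ → G → ℂ} (hf : Martingale f ℱ μ)
    (h : Hnorm p f < ⊤)
    (ht : Tendsto (fun n : ℕ => Hnorm p (tail f n) * ENNReal.ofReal (2 ^ (n * (1 / p - 1)) / n))
      atTop (𝓝 0)) :
    (∀ᵐ x ∂μ, Tendsto (fun n => f n x) atTop (𝓝 (lim f x))) ∧
    Tendsto (fun k => Lnorm p (fun x => L f k x - lim f x)) atTop (𝓝 0) ∧
    Tendsto (fun k => Wnorm p (fun x => L f k x - lim f x)) atTop (𝓝 0) := by
  have h1 : Tendsto (fun n : ℕ => WF.Hnorm p (LM.tail (re f) n) *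
      ENNReal.ofReal (2 ^ (n * (1 / p - 1)) / n)) atTop (𝓝 0) := by
    refine tendsto_of_tendsto_of_tendsto_of_le_of_le tendsto_const_nhds ht (fun n => zero_le) ?_
    intro n
    beta_reduce
    rw [← tail_re]
    exact mul_le_mul_left (Hnorm_re_le hp0 _) _
  have h2 : Tendsto (fun n : ℕ => WF.Hnorm p (LM.tail (im f) n) *
      ENNReal.ofReal (2 ^ (n * (1 / p - 1)) / n)) atTop (𝓝 0) := by
    refine tendsto_of_tendsto_of_tendsto_of_le_of_le tendsto_const_nhds ht (fun n => zero_le) ?_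
    intro n
    beta_reduce
    rw [← tail_im]
    exact mul_le_mul_left (Hnorm_im_le hp0 _) _
  have m1 := M1 p (re f) hp0 hp1 (mart_re hf) (lt_of_le_of_lt (Hnorm_re_le hp0 f) h) h1
  have m2 := M1 p (im f) hp0 hp1 (mart_im hf) (lt_of_le_of_lt (Hnorm_im_le hp0 f) h) h2
  -- the tails tend to zero
  have hto : ∀ g : ℕ → G → ℝ, Tendsto (fun n : ℕ => WF.Hnorm p (LM.tail g n) *
      ENNReal.ofReal (2 ^ (n * (1 / p - 1)) / n)) atTop (𝓝 0) →
      Tendsto (fun n => WF.Hnorm p (LM.tail g n)) atTop (𝓝 0) := by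
    intro g hg
    obtain ⟨cw, hcw, hwt⟩ := LM.one_le_wt hp0 hp1
    apply tendsto_of_rpow hp0
    have hb := rpow_tendsto hp0 hg
    have hb' := ENNReal.Tendsto.const_mul (a := ENNReal.ofReal (1 / cw)) hb
      (Or.inr ENNReal.ofReal_ne_top)
    rw [mul_zero] at hb'
    refine tendsto_of_tendsto_of_tendsto_of_le_of_le' tendsto_const_nhds hb'
      (Eventually.of_forall fun n => zero_le) ?_
    filter_upwards [eventually_ge_atTop 1] with n hn
    rw [LM.weighted hp0]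
    have h3 : WF.Hnorm p (LM.tail g n) ^ p * ENNReal.ofReal cw
        ≤ WF.Hnorm p (LM.tail g n) ^ p * ENNReal.ofReal (LM.wt p n) := by
      gcongr
      exact hwt n hn
    calc WF.Hnorm p (LM.tail g n) ^ p
        = ENNReal.ofReal (1 / cw) * (WF.Hnorm p (LM.tail g n) ^ p * ENNReal.ofReal cw) := by
          rw [mul_comm (WF.Hnorm p (LM.tail g n) ^ p), ← mul_assoc,
            ← ENNReal.ofReal_mul (by positivity), one_div_mul_cancel hcw.ne', ENNReal.ofReal_one,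
            one_mul]
      _ ≤ _ := by gcongr
  have b1 := LM.j5b p (re f) hp0 (mart_re hf) (hto _ h1)
  have b2 := LM.j5b p (im f) hp0 (mart_im hf) (hto _ h2)
  have ae := ae_lim b1.1 b2.1
  have hLae : AEMeasurable (lim f) μ := by
    refine aemeasurable_of_tendsto_metrizable_ae atTop (fun n => ?_) (ae.mono fun x hx => hx.1)
    exact (hf.integrable n).aestronglyMeasurable.aemeasurable
  have hmL : ∀ k, Measurable (L f k) := by
    intro k
    have : L f k = fun x => (LM.Lm (re f) k x : ℂ) + (LM.Lm (im f) k x : ℂ) * Complex.I :=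
      funext fun x => L_eq hf k x
    rw [this]
    have m1 := measurable_Lm (re f) k
    have m2 := measurable_Lm (im f) k
    exact (Complex.measurable_ofReal.comp m1).add ((Complex.measurable_ofReal.comp m2).mul_const _)
  have hlr : AEMeasurable (LM.limf (re f)) μ :=
    aemeasurable_of_tendsto_metrizable_ae atTop
      (fun n => (LM.mart_meas (mart_re hf) n).aemeasurable) b1.1
  have hL : Tendsto (fun k => Lnorm p (fun x => L f k x - lim f x)) atTop (𝓝 0) := by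
    apply tendsto_of_rpow hp0
    have hsum := (rpow_tendsto hp0 m1).add (rpow_tendsto hp0 m2)
    rw [add_zero] at hsum
    refine tendsto_of_tendsto_of_tendsto_of_le_of_le tendsto_const_nhds hsum (fun n => zero_le) ?_
    intro k
    beta_reduce
    unfold Lnorm WF.Lnorm
    rw [← ENNReal.rpow_mul, ← ENNReal.rpow_mul, ← ENNReal.rpow_mul, one_div,
      inv_mul_cancel₀ hp0.ne', ENNReal.rpow_one, ENNReal.rpow_one, ENNReal.rpow_one]
    rw [← lintegral_add_left']
    · refine lintegral_mono_ae ?_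
      filter_upwards [ae] with x hx
      refine le_trans (ENNReal.rpow_le_rpow ?_ hp0.le)
        (ENNReal.rpow_add_le_add_rpow _ _ hp0.le hp1.le)
      rw [L_eq hf, hx.2, ← ofReal_norm, Real.enorm_eq_ofReal_abs, Real.enorm_eq_ofReal_abs,
        ← ENNReal.ofReal_add (abs_nonneg _) (abs_nonneg _)]
      exact ENNReal.ofReal_le_ofReal (norm_le _ _ _ _)
    · exact (((measurable_Lm (re f) k).aemeasurable.sub hlr).enorm).pow_const p
  refine ⟨ae.mono fun x hx => hx.1, hL, ?_⟩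
  refine tendsto_of_tendsto_of_tendsto_of_le_of_le tendsto_const_nhds hL (fun n => zero_le) ?_
  intro k
  exact Wnorm_le_Lnorm hp0 ((hmL k).aemeasurable.sub hLae)

/-! ### The example -/

lemma Wnorm_congr {p : ℝ} {g : G → ℂ} {a : G → ℝ} (h : ∀ᵐ x ∂μ, ‖g x‖ = |a x|) :
    Wnorm p g = LM.Wnorm p a := by
  unfold Wnorm LM.Wnorm
  congr 1
  refine iSup_congr fun t => iSup_congr fun _ => ?_
  congr 1
  refine measure_congr ?_
  filter_upwards [h] with x hx
  apply propext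
  show t < ‖g x‖ ↔ t < |a x|
  rw [hx]

theorem example_lt {p : ℝ} (hp0 : 0 < p) (hp1 : p < 1) : ∃ f : ℕ → G → ℂ, Martingale f ℱ μ ∧
    Hnorm p f < ⊤ ∧
    (∃ c : ℝ, ∀ n : ℕ, 1 ≤ n → Hnorm p (tail f n) ≤ ENNReal.ofReal (c * n / 2 ^ (n * (1 / p - 1)))) ∧
    (∀ᵐ x ∂μ, Tendsto (fun n => f n x) atTop (𝓝 (lim f x))) ∧
    ¬ Tendsto (fun k => Wnorm p (fun x => L f k x - lim f x)) atTop (𝓝 0) := by
  obtain ⟨g, hg, hfin, ⟨c, hc⟩, hno⟩ := LM.j6 p hp0 hp1
  set f : ℕ → G → ℂ := fun n x => (g n x : ℂ) with hf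
  have hre : re f = g := by funext n x; simp [re, hf]
  have him : im f = fun _ _ => 0 := by funext n x; simp [im, hf]
  have hmf : Martingale f ℱ μ := by
    refine martingale_of_setIntegral_eq_succ (fun n => ?_) (fun n => (hg.integrable n).ofReal) ?_
    · exact Complex.continuous_ofReal.comp_stronglyMeasurable (hg.stronglyAdapted n)
    · intro n s hs
      have h1 : ∀ k, ∫ x in s, f k x ∂μ = ((∫ x in s, g k x ∂μ : ℝ) : ℂ) := fun k => by
        simp only [hf]; exact integral_complex_ofReal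
      rw [h1, h1, hg.setIntegral_eq (Nat.le_succ n) hs]
  have hnorm : ∀ (u : ℕ → G → ℝ) (v : ℕ → G → ℂ), (∀ n x, v n x = (u n x : ℂ)) →
      Hnorm p v = WF.Hnorm p u := by
    intro u v huv
    unfold Hnorm WF.Hnorm
    congr 1
    refine lintegral_congr fun x => ?_
    congr 1
    refine iSup_congr fun n => ?_
    rw [huv, ← ofReal_norm, Real.enorm_eq_ofReal_abs, Complex.norm_real, Real.norm_eq_abs]
  have htail : ∀ n, Hnorm p (tail f n) = WF.Hnorm p (LM.tail g n) := fun n =>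
    hnorm _ _ fun k x => by simp [tail, LM.tail, hf]
  -- the tails of g
  have ht0 : Tendsto (fun n => WF.Hnorm p (LM.tail g n)) atTop (𝓝 0) := by
    have h1 : Tendsto (fun n : ℕ => ENNReal.ofReal (c * n / 2 ^ (n * (1 / p - 1)))) atTop (𝓝 0) := by
      have hr : |(2 : ℝ) ^ (-(1 / p - 1))| < 1 := by
        rw [abs_of_pos (by positivity)]
        apply Real.rpow_lt_one_of_one_lt_of_neg (by norm_num)
        have : 1 < 1 / p := by rw [lt_div_iff₀ hp0]; linarith
        linarith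
      have h2 := (tendsto_pow_const_mul_const_pow_of_abs_lt_one 1 hr).const_mul c
      rw [mul_zero] at h2
      have h3 : Tendsto (fun n : ℕ => c * n / (2 : ℝ) ^ ((n : ℝ) * (1 / p - 1))) atTop (𝓝 0) := by
        refine h2.congr fun n => ?_
        rw [pow_one, ← Real.rpow_natCast, ← Real.rpow_mul (by norm_num), mul_div_assoc,
          div_eq_mul_inv (n : ℝ), ← Real.rpow_neg (by norm_num)]
        congr 3
        ring
      have := (ENNReal.continuous_ofReal.tendsto 0).comp h3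
      rwa [ENNReal.ofReal_zero] at this
    refine tendsto_of_tendsto_of_tendsto_of_le_of_le' tendsto_const_nhds h1
      (Eventually.of_forall fun n => zero_le) ?_
    filter_upwards [eventually_ge_atTop 1] with n hn using hc n hn
  have a1 := (LM.j5b p g hp0 hg ht0).1
  have a2 : ∀ᵐ x ∂μ, Tendsto (fun n => im f n x) atTop (𝓝 (LM.limf (im f) x)) := by
    refine Eventually.of_forall fun x => ?_
    rw [him]
    have : LM.limf (fun _ _ => 0) x = 0 := by
      unfold LM.limf; exact tendsto_const_nhds.limUnder_eq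
    rw [this]
    exact tendsto_const_nhds
  have hae := ae_lim (f := f) (by rw [hre]; exact a1) a2
  refine ⟨f, hmf, ?_, ⟨c, fun n hn => ?_⟩, hae.mono fun x hx => hx.1, ?_⟩
  · rw [hnorm g f fun n x => rfl]; exact hfin
  · rw [htail]; exact hc n hn
  · have hW : ∀ k, Wnorm p (fun x => L f k x - lim f x)
        = LM.Wnorm p (fun x => LM.Lm g k x - LM.limf g x) := by
      intro k
      refine Wnorm_congr ?_
      filter_upwards [hae] with x hx
      have hz1 : LM.Lm (im f) k x = 0 := by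
        rw [him]
        unfold LM.Lm WF.S WF.coef
        have : (limUnder atTop fun k : ℕ => ∫ x : G, (0 : ℝ) * w 0 x ∂μ) = 0 := by
          simp [tendsto_const_nhds.limUnder_eq]
        simp [tendsto_const_nhds.limUnder_eq]
      have hz2 : LM.limf (im f) x = 0 := by
        rw [him]
        unfold LM.limf; exact tendsto_const_nhds.limUnder_eq
      rw [L_eq hmf, hx.2, hz1, hz2, hre]
      have : ((LM.Lm g k x : ℂ) + ((0 : ℝ) : ℂ) * Complex.I) - ((LM.limf g x : ℂ)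
          + ((0 : ℝ) : ℂ) * Complex.I) = ((LM.Lm g k x - LM.limf g x : ℝ) : ℂ) := by
        push_cast; ring
      rw [this, Complex.norm_real, Real.norm_eq_abs]
    simp_rw [hW]
    exact hno

/-! ### The printed modulus condition -/

/-- the printed bound `log n / (2^{n(1/p-1)} log^{2[p]} n)` implies the sufficient condition -/
lemma printed {p : ℝ} (hp0 : 0 < p) (hp1 : p < 1) {f : ℕ → G → ℂ} {C : ℝ}
    (h : ∀ n : ℕ, 2 ≤ n → Hnorm p (tail f n) ≤ ENNReal.ofReal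
      (C * (Real.log n / (2 ^ (n * (1 / p - 1)) * Real.log n ^ (2 * ⌊p⌋₊))))) :
    Tendsto (fun n : ℕ => Hnorm p (tail f n) * ENNReal.ofReal (2 ^ (n * (1 / p - 1)) / n))
      atTop (𝓝 0) := by
  have hfl : ⌊p⌋₊ = 0 := Nat.floor_eq_zero.2 hp1
  have h1 : Tendsto (fun n : ℕ => ENNReal.ofReal (|C| * (Real.log n / n))) atTop (𝓝 0) := by
    have h2 : Tendsto (fun n : ℕ => Real.log n / (n : ℝ)) atTop (𝓝 0) := by
      have h3 := (Real.isLittleO_log_id_atTop.tendsto_div_nhds_zero).comp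
        (tendsto_natCast_atTop_atTop (R := ℝ))
      exact h3
    have h4 := h2.const_mul |C|
    rw [mul_zero] at h4
    have := (ENNReal.continuous_ofReal.tendsto 0).comp h4
    rwa [ENNReal.ofReal_zero] at this
  refine tendsto_of_tendsto_of_tendsto_of_le_of_le' tendsto_const_nhds h1
    (Eventually.of_forall fun n => zero_le) ?_
  filter_upwards [eventually_ge_atTop 2] with n hn
  have hn0 : (0 : ℝ) < n := by
    have : 0 < n := by omega
    exact_mod_cast this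
  have hlog : 0 ≤ Real.log n := Real.log_natCast_nonneg n
  have hpow : (0 : ℝ) < 2 ^ ((n : ℝ) * (1 / p - 1)) := by positivity
  calc Hnorm p (tail f n) * ENNReal.ofReal (2 ^ ((n : ℝ) * (1 / p - 1)) / n)
      ≤ ENNReal.ofReal (C * (Real.log n / (2 ^ ((n : ℝ) * (1 / p - 1)) * Real.log n ^ (2 * ⌊p⌋₊)))) *
        ENNReal.ofReal (2 ^ ((n : ℝ) * (1 / p - 1)) / n) := by
        gcongr
        exact h n hn
    _ ≤ ENNReal.ofReal (|C| * (Real.log n / 2 ^ ((n : ℝ) * (1 / p - 1)))) *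
        ENNReal.ofReal (2 ^ ((n : ℝ) * (1 / p - 1)) / n) := by
        gcongr ?_ * _
        apply ENNReal.ofReal_le_ofReal
        rw [hfl, mul_zero, pow_zero, mul_one]
        gcongr
        exact le_abs_self C
    _ = _ := by
        rw [← ENNReal.ofReal_mul (by positivity)]
        congr 1
        field_simp

end Q94.LMC
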