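import Pool.Agent.Q94.LM.Asm

/-!
# MP_332aa0_an: kernels, first part
-/

open scoped BigOperators Topology ENNReal
open MeasureTheory Finset Filter Q94.WF

namespace Q94.LM

lemma E_flip (p : ℝ) (l : ℕ) {g : G → ℝ} (hg : Measurable g) :
    E p (fun x => g (WF.flip l x)) = E p g := by
  unfold E
  exact (mp_flip l).lintegral_comp (f := fun x => ‖g x‖ₑ ^ p) (by fun_prop)

lemma dep_flip {l : ℕ} {g : G → ℝ} (h : Dep l g) (x : G) : g (WF.flip l x) = g x := by
  apply h
  intro k hk
  unfold WF.flip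
  rw [if_neg (by omega)]

/-- truncation to the first `n` digits -/
def trunc (n : ℕ) (x : G) : G := fun i => if i < n then x i else false

lemma dep_measurable {l : ℕ} {g : G → ℝ} (h : Dep l g) : Measurable g := by
  have h1 : g = (fun y : Fin l → Bool => g (fun i => if hi : i < l then y ⟨i, hi⟩ else false)) ∘
      (fun (x : G) (k : Fin l) => x k) := by
    funext x
    simp only [Function.comp_apply]
    apply h
    intro k hk
    rw [dif_pos hk]
  rw [h1]
  refine (measurable_of_finite _).comp ?_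
  rw [measurable_pi_iff]
  intro k
  exact measurable_pi_apply (k : ℕ)

theorem j1a : J1a := by
  intro p l g hp hg
  have hgm := dep_measurable hg
  have hm : Measurable (fun x => (1 + r l x) * g x) := (measurable_const.add (measurable_r l)).mul hgm
  have h1 := E_flip p l hm
  have h2 : E p (fun x => (1 + r l x) * g x) + E p (fun x => (1 + r l (WF.flip l x)) * g (WF.flip l x))
      = ENNReal.ofReal (2 ^ p) * E p g := by
    unfold E
    rw [← lintegral_add_left (by fun_prop), ← lintegral_const_mul' _ _ ENNReal.ofReal_ne_top]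
    refine lintegral_congr fun x => ?_
    beta_reduce
    rw [dep_flip hg, r_flip, if_pos rfl]
    have h3 : ENNReal.ofReal (2 ^ p) = ‖(2 : ℝ)‖ₑ ^ p := by
      rw [Real.enorm_eq_ofReal_abs, abs_of_pos (by norm_num : (0 : ℝ) < 2),
        ENNReal.ofReal_rpow_of_nonneg (by norm_num) hp.le]
    rw [h3, ← ENNReal.mul_rpow_of_nonneg _ _ hp.le, ← enorm_mul]
    unfold r
    split_ifs
    · simp [hp]; norm_num
    · simp [hp]; norm_num
  have h4 : E p (fun x => (1 + r l x) * g x) + E p (fun x => (1 + r l x) * g x)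
      = ENNReal.ofReal (2 ^ p) * E p g := by
    rw [← h2]; congr 1; exact h1.symm
  have h5 : ENNReal.ofReal (2 ^ p) = 2 * ENNReal.ofReal (2 ^ (p - 1)) := by
    have : (2 : ℝ≥0∞) = ENNReal.ofReal 2 := by norm_num
    rw [this, ← ENNReal.ofReal_mul (by norm_num)]
    congr 1
    rw [Real.rpow_sub_one (by norm_num)]; ring
  rw [h5, ← two_mul, mul_assoc] at h4
  exact (ENNReal.mul_right_inj (by norm_num) (by norm_num)).1 h4

lemma T_zero (x : G) : T 0 x = 0 := by simp [T, D_zero]

lemma D_one (x : G) : D 1 x = 1 := by rw [show (1 : ℕ) = 0 + 1 from rfl, D_succ, D_zero, w_zero]; ring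

lemma T_one (x : G) : T 1 x = 1 := by
  unfold T
  rw [Finset.sum_range_succ, Finset.sum_range_succ, D_one, D_zero]; simp

/-- `T_{2^l + i} = T_{2^l} + i D_{2^l} + r_l T_i`, `i ≤ 2^l` -/
lemma T_add {l i : ℕ} (hi : i ≤ 2 ^ l) (x : G) :
    T (2 ^ l + i) x = T (2 ^ l) x + i * D (2 ^ l) x + r l x * T i x := by
  induction i with
  | zero => simp [T_zero]
  | succ i ih =>
    have h1 : T (2 ^ l + (i + 1)) x = T (2 ^ l + i) x + D (2 ^ l + (i + 1)) x := by
      unfold T
      rw [← add_assoc, Finset.sum_range_succ]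
    have h2 : T (i + 1) x = T i x + D (i + 1) x := by
      unfold T
      rw [Finset.sum_range_succ]
    have h3 := D_add (t := l) 1 hi x
    rw [mul_one, w_two_pow] at h3
    rw [h1, ih (by omega), h2, h3]
    push_cast
    ring

lemma T_two_pow_succ (l : ℕ) (x : G) :
    T (2 ^ (l + 1)) x = (1 + r l x) * T (2 ^ l) x + 2 ^ l * D (2 ^ l) x := by
  have := T_add (l := l) (i := 2 ^ l) le_rfl x
  rw [pow_succ, mul_two, this]
  push_cast
  ring

lemma dep_T {n i : ℕ} (hi : i ≤ 2 ^ n) : Dep n (T i) := by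
  intro x y hxy
  unfold T
  refine Finset.sum_congr rfl fun t ht => ?_
  have := Finset.mem_range.1 ht
  exact dep_D (by omega) x y hxy

lemma c_pos {p : ℝ} (hp : 0 < p) : 0 < (2 : ℝ) ^ (2 * p - 1) - 2 ^ (p - 1) := by
  have := Real.rpow_lt_rpow_of_exponent_lt (by norm_num : (1 : ℝ) < 2) (by linarith : p - 1 < 2 * p - 1)
  linarith

theorem j1b : J1b := by
  intro p l hp hp1
  have hD : ∀ l : ℕ, E p (D (2 ^ l)) = ENNReal.ofReal (2 ^ ((l : ℝ) * (p - 1))) := by
    intro l
    induction l with
    | zero =>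
      have : D (2 ^ 0) = fun _ => (1 : ℝ) := funext fun x => by rw [pow_zero, D_one]
      rw [this, E_const hp.le]
      simp
    | succ l ih =>
      have : D (2 ^ (l + 1)) = fun x => (1 + r l x) * D (2 ^ l) x := funext fun x => D_two_pow_succ l x
      rw [this, j1a p l _ hp (dep_D le_rfl), ih, ← ENNReal.ofReal_mul (by positivity),
        ← Real.rpow_add (by norm_num)]
      congr 2
      push_cast; ring
  refine ⟨hD l, ?_⟩
  have hc := c_pos hp
  set c := 1 / ((2 : ℝ) ^ (2 * p - 1) - 2 ^ (p - 1)) with hcdef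
  have hc0 : 0 < c := by positivity
  have hc1 : 1 ≤ c := by
    rw [hcdef, le_div_iff₀ hc, one_mul]
    have h1 : (2 : ℝ) ^ (2 * p - 1) - 2 ^ (p - 1) = 2 ^ (p - 1) * (2 ^ p - 1) := by
      rw [mul_sub, ← Real.rpow_add (by norm_num)]; ring_nf
    rw [h1]
    have h2 : (2 : ℝ) ^ (p - 1) ≤ 1 := Real.rpow_le_one_of_one_le_of_nonpos (by norm_num) (by linarith)
    have h3 : (2 : ℝ) ^ p ≤ 2 := by
      calc (2 : ℝ) ^ p ≤ 2 ^ (1 : ℝ) := Real.rpow_le_rpow_of_exponent_le (by norm_num) hp1
        _ = 2 := Real.rpow_one _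
    have h4 : (1 : ℝ) ≤ 2 ^ p := Real.one_le_rpow (by norm_num) hp.le
    have h5 : (0 : ℝ) < 2 ^ (p - 1) := by positivity
    nlinarith
  have hcc : (2 : ℝ) ^ (p - 1) * c + 1 = c * 2 ^ (2 * p - 1) := by
    rw [hcdef, mul_one_div, one_div_mul_eq_div, div_add_one hc.ne']
    congr 1; ring
  induction l with
  | zero =>
    have : T (2 ^ 0) = fun _ => (1 : ℝ) := funext fun x => by rw [pow_zero, T_one]
    rw [this, E_const hp.le]
    apply ENNReal.ofReal_le_ofReal
    simpa using hc1
  | succ l ih =>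
    have : T (2 ^ (l + 1)) = fun x => (1 + r l x) * T (2 ^ l) x + 2 ^ l * D (2 ^ l) x :=
      funext fun x => T_two_pow_succ l x
    rw [this]
    refine (E_add_le hp.le hp1 (g := fun x => (1 + r l x) * T (2 ^ l) x)
      ((measurable_const.add (measurable_r l)).mul
      (dep_measurable (dep_T le_rfl)))).trans ?_
    rw [j1a p l _ hp (dep_T le_rfl), E_const_mul hp.le, hD l]
    calc ENNReal.ofReal (2 ^ (p - 1)) * E p (T (2 ^ l)) +
          ENNReal.ofReal (|2 ^ l| ^ p) * ENNReal.ofReal (2 ^ ((l : ℝ) * (p - 1)))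
        ≤ ENNReal.ofReal (2 ^ (p - 1)) * ENNReal.ofReal (c * 2 ^ ((l : ℝ) * (2 * p - 1))) +
          ENNReal.ofReal (|2 ^ l| ^ p) * ENNReal.ofReal (2 ^ ((l : ℝ) * (p - 1))) := by gcongr
      _ = ENNReal.ofReal ((2 ^ (p - 1) * c + 1) * 2 ^ ((l : ℝ) * (2 * p - 1))) := by
          rw [← ENNReal.ofReal_mul (by positivity), ← ENNReal.ofReal_mul (by positivity),
            ← ENNReal.ofReal_add (by positivity) (by positivity)]
          congr 1
          have h1 : |(2 : ℝ) ^ l| ^ p * 2 ^ ((l : ℝ) * (p - 1)) = 2 ^ ((l : ℝ) * (2 * p - 1)) := by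
            rw [abs_of_pos (by positivity), ← Real.rpow_natCast, ← Real.rpow_mul (by norm_num),
              ← Real.rpow_add (by norm_num)]
            congr 1; ring
          rw [h1]; ring
      _ = _ := by
          rw [hcc]
          congr 1
          rw [mul_assoc, ← Real.rpow_add (by norm_num)]
          congr 2
          push_cast; ring

theorem j1c : J1c := by
  intro j i x hi
  have main : ∀ (i j : ℕ), i < 2 ^ (j + 1) → |T i x| ≤ Ts j x := by
    intro i
    induction i using Nat.strong_induction_on with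
    | _ i ih =>
      intro j hij
      rcases Nat.eq_zero_or_pos i with h0 | hpos
      · subst h0
        rw [T_zero, abs_zero]
        unfold Ts
        exact Finset.sum_nonneg fun l _ => by positivity
      · obtain ⟨l, h1, h2⟩ : ∃ l, 2 ^ l ≤ i ∧ i < 2 ^ (l + 1) :=
          ⟨Nat.log 2 i, Nat.pow_log_le_self 2 hpos.ne', Nat.lt_pow_succ_log_self (by norm_num) i⟩
        have hlj : l ≤ j := by
          have : 2 ^ l < 2 ^ (j + 1) := lt_of_le_of_lt h1 hij
          have := (Nat.pow_lt_pow_iff_right (by norm_num)).1 this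
          omega
        obtain ⟨i', rfl⟩ := Nat.exists_eq_add_of_le h1
        have hi' : i' < 2 ^ l := by rw [pow_succ] at h2; omega
        rw [T_add hi'.le]
        have hpl : 0 < 2 ^ l := by positivity
        have h3 : |T i' x| ≤ ∑ l' ∈ range l, (|T (2 ^ l') x| + 2 ^ l' * |D (2 ^ l') x|) := by
          rcases Nat.eq_zero_or_pos l with hl0 | hl0
          · have : i' = 0 := by rw [hl0] at hi'; simpa using hi'
            rw [this, T_zero, abs_zero]
            exact Finset.sum_nonneg fun l _ => by positivity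
          · have := ih i' (by omega) (l - 1) (by rw [Nat.sub_add_cancel hl0]; exact hi')
            unfold Ts at this
            rwa [Nat.sub_add_cancel hl0] at this
        have h4 : |(i' : ℝ) * D (2 ^ l) x| ≤ 2 ^ l * |D (2 ^ l) x| := by
          rw [abs_mul, Nat.abs_cast]
          have : (i' : ℝ) ≤ 2 ^ l := by exact_mod_cast hi'.le
          gcongr
        have h5 : |r l x * T i' x| = |T i' x| := by rw [abs_mul, abs_r, one_mul]
        have h6 := abs_add_le (T (2 ^ l) x + i' * D (2 ^ l) x) (r l x * T i' x)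
        have h7 := abs_add_le (T (2 ^ l) x) (i' * D (2 ^ l) x)
        have h8 : ∑ l' ∈ range (l + 1), (|T (2 ^ l') x| + 2 ^ l' * |D (2 ^ l') x|) ≤ Ts j x := by
          unfold Ts
          exact Finset.sum_le_sum_of_subset_of_nonneg (range_mono (by omega))
            fun l _ _ => by positivity
        rw [Finset.sum_range_succ] at h8
        linarith
  exact main i j hi

lemma measurable_T (i : ℕ) : Measurable (T i) := by
  unfold T; exact Finset.measurable_fun_sum _ fun t _ => measurable_D t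

lemma E_abs (p : ℝ) (g : G → ℝ) : E p (fun x => |g x|) = E p g := by
  unfold E; simp_rw [Real.enorm_eq_ofReal_abs, abs_abs]

theorem j1d : J1d := by
  intro p j hp hp1
  have hc := c_pos hp
  set c := 1 / ((2 : ℝ) ^ (2 * p - 1) - 2 ^ (p - 1)) with hcdef
  have hc0 : 0 < c := by positivity
  have hm : ∀ l : ℕ, Measurable (fun x => |T (2 ^ l) x| + 2 ^ l * |D (2 ^ l) x|) := fun l => by
    have h1 := measurable_T (2 ^ l)
    have h2 := measurable_D (2 ^ l)
    fun_prop
  unfold Ts
  refine (E_sum_le hp hp1 _ _ hm).trans ?_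
  rw [Finset.mul_sum, ENNReal.ofReal_sum_of_nonneg (fun l _ => by positivity)]
  refine Finset.sum_le_sum fun l _ => ?_
  have hb := j1b p l hp hp1
  have h1 := measurable_T (2 ^ l)
  refine (E_add_le hp.le hp1 (by fun_prop)).trans ?_
  rw [E_abs, E_const_mul hp.le, E_abs, hb.1]
  calc E p (T (2 ^ l)) + ENNReal.ofReal (|2 ^ l| ^ p) * ENNReal.ofReal (2 ^ ((l : ℝ) * (p - 1)))
      ≤ ENNReal.ofReal (c * 2 ^ ((l : ℝ) * (2 * p - 1)))
        + ENNReal.ofReal (|2 ^ l| ^ p) * ENNReal.ofReal (2 ^ ((l : ℝ) * (p - 1))) := by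
        gcongr
        exact hb.2
    _ = _ := by
        rw [← ENNReal.ofReal_mul (by positivity), ← ENNReal.ofReal_add (by positivity) (by positivity)]
        congr 1
        have h1 : |(2 : ℝ) ^ l| ^ p * 2 ^ ((l : ℝ) * (p - 1)) = 2 ^ ((l : ℝ) * (2 * p - 1)) := by
          rw [abs_of_pos (by positivity), ← Real.rpow_natCast, ← Real.rpow_mul (by norm_num),
            ← Real.rpow_add (by norm_num)]
          congr 1; ring
        rw [h1]; ring

end Q94.LM
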