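import Pool.Agent.Q94.LM.K1

/-!
# MP_332aa0_an: kernels, Abel summation
-/

open scoped BigOperators Topology ENNReal
open MeasureTheory Finset Filter Q94.WF

namespace Q94.LM

/-- Abel's inequality, decreasing weights -/
lemma abel_anti {a b : ℕ → ℝ} {M : ℝ} {N : ℕ} (hM : ∀ n ≤ N, |∑ i ∈ range n, a i| ≤ M)
    (hb : ∀ i, i + 1 < N → b (i + 1) ≤ b i) (hb0 : ∀ i, i < N → 0 ≤ b i) (hN : 0 < N) :
    |∑ i ∈ range N, a i * b i| ≤ M * b 0 := by
  have hM0 : 0 ≤ M := (abs_nonneg _).trans (hM 0 (Nat.zero_le _))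
  have key : ∀ n, 0 < n → n ≤ N → |∑ i ∈ range n, a i * b i - (∑ i ∈ range n, a i) * b (n - 1)|
      ≤ M * (b 0 - b (n - 1)) := by
    intro n hn
    induction n, hn using Nat.le_induction with
    | base =>
      intro _
      simp
    | succ n hn ih =>
      intro hnN
      have h1 := ih (by omega)
      have h2 : ∑ i ∈ range (n + 1), a i * b i - (∑ i ∈ range (n + 1), a i) * b (n + 1 - 1)
          = (∑ i ∈ range n, a i * b i - (∑ i ∈ range n, a i) * b (n - 1))
            + (∑ i ∈ range n, a i) * (b (n - 1) - b n) := by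
        rw [Finset.sum_range_succ, Finset.sum_range_succ, Nat.add_sub_cancel]
        ring
      rw [h2]
      have h3 : b n ≤ b (n - 1) := by
        have := hb (n - 1) (by omega)
        rwa [Nat.sub_add_cancel hn] at this
      have h4 : |(∑ i ∈ range n, a i) * (b (n - 1) - b n)| ≤ M * (b (n - 1) - b n) := by
        rw [abs_mul, abs_of_nonneg (by linarith : 0 ≤ b (n - 1) - b n)]
        exact mul_le_mul_of_nonneg_right (hM n (by omega)) (by linarith)
      refine (abs_add_le _ _).trans ?_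
      rw [Nat.add_sub_cancel]
      nlinarith
  have h1 := key N hN le_rfl
  have h2 : |(∑ i ∈ range N, a i) * b (N - 1)| ≤ M * b (N - 1) := by
    rw [abs_mul, abs_of_nonneg (hb0 (N - 1) (by omega))]
    exact mul_le_mul_of_nonneg_right (hM N le_rfl) (hb0 _ (by omega))
  have h3 : ∑ i ∈ range N, a i * b i
      = (∑ i ∈ range N, a i * b i - (∑ i ∈ range N, a i) * b (N - 1))
        + (∑ i ∈ range N, a i) * b (N - 1) := by ring
  rw [h3]
  refine (abs_add_le _ _).trans ?_
  nlinarith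

/-- Abel's inequality, increasing weights -/
lemma abel_mono {a b : ℕ → ℝ} {M : ℝ} {N : ℕ} (hM : ∀ n ≤ N, |∑ i ∈ range n, a i| ≤ M)
    (hb : ∀ i, i + 1 < N → b i ≤ b (i + 1)) (hb0 : ∀ i, i < N → 0 ≤ b i) (hN : 0 < N) :
    |∑ i ∈ range N, a i * b i| ≤ 2 * M * b (N - 1) := by
  have hM0 : 0 ≤ M := (abs_nonneg _).trans (hM 0 (Nat.zero_le _))
  have key : ∀ n, 0 < n → n ≤ N → |∑ i ∈ range n, a i * b i - (∑ i ∈ range n, a i) * b (n - 1)|
      ≤ M * (b (n - 1) - b 0) := by
    intro n hn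
    induction n, hn using Nat.le_induction with
    | base =>
      intro _
      simp
    | succ n hn ih =>
      intro hnN
      have h1 := ih (by omega)
      have h2 : ∑ i ∈ range (n + 1), a i * b i - (∑ i ∈ range (n + 1), a i) * b (n + 1 - 1)
          = (∑ i ∈ range n, a i * b i - (∑ i ∈ range n, a i) * b (n - 1))
            + (∑ i ∈ range n, a i) * (b (n - 1) - b n) := by
        rw [Finset.sum_range_succ, Finset.sum_range_succ, Nat.add_sub_cancel]
        ring
      rw [h2]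
      have h3 : b (n - 1) ≤ b n := by
        have := hb (n - 1) (by omega)
        rwa [Nat.sub_add_cancel hn] at this
      have h4 : |(∑ i ∈ range n, a i) * (b (n - 1) - b n)| ≤ M * (b n - b (n - 1)) := by
        rw [abs_mul, abs_of_nonpos (by linarith : b (n - 1) - b n ≤ 0), neg_sub]
        exact mul_le_mul_of_nonneg_right (hM n (by omega)) (by linarith)
      refine (abs_add_le _ _).trans ?_
      rw [Nat.add_sub_cancel]
      nlinarith
  have h1 := key N hN le_rfl
  have h2 : |(∑ i ∈ range N, a i) * b (N - 1)| ≤ M * b (N - 1) := by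
    rw [abs_mul, abs_of_nonneg (hb0 (N - 1) (by omega))]
    exact mul_le_mul_of_nonneg_right (hM N le_rfl) (hb0 _ (by omega))
  have h3 : ∑ i ∈ range N, a i * b i
      = (∑ i ∈ range N, a i * b i - (∑ i ∈ range N, a i) * b (N - 1))
        + (∑ i ∈ range N, a i) * b (N - 1) := by ring
  have h4 : 0 ≤ b 0 := hb0 0 hN
  rw [h3]
  refine (abs_add_le _ _).trans ?_
  nlinarith [mul_nonneg hM0 h4]

lemma sum_D_eq_T {n : ℕ} (hn : 0 < n) (x : G) : ∑ i ∈ range n, D i x = T (n - 1) x := by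
  unfold T
  rw [Nat.sub_add_cancel hn]

lemma sum_D_succ (n : ℕ) (x : G) : ∑ i ∈ range n, D (i + 1) x = T n x := by
  unfold T
  rw [Finset.sum_range_succ', D_zero, add_zero]

lemma Ts_nonneg (j : ℕ) (x : G) : 0 ≤ Ts j x := by
  unfold Ts; exact Finset.sum_nonneg fun l _ => by positivity

theorem j1f : J1f := by
  intro l k x hk
  have h0 : 0 < 2 ^ l := by positivity
  have hk0 : (0 : ℝ) < k := by
    have : 0 < k := by omega
    exact_mod_cast this
  have h1 := abel_mono (a := fun i => D i x) (b := fun i => 1 / ((k : ℝ) - i)) (M := Ts l x)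
    (N := 2 ^ l) ?_ ?_ ?_ h0
  · have h2 : B l k x = ∑ i ∈ range (2 ^ l), D i x * (1 / ((k : ℝ) - i)) := by
      unfold B
      exact Finset.sum_congr rfl fun i _ => by ring
    rw [h2]
    refine h1.trans ?_
    have h3 : (1 : ℝ) / ((k : ℝ) - ((2 ^ l - 1 : ℕ) : ℝ)) ≤ 2 / k := by
      have h4 : ((2 ^ l - 1 : ℕ) : ℝ) ≤ k / 2 := by
        have : ((2 ^ l - 1 : ℕ) : ℝ) ≤ ((2 ^ l : ℕ) : ℝ) := by exact_mod_cast Nat.sub_le _ _
        have h5 : (2 : ℝ) * ((2 ^ l : ℕ) : ℝ) ≤ k := by exact_mod_cast hk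
        linarith
      have h6 : (k : ℝ) / 2 ≤ (k : ℝ) - ((2 ^ l - 1 : ℕ) : ℝ) := by linarith
      calc (1 : ℝ) / ((k : ℝ) - ((2 ^ l - 1 : ℕ) : ℝ)) ≤ 1 / ((k : ℝ) / 2) :=
            one_div_le_one_div_of_le (by positivity) h6
        _ = 2 / k := by field_simp
    have h7 := mul_le_mul_of_nonneg_left h3 (by linarith [Ts_nonneg l x] : 0 ≤ 2 * Ts l x)
    refine h7.trans (le_of_eq ?_)
    ring
  · intro n hn
    rcases Nat.eq_zero_or_pos n with h | h
    · subst h; simpa using Ts_nonneg l x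
    · rw [sum_D_eq_T h]
      exact j1c l (n - 1) x (by rw [pow_succ]; omega)
  · intro i hi
    have h2 : ((i + 1 : ℕ) : ℝ) < k := by
      have : i + 1 < k := by omega
      exact_mod_cast this
    push_cast at h2 ⊢
    apply one_div_le_one_div_of_le (by linarith) (by linarith)
  · intro i hi
    have h2 : (i : ℝ) < k := by
      have : i < k := by omega
      exact_mod_cast this
    have : 0 < (k : ℝ) - i := by linarith
    positivity

lemma C_zero (κ : ℕ) (x : G) : C 0 κ x = 1 / ((κ : ℝ) + 1) := by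
  unfold C; simp [D_one]

lemma abs_C_succ (n κ : ℕ) (x : G) :
    |C (n + 1) κ x| ≤ |C n κ x| + (2 / ((κ : ℝ) + 2 ^ n)) * Ts n x := by
  have hpos : (0 : ℝ) < (κ : ℝ) + 2 ^ n := by positivity
  have h1 : C (n + 1) κ x = C n κ x
      + (D (2 ^ n) x * ∑ t ∈ range (2 ^ n), 1 / ((κ : ℝ) + (((2 ^ n + t : ℕ) : ℝ) + 1))
      + r n x * ∑ t ∈ range (2 ^ n), D (t + 1) x * (1 / ((κ : ℝ) + (((2 ^ n + t : ℕ) : ℝ) + 1)))) := by
    have e : ∀ t ∈ range (2 ^ n), D (2 ^ n + t + 1) x / ((κ : ℝ) + (((2 ^ n + t : ℕ) : ℝ) + 1))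
        = D (2 ^ n) x * (1 / ((κ : ℝ) + (((2 ^ n + t : ℕ) : ℝ) + 1)))
          + r n x * (D (t + 1) x * (1 / ((κ : ℝ) + (((2 ^ n + t : ℕ) : ℝ) + 1)))) := by
      intro t ht
      have ht' := Finset.mem_range.1 ht
      have h3 := D_add (t := n) (m := t + 1) 1 ht' x
      rw [mul_one, w_two_pow] at h3
      rw [add_assoc, h3]
      ring
    unfold C
    rw [pow_succ, mul_two, Finset.sum_range_add, Finset.sum_congr rfl e, Finset.sum_add_distrib,
      Finset.mul_sum, Finset.mul_sum]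
  have h2 : |∑ t ∈ range (2 ^ n), D (t + 1) x * (1 / ((κ : ℝ) + (((2 ^ n + t : ℕ) : ℝ) + 1)))|
      ≤ Ts n x * (1 / ((κ : ℝ) + 2 ^ n)) := by
    have h3 := abel_anti (a := fun t => D (t + 1) x)
      (b := fun t => 1 / ((κ : ℝ) + (((2 ^ n + t : ℕ) : ℝ) + 1))) (M := Ts n x) (N := 2 ^ n)
      ?_ ?_ ?_ (by positivity)
    · refine h3.trans ?_
      apply mul_le_mul_of_nonneg_left _ (Ts_nonneg n x)
      apply one_div_le_one_div_of_le hpos
      push_cast
      linarith
    · intro m hm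
      rw [sum_D_succ]
      exact j1c n m x (by rw [pow_succ]; have : 0 < 2 ^ n := by positivity
                          omega)
    · intro i _
      apply one_div_le_one_div_of_le (by positivity)
      push_cast; linarith
    · intro i _; positivity
  have h4 : ∑ t ∈ range (2 ^ n), 1 / ((κ : ℝ) + (((2 ^ n + t : ℕ) : ℝ) + 1))
      ≤ 2 ^ n * (1 / ((κ : ℝ) + 2 ^ n)) := by
    have h5 : ∀ t ∈ range (2 ^ n), 1 / ((κ : ℝ) + (((2 ^ n + t : ℕ) : ℝ) + 1))
        ≤ 1 / ((κ : ℝ) + 2 ^ n) := by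
      intro t _
      apply one_div_le_one_div_of_le hpos
      push_cast
      have : (0 : ℝ) ≤ t := Nat.cast_nonneg t
      linarith
    refine (Finset.sum_le_sum h5).trans ?_
    rw [Finset.sum_const, card_range, nsmul_eq_mul]
    push_cast
    exact le_rfl
  have h5 : 2 ^ n * |D (2 ^ n) x| ≤ Ts n x := by
    unfold Ts
    have := Finset.single_le_sum (f := fun l => |T (2 ^ l) x| + 2 ^ l * |D (2 ^ l) x|)
      (s := range (n + 1)) (fun l _ => by positivity) (Finset.mem_range.2 (Nat.lt_succ_self n))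
    have h6 : 0 ≤ |T (2 ^ n) x| := abs_nonneg _
    linarith
  have h6 : 0 ≤ ∑ t ∈ range (2 ^ n), 1 / ((κ : ℝ) + (((2 ^ n + t : ℕ) : ℝ) + 1)) :=
    Finset.sum_nonneg fun t _ => by positivity
  rw [h1]
  refine (abs_add_le _ _).trans ?_
  refine add_le_add le_rfl ((abs_add_le _ _).trans ?_)
  rw [abs_mul, abs_of_nonneg h6, abs_mul (r n x), abs_r, one_mul]
  have h7 : |D (2 ^ n) x| * ∑ t ∈ range (2 ^ n), 1 / ((κ : ℝ) + (((2 ^ n + t : ℕ) : ℝ) + 1))
      ≤ Ts n x * (1 / ((κ : ℝ) + 2 ^ n)) := by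
    calc _ ≤ |D (2 ^ n) x| * (2 ^ n * (1 / ((κ : ℝ) + 2 ^ n))) :=
          mul_le_mul_of_nonneg_left h4 (abs_nonneg _)
      _ = (2 ^ n * |D (2 ^ n) x|) * (1 / ((κ : ℝ) + 2 ^ n)) := by ring
      _ ≤ _ := mul_le_mul_of_nonneg_right h5 (by positivity)
  calc _ ≤ Ts n x * (1 / ((κ : ℝ) + 2 ^ n)) + Ts n x * (1 / ((κ : ℝ) + 2 ^ n)) := add_le_add h7 h2
    _ = _ := by ring

lemma measurable_C (n κ : ℕ) : Measurable (C n κ) := by
  unfold C; exact Finset.measurable_fun_sum _ fun t _ => (measurable_D _).div_const _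

theorem j1e : J1e := by
  intro p n κ hp hp1
  induction n with
  | zero =>
    have : C 0 κ = fun _ => 1 / ((κ : ℝ) + 1) := funext fun x => C_zero κ x
    rw [this, E_const hp.le, abs_of_pos (by positivity)]
    simp
  | succ n ih =>
    have h1 : E p (C (n + 1) κ) ≤ E p (fun x => |C n κ x| + (2 / ((κ : ℝ) + 2 ^ n)) * Ts n x) := by
      refine E_mono hp.le fun x => ?_
      exact (abs_C_succ n κ x).trans (le_abs_self _)
    refine h1.trans ?_
    have hm := measurable_C n κ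
    refine (E_add_le hp.le hp1 (by fun_prop)).trans ?_
    rw [E_abs, E_const_mul hp.le, Finset.sum_range_succ, ← add_assoc,
      abs_of_pos (by positivity : (0 : ℝ) < 2 / ((κ : ℝ) + 2 ^ n))]
    exact add_le_add ih le_rfl

end Q94.LM
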