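import Pool.Agent.Q94.LM.K1b

/-!
# MP_332aa0_an: the recursion of the logarithmic kernel
-/

open scoped BigOperators Topology ENNReal
open MeasureTheory Finset Filter Q94.WF

namespace Q94.LM

theorem j3a : J3a := by
  intro n κ x hκ
  have h0 : 0 < 2 ^ n := by positivity
  -- first part
  have e1 : ∑ i ∈ range (2 ^ n), D i x / (((2 ^ n + κ : ℕ) : ℝ) - i)
      = D (2 ^ n) x * ∑ t ∈ range (2 ^ n), 1 / ((κ : ℝ) + ((t : ℝ) + 1))
        - w (2 ^ n - 1) x * C n κ x := by
    unfold C
    rw [← Finset.sum_range_reflect, Finset.mul_sum, Finset.mul_sum, ← Finset.sum_sub_distrib]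
    refine Finset.sum_congr rfl fun t ht => ?_
    have ht' := Finset.mem_range.1 ht
    have h1 : 2 ^ n - 1 - t = 2 ^ n - (t + 1) := by omega
    rw [h1, D_reflect (by omega : t + 1 ≤ 2 ^ n), Nat.cast_sub (by omega)]
    push_cast
    have h2 : (2 : ℝ) ^ n + κ - (2 ^ n - (t + 1)) = κ + (t + 1) := by ring
    rw [h2]
    ring
  have e2 : ∑ i ∈ range κ, D (2 ^ n + i) x / (((2 ^ n + κ : ℕ) : ℝ) - ((2 ^ n + i : ℕ) : ℝ))
      = D (2 ^ n) x * ∑ i ∈ range κ, 1 / ((κ : ℝ) - i) + r n x * A κ x := by
    unfold A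
    rw [Finset.mul_sum, Finset.mul_sum, ← Finset.sum_add_distrib]
    refine Finset.sum_congr rfl fun i hi => ?_
    have hi' := Finset.mem_range.1 hi
    have h3 := D_add (t := n) (m := i) 1 (by omega) x
    rw [mul_one, w_two_pow] at h3
    rw [h3]
    push_cast
    have h2 : (2 : ℝ) ^ n + κ - (2 ^ n + i) = κ - i := by ring
    rw [h2]
    ring
  have e3 : H (2 ^ n + κ) = ∑ t ∈ range (2 ^ n), 1 / ((κ : ℝ) + ((t : ℝ) + 1))
      + ∑ i ∈ range κ, 1 / ((κ : ℝ) - i) := by
    rw [← H_eq, add_comm (2 ^ n) κ]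
    unfold H
    rw [Finset.sum_range_add, add_comm]
    congr 1
    refine Finset.sum_congr rfl fun t _ => ?_
    push_cast
    ring
  have e4 : A (2 ^ n + κ) x = ∑ i ∈ range (2 ^ n), D i x / (((2 ^ n + κ : ℕ) : ℝ) - i)
      + ∑ i ∈ range κ, D (2 ^ n + i) x / (((2 ^ n + κ : ℕ) : ℝ) - ((2 ^ n + i : ℕ) : ℝ)) := by
    unfold A
    rw [Finset.sum_range_add]
  rw [e4, e1, e2, e3]
  ring

lemma E_w_mul (p : ℝ) (n : ℕ) (g : G → ℝ) : E p (fun x => w n x * g x) = E p g := by
  unfold E
  simp_rw [Real.enorm_eq_ofReal_abs, abs_mul, abs_w, one_mul]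

lemma E_r_mul (p : ℝ) (n : ℕ) (g : G → ℝ) : E p (fun x => r n x * g x) = E p g := by
  unfold E
  simp_rw [Real.enorm_eq_ofReal_abs, abs_mul, abs_r, one_mul]

lemma measurable_A (k : ℕ) : Measurable (A k) := by
  unfold A; exact Finset.measurable_fun_sum _ fun i _ => (measurable_D i).div_const _

lemma H_le (n : ℕ) : H (2 ^ n) ≤ n + 1 := by
  induction n with
  | zero => simp [H]
  | succ n ih =>
    have h1 : H (2 ^ (n + 1)) = H (2 ^ n) + ∑ i ∈ range (2 ^ n), 1 / (((2 ^ n + i : ℕ) : ℝ) + 1) := by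
      unfold H
      rw [pow_succ, mul_two, Finset.sum_range_add]
    have h2 : ∑ i ∈ range (2 ^ n), 1 / (((2 ^ n + i : ℕ) : ℝ) + 1) ≤ 1 := by
      have h3 : ∀ i ∈ range (2 ^ n), (1 : ℝ) / (((2 ^ n + i : ℕ) : ℝ) + 1) ≤ 1 / 2 ^ n := by
        intro i _
        apply one_div_le_one_div_of_le (by positivity)
        push_cast
        have : (0 : ℝ) ≤ i := Nat.cast_nonneg i
        linarith
      refine (Finset.sum_le_sum h3).trans ?_
      rw [Finset.sum_const, card_range, nsmul_eq_mul]
      push_cast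
      rw [mul_one_div_cancel (by positivity)]
    rw [h1]
    push_cast
    push_cast at h2
    linarith

lemma H_le' {n k : ℕ} (h : k < 2 ^ (n + 1)) : H k ≤ n + 2 := by
  have := (H_mono h.le).trans (H_le (n + 1))
  push_cast at this
  linarith

lemma H_nonneg (k : ℕ) : 0 ≤ H k := by
  unfold H; exact Finset.sum_nonneg fun i _ => by positivity

lemma E_A_rec {p : ℝ} (hp : 0 < p) (hp1 : p ≤ 1) {n κ : ℕ} (hκ : κ < 2 ^ n) :
    E p (A (2 ^ n + κ)) ≤ ENNReal.ofReal (((n : ℝ) + 2) ^ p * 2 ^ ((n : ℝ) * (p - 1))) +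
      E p (C n κ) + E p (A κ) := by
  have h1 : A (2 ^ n + κ) = fun x => (H (2 ^ n + κ) * D (2 ^ n) x
      + (-(w (2 ^ n - 1) x * C n κ x))) + r n x * A κ x := by
    funext x
    rw [j3a n κ x hκ]; ring
  have m1 := measurable_D (2 ^ n)
  have m2 := measurable_w (2 ^ n - 1)
  have m3 := measurable_C n κ
  rw [h1]
  refine (E_add_le hp.le hp1 (by fun_prop)).trans ?_
  rw [E_r_mul]
  refine add_le_add ?_ le_rfl
  refine (E_add_le hp.le hp1 (by fun_prop)).trans ?_
  rw [E_neg, E_w_mul, E_const_mul hp.le, (j1b p n hp hp1).1]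
  refine add_le_add ?_ le_rfl
  rw [← ENNReal.ofReal_mul (by positivity)]
  apply ENNReal.ofReal_le_ofReal
  rw [abs_of_nonneg (H_nonneg _)]
  have : H (2 ^ n + κ) ≤ n + 2 := H_le' (by rw [pow_succ]; omega)
  gcongr
  exact H_nonneg _

theorem j3b (h : J2a) : J3b := by
  intro p hp hp1
  obtain ⟨c, δ, hc, hδ, hC⟩ := h p hp hp1
  -- the two series
  have s1 : Summable (fun j : ℕ => ((j : ℝ) + 2) ^ p * 2 ^ ((j : ℝ) * (p - 1))) := by
    have hr : ‖(2 : ℝ) ^ (p - 1)‖ < 1 := by
      rw [Real.norm_eq_abs, abs_of_pos (by positivity)]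
      exact Real.rpow_lt_one_of_one_lt_of_neg (by norm_num) (by linarith)
    have h1 := (summable_pow_mul_geometric_of_norm_lt_one 1 hr)
    have h2 : Summable (fun j : ℕ => (((j + 2 : ℕ) : ℝ)) ^ 1 * ((2 : ℝ) ^ (p - 1)) ^ (j + 2)) :=
      (summable_nat_add_iff 2).2 h1
    have h3 := h2.mul_left (((2 : ℝ) ^ (p - 1)) ^ 2)⁻¹
    refine Summable.of_nonneg_of_le (fun j => by positivity) (fun j => ?_) h3
    have h4 : ((j : ℝ) + 2) ^ p ≤ (j : ℝ) + 2 := by
      calc ((j : ℝ) + 2) ^ p ≤ ((j : ℝ) + 2) ^ (1 : ℝ) := by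
            apply Real.rpow_le_rpow_of_exponent_le _ hp1.le
            have : (0 : ℝ) ≤ j := Nat.cast_nonneg j
            linarith
        _ = _ := Real.rpow_one _
    have h5 : (2 : ℝ) ^ ((j : ℝ) * (p - 1)) = ((2 : ℝ) ^ (p - 1)) ^ j := by
      rw [← Real.rpow_natCast, ← Real.rpow_mul (by norm_num)]
      congr 1; ring
    rw [h5, pow_add]
    have h6 : (0 : ℝ) < (2 : ℝ) ^ (p - 1) := by positivity
    calc ((j : ℝ) + 2) ^ p * ((2 : ℝ) ^ (p - 1)) ^ j ≤ ((j : ℝ) + 2) * ((2 : ℝ) ^ (p - 1)) ^ j := by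
          gcongr
      _ = _ := by
          push_cast
          field_simp
  have s2 : Summable (fun j : ℕ => c * (2 : ℝ) ^ (-(δ * j))) := by
    have hr : ‖(2 : ℝ) ^ (-δ)‖ < 1 := by
      rw [Real.norm_eq_abs, abs_of_pos (by positivity)]
      exact Real.rpow_lt_one_of_one_lt_of_neg (by norm_num) (by linarith)
    have h1 := (summable_geometric_of_norm_lt_one hr).mul_left c
    refine h1.congr fun j => ?_
    rw [← Real.rpow_natCast, ← Real.rpow_mul (by norm_num)]
    congr 2; ring
  set a : ℕ → ℝ := fun j => ((j : ℝ) + 2) ^ p * 2 ^ ((j : ℝ) * (p - 1)) with ha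
  set e : ℕ → ℝ := fun j => c * (2 : ℝ) ^ (-(δ * j)) with he
  have ha0 : ∀ j, 0 ≤ a j := fun j => by simp only [ha]; positivity
  have he0 : ∀ j, 0 ≤ e j := fun j => by simp only [he]; positivity
  have main : ∀ k n : ℕ, 2 ^ n ≤ k → k < 2 ^ (n + 1) →
      E p (A k) ≤ ENNReal.ofReal (c + ∑ j ∈ range (n + 1), a j + ∑ j ∈ range n, e j) := by
    intro k
    induction k using Nat.strong_induction_on with
    | _ k ih =>
      intro n hk hk'
      obtain ⟨κ, rfl⟩ := Nat.exists_eq_add_of_le hk
      have hκ : κ < 2 ^ n := by rw [pow_succ] at hk'; omega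
      have h0 : 0 < 2 ^ n := by positivity
      refine (E_A_rec hp hp1.le hκ).trans ?_
      rcases Nat.eq_zero_or_pos κ with hz | hz
      · have hA0 : E p (A κ) = 0 := by
          rw [hz]
          have : A 0 = fun _ => (0 : ℝ) := by funext x; simp [A]
          rw [this, E_zero hp]
        rw [hA0, add_zero]
        have h1 := hC n κ
        have h2 : c * (max (κ : ℝ) 1) ^ (-δ) = c := by
          rw [hz]; simp
        rw [h2] at h1
        calc _ ≤ ENNReal.ofReal (a n) + ENNReal.ofReal c := add_le_add le_rfl h1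
          _ = ENNReal.ofReal (a n + c) := (ENNReal.ofReal_add (ha0 n) hc.le).symm
          _ ≤ _ := by
              apply ENNReal.ofReal_le_ofReal
              rw [Finset.sum_range_succ]
              have h3 : 0 ≤ ∑ j ∈ range n, a j := Finset.sum_nonneg fun j _ => ha0 j
              have h4 : 0 ≤ ∑ j ∈ range n, e j := Finset.sum_nonneg fun j _ => he0 j
              linarith
      · obtain ⟨m, hm1, hm2⟩ : ∃ m, 2 ^ m ≤ κ ∧ κ < 2 ^ (m + 1) :=
          ⟨Nat.log 2 κ, Nat.pow_log_le_self 2 hz.ne', Nat.lt_pow_succ_log_self (by norm_num) κ⟩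
        have hmn : m < n := by
          have : 2 ^ m < 2 ^ n := lt_of_le_of_lt hm1 hκ
          exact (Nat.pow_lt_pow_iff_right (by norm_num)).1 this
        have h1 := hC n κ
        have hm1' : (2 : ℝ) ^ m ≤ κ := by exact_mod_cast hm1
        have h2 : c * (max (κ : ℝ) 1) ^ (-δ) ≤ e m := by
          simp only [he]
          have h3 : (2 : ℝ) ^ (-(δ * m)) = (2 ^ m : ℝ) ^ (-δ) := by
            rw [← Real.rpow_natCast, ← Real.rpow_mul (by norm_num)]
            congr 1; ring
          rw [h3]
          apply mul_le_mul_of_nonneg_left _ hc.le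
          apply Real.rpow_le_rpow_of_nonpos (by positivity) (hm1'.trans (le_max_left _ _))
            (by linarith)
        have h4 := ih κ (by omega) m hm1 hm2
        calc _ ≤ ENNReal.ofReal (a n) + ENNReal.ofReal (e m) +
              ENNReal.ofReal (c + ∑ j ∈ range (m + 1), a j + ∑ j ∈ range m, e j) :=
              add_le_add (add_le_add le_rfl (h1.trans (ENNReal.ofReal_le_ofReal h2))) h4
          _ = ENNReal.ofReal (a n + e m + (c + ∑ j ∈ range (m + 1), a j + ∑ j ∈ range m, e j)) := by
              have h5 : 0 ≤ ∑ j ∈ range (m + 1), a j := Finset.sum_nonneg fun j _ => ha0 j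
              have h6 : 0 ≤ ∑ j ∈ range m, e j := Finset.sum_nonneg fun j _ => he0 j
              rw [ENNReal.ofReal_add (add_nonneg (ha0 n) (he0 m)) (by positivity),
                ENNReal.ofReal_add (ha0 n) (he0 m)]
          _ ≤ _ := by
              apply ENNReal.ofReal_le_ofReal
              have h5 : ∑ j ∈ range (m + 1), a j ≤ ∑ j ∈ range n, a j :=
                Finset.sum_le_sum_of_subset_of_nonneg (range_mono hmn) fun j _ _ => ha0 j
              have h6 : ∑ j ∈ range (m + 1), e j ≤ ∑ j ∈ range n, e j :=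
                Finset.sum_le_sum_of_subset_of_nonneg (range_mono hmn) fun j _ _ => he0 j
              rw [Finset.sum_range_succ] at h6
              rw [Finset.sum_range_succ _ n]
              linarith
  refine ⟨c + ∑' j, a j + ∑' j, e j, ?_, fun k => ?_⟩
  · have h5 : 0 ≤ ∑' j, a j := tsum_nonneg ha0
    have h6 : 0 ≤ ∑' j, e j := tsum_nonneg he0
    linarith
  · rcases Nat.eq_zero_or_pos k with hz | hz
    · rw [hz]
      have : A 0 = fun _ => (0 : ℝ) := by funext x; simp [A]
      rw [this, E_zero hp]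
      exact zero_le
    · refine (main k (Nat.log 2 k) (Nat.pow_log_le_self 2 hz.ne')
        (Nat.lt_pow_succ_log_self (by norm_num) k)).trans ?_
      apply ENNReal.ofReal_le_ofReal
      have h5 : ∑ j ∈ range (Nat.log 2 k + 1), a j ≤ ∑' j, a j :=
        s1.sum_le_tsum _ fun j _ => ha0 j
      have h6 : ∑ j ∈ range (Nat.log 2 k), e j ≤ ∑' j, e j :=
        s2.sum_le_tsum _ fun j _ => he0 j
      linarith

lemma w_mul_D {κ n : ℕ} (hκ : κ < 2 ^ n) (x : G) : w κ x * D (2 ^ n) x = D (2 ^ n) x := by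
  by_cases h : ∀ k < n, x k = false
  · rw [w_eq_one hκ h, one_mul]
  · rw [D_two_pow_of_notMem h, mul_zero]

lemma w_two_pow_add {n κ : ℕ} (hκ : κ < 2 ^ n) (x : G) : w (2 ^ n + κ) x = r n x * w κ x := by
  have := w_add (t := n) 1 hκ x
  rwa [mul_one, w_two_pow] at this

theorem j3c (h : J2b) : J3c := by
  have main : ∀ (k n : ℕ), 2 ^ n ≤ k → k < 2 ^ (n + 1) → ∃ v : ℕ → ℝ, (∀ j, |v j| ≤ H k) ∧
      (∀ j, n < j → v j = 0) ∧
      E 1 (fun x => A k x - w k x * ∑ j ∈ range (n + 1), v j * (r j x * D (2 ^ j) x)) ≤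
      ENNReal.ofReal (60 * ((n : ℝ) + 1)) := by
    intro k
    induction k using Nat.strong_induction_on with
    | _ k ih =>
      intro n hk hk'
      obtain ⟨κ, rfl⟩ := Nat.exists_eq_add_of_le hk
      have hκ : κ < 2 ^ n := by rw [pow_succ] at hk'; omega
      have h0 : 0 < 2 ^ n := by positivity
      have hH := H_nonneg (2 ^ n + κ)
      have mC := measurable_C n κ
      have mw := measurable_w (2 ^ n - 1)
      rcases Nat.eq_zero_or_pos κ with hz | hz
      · refine ⟨fun j => if j = n then H (2 ^ n + κ) else 0, ?_, ?_, ?_⟩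
        · intro j
          beta_reduce
          split_ifs
          · rw [abs_of_nonneg hH]
          · simpa using hH
        · intro j hj
          exact if_neg hj.ne'
        · have e1 : ∀ x, A (2 ^ n + κ) x - w (2 ^ n + κ) x * ∑ j ∈ range (n + 1),
              (if j = n then H (2 ^ n + κ) else 0) * (r j x * D (2 ^ j) x)
              = -(w (2 ^ n - 1) x * C n κ x) := by
            intro x
            have e2 : ∑ j ∈ range (n + 1),
              (if j = n then H (2 ^ n + κ) else 0) * (r j x * D (2 ^ j) x)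
              = H (2 ^ n + κ) * (r n x * D (2 ^ n) x) := by
              rw [Finset.sum_eq_single_of_mem n (Finset.mem_range.2 (Nat.lt_succ_self n))]
              · rw [if_pos rfl]
              · intro j _ hj
                rw [if_neg hj, zero_mul]
            rw [e2, j3a n κ x hκ, w_two_pow_add hκ]
            have h3 := w_mul_D hκ x
            have h4 := r_sq n x
            have hA0 : A κ x = 0 := by rw [hz]; simp [A]
            rw [hA0]
            have e3 : r n x * w κ x * (H (2 ^ n + κ) * (r n x * D (2 ^ n) x))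
                = H (2 ^ n + κ) * ((r n x * r n x) * (w κ x * D (2 ^ n) x)) := by ring
            rw [e3, h3, h4]
            ring
          simp_rw [e1]
          rw [E_neg, E_w_mul, hz]
          refine (h.2 n).trans (ENNReal.ofReal_le_ofReal ?_)
          have : (0 : ℝ) ≤ n := Nat.cast_nonneg n
          linarith
      · obtain ⟨m, hm1, hm2⟩ : ∃ m, 2 ^ m ≤ κ ∧ κ < 2 ^ (m + 1) :=
          ⟨Nat.log 2 κ, Nat.pow_log_le_self 2 hz.ne', Nat.lt_pow_succ_log_self (by norm_num) κ⟩
        have hmn : m < n := by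
          have : 2 ^ m < 2 ^ n := lt_of_le_of_lt hm1 hκ
          exact (Nat.pow_lt_pow_iff_right (by norm_num)).1 this
        obtain ⟨v, hv, hv0, hvE⟩ := ih κ (by omega) m hm1 hm2
        refine ⟨fun j => if j = n then H (2 ^ n + κ) else v j, ?_, ?_, ?_⟩
        · intro j
          beta_reduce
          split_ifs
          · rw [abs_of_nonneg hH]
          · exact (hv j).trans (H_mono (by omega))
        · intro j hj
          beta_reduce
          rw [if_neg hj.ne']
          exact hv0 j (by omega)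
        · have e1 : ∀ x, A (2 ^ n + κ) x - w (2 ^ n + κ) x * ∑ j ∈ range (n + 1),
              (if j = n then H (2 ^ n + κ) else v j) * (r j x * D (2 ^ j) x)
              = -(w (2 ^ n - 1) x * C n κ x) + r n x * (A κ x - w κ x * ∑ j ∈ range (m + 1),
                v j * (r j x * D (2 ^ j) x)) := by
            intro x
            have e2 : ∑ j ∈ range (n + 1),
              (if j = n then H (2 ^ n + κ) else v j) * (r j x * D (2 ^ j) x)
              = ∑ j ∈ range (m + 1), v j * (r j x * D (2 ^ j) x)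
                + H (2 ^ n + κ) * (r n x * D (2 ^ n) x) := by
              rw [Finset.sum_range_succ, if_pos rfl]
              congr 1
              have e4 : ∑ j ∈ range n, (if j = n then H (2 ^ n + κ) else v j) * (r j x * D (2 ^ j) x)
                  = ∑ j ∈ range n, v j * (r j x * D (2 ^ j) x) := by
                refine Finset.sum_congr rfl fun j hj => ?_
                have := Finset.mem_range.1 hj
                rw [if_neg (by omega)]
              rw [e4]
              symm
              refine Finset.sum_subset (range_mono hmn) fun j _ hj => ?_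
              have hj' : m + 1 ≤ j := by simpa using hj
              rw [hv0 j (by omega), zero_mul]
            rw [e2, j3a n κ x hκ, w_two_pow_add hκ]
            have h3 := w_mul_D hκ x
            have h4 := r_sq n x
            have e3 : r n x * w κ x * (∑ j ∈ range (m + 1), v j * (r j x * D (2 ^ j) x) +
                H (2 ^ n + κ) * (r n x * D (2 ^ n) x))
                = r n x * w κ x * (∑ j ∈ range (m + 1), v j * (r j x * D (2 ^ j) x))
                  + H (2 ^ n + κ) * ((r n x * r n x) * (w κ x * D (2 ^ n) x)) := by ring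
            rw [e3, h3, h4]
            ring
          simp_rw [e1]
          refine (E_add_le zero_le_one le_rfl (by fun_prop)).trans ?_
          rw [E_neg, E_w_mul, E_r_mul]
          refine (add_le_add (h.1 n m κ hm1 hmn.le) hvE).trans ?_
          have hmn' : (m : ℝ) + 1 ≤ n := by exact_mod_cast hmn
          rw [← ENNReal.ofReal_add (by nlinarith) (by positivity)]
          apply ENNReal.ofReal_le_ofReal
          nlinarith
  intro n k hk hk'
  obtain ⟨v, h1, -, h3⟩ := main k n hk hk'
  exact ⟨v, h1, h3⟩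

end Q94.LM
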