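import Pool.Agent.Q94.LM.V3

/-!
# MP_332aa0_an: the terms of a dyadic martingale are Walsh polynomials
-/

open scoped BigOperators Topology ENNReal
open MeasureTheory Finset Filter Q94.WF

namespace Q94.LM

lemma dep_of_meas {n : ℕ} {g : G → ℝ} (hg : StronglyMeasurable[ℱ n] g) : Dep n g := by
  intro x y hxy
  have h1 : Measurable[ℱ n] g := hg.measurable
  have h2 : MeasurableSet[ℱ n] (g ⁻¹' {g x}) := h1 (measurableSet_singleton _)
  obtain ⟨t, -, ht⟩ := h2
  have h3 : x ∈ g ⁻¹' {g x} := rfl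
  rw [← ht] at h3
  have h4 : y ∈ (fun (x : G) (k : Fin n) => x k) ⁻¹' t := by
    have : (fun k : Fin n => y k) = fun k : Fin n => x k := by
      funext k; exact (hxy k k.2).symm
    simp only [Set.mem_preimage] at h3 ⊢
    rwa [this]
  rw [ht] at h4
  exact h4.symm

lemma mart_dep {f : ℕ → G → ℝ} (hf : Martingale f ℱ μ) (n : ℕ) : Dep n (f n) :=
  dep_of_meas (hf.stronglyAdapted n)

lemma integral_mart_w {f : ℕ → G → ℝ} (hf : Martingale f ℱ μ) {i n k : ℕ} (hi : i < 2 ^ n)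
    (hk : n ≤ k) : ∫ x, f k x * w i x ∂μ = ∫ x, f n x * w i x ∂μ := by
  have h1 : μ[f k * w i | ℱ n] =ᵐ[μ] μ[f k | ℱ n] * w i := by
    refine condExp_mul_of_stronglyMeasurable_right (w_meas hi).stronglyMeasurable ?_
      (hf.integrable k)
    exact integrable_dep (dep_mul (mart_dep hf k) (dep_mono hk (dep_w hi)))
  have h2 : μ[f k | ℱ n] =ᵐ[μ] f n := hf.condExp_ae_eq hk
  have h3 : ∫ x, (f k * w i) x ∂μ = ∫ x, (μ[f k * w i | ℱ n]) x ∂μ :=
    (integral_condExp (ℱ.le n)).symm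
  calc ∫ x, f k x * w i x ∂μ = ∫ x, (μ[f k * w i | ℱ n]) x ∂μ := h3
    _ = ∫ x, f n x * w i x ∂μ := by
        refine integral_congr_ae ?_
        filter_upwards [h1, h2] with x hx1 hx2
        rw [hx1, Pi.mul_apply, hx2]

lemma coef_eq {f : ℕ → G → ℝ} (hf : Martingale f ℱ μ) {i n : ℕ} (hi : i < 2 ^ n) :
    coef f i = ∫ x, f n x * w i x ∂μ := by
  unfold coef
  refine Tendsto.limUnder_eq ?_
  refine tendsto_const_nhds.congr' ?_
  filter_upwards [eventually_ge_atTop n] with k hk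
  exact (integral_mart_w hf hi hk).symm

theorem j5a : J5a := by
  intro f hf n x
  have h1 := j4c.2 n (f n) (mart_dep hf n) x
  rw [h1]
  unfold P
  refine Finset.sum_congr rfl fun i hi => ?_
  beta_reduce
  rw [coef_eq hf (Finset.mem_range.1 hi)]

end Q94.LM
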