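import Pool.Agent.Q94.LM.N1
import Pool.Agent.Q94.LM.Asm4

/-!
# MP_332aa0_an: convergence of martingales with small tails
-/

open scoped BigOperators Topology ENNReal
open MeasureTheory Finset Filter Q94.WF

namespace Q94.LM

/-- the maximal function of `f - f^{(n)}` -/
noncomputable def gt (f : ℕ → G → ℝ) (n : ℕ) (x : G) : ℝ≥0∞ := ⨆ k, ‖tail f n k x‖ₑ

lemma mart_meas {f : ℕ → G → ℝ} (hf : Martingale f ℱ μ) (n : ℕ) : Measurable (f n) :=
  dep_measurable (mart_dep hf n)

lemma measurable_gt {f : ℕ → G → ℝ} (hf : Martingale f ℱ μ) (n : ℕ) : Measurable (gt f n) := by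
  unfold gt tail
  refine Measurable.iSup fun k => ?_
  have h1 := mart_meas hf k
  have h2 := mart_meas hf (min k n)
  fun_prop

lemma abs_sub_le_gt (f : ℕ → G → ℝ) {n k : ℕ} (h : n ≤ k) (x : G) :
    ENNReal.ofReal |f k x - f n x| ≤ gt f n x := by
  rw [← Real.enorm_eq_ofReal_abs]
  have h1 : f k x - f n x = tail f n k x := by unfold tail; rw [min_eq_right h]
  rw [h1]
  exact le_iSup (fun k => ‖tail f n k x‖ₑ) k

theorem j5b : J5b := by
  intro p f hp hf ht
  have hmg := measurable_gt hf
  have hae : ∀ᵐ x ∂μ, Tendsto (fun n => f n x) atTop (𝓝 (limf f x)) := by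
    have h1 : Tendsto (fun n => ∫⁻ x, gt f n x ^ p ∂μ) atTop (𝓝 0) := by
      have h2 := ((ENNReal.continuous_rpow_const (y := p)).tendsto 0).comp ht
      rw [ENNReal.zero_rpow_of_pos hp] at h2
      refine h2.congr fun n => ?_
      simp only [Function.comp_apply]
      rw [Hnorm_rpow hp]
      rfl
    have h3 : ∫⁻ x, liminf (fun n => gt f n x ^ p) atTop ∂μ ≤ 0 := by
      refine (lintegral_liminf_le (fun n => (hmg n).pow_const p)).trans ?_
      rw [h1.liminf_eq]
    have h4 : ∀ᵐ x ∂μ, liminf (fun n => gt f n x ^ p) atTop = 0 := by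
      have h5 := (lintegral_eq_zero_iff (μ := μ) (f := fun x => liminf (fun n => gt f n x ^ p) atTop)
        (Measurable.liminf fun n => (hmg n).pow_const p)).1 (le_antisymm h3 zero_le)
      filter_upwards [h5] with x hx using hx
    filter_upwards [h4] with x hx
    have hC : CauchySeq (fun n => f n x) := by
      rw [Metric.cauchySeq_iff']
      intro ε hε
      have h6 : ∃ n, gt f n x ^ p < ENNReal.ofReal (ε ^ p) := by
        by_contra hcon
        push Not at hcon
        have h7 : ENNReal.ofReal (ε ^ p) ≤ liminf (fun n => gt f n x ^ p) atTop :=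
          le_liminf_of_le (by isBoundedDefault) (Eventually.of_forall hcon)
        rw [hx] at h7
        have : 0 < ENNReal.ofReal (ε ^ p) := ENNReal.ofReal_pos.2 (by positivity)
        exact absurd h7 (not_le.2 this)
      obtain ⟨n, hn⟩ := h6
      refine ⟨n, fun k hk => ?_⟩
      have h8 := ENNReal.rpow_le_rpow (abs_sub_le_gt f hk x) hp.le
      rw [ENNReal.ofReal_rpow_of_nonneg (abs_nonneg _) hp.le] at h8
      have h9 := lt_of_le_of_lt h8 hn
      rw [ENNReal.ofReal_lt_ofReal_iff (by positivity)] at h9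
      rw [Real.dist_eq]
      exact (Real.rpow_lt_rpow_iff (abs_nonneg _) hε.le hp).1 h9
    obtain ⟨l, hl⟩ := cauchySeq_tendsto_of_complete hC
    have : limf f x = l := by unfold limf; exact hl.limUnder_eq
    rw [this]
    exact hl
  refine ⟨hae, fun n => ?_⟩
  rw [Hnorm_rpow hp]
  unfold E
  refine lintegral_mono_ae ?_
  filter_upwards [hae] with x hx
  refine ENNReal.rpow_le_rpow ?_ hp.le
  rw [Real.enorm_eq_ofReal_abs, abs_sub_comm]
  have h1 : Tendsto (fun k => ENNReal.ofReal |f k x - f n x|) atTop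
      (𝓝 (ENNReal.ofReal |limf f x - f n x|)) :=
    (ENNReal.continuous_ofReal.tendsto _).comp ((hx.sub_const _).abs)
  refine le_of_tendsto h1 ?_
  filter_upwards [eventually_ge_atTop n] with k hk
  exact abs_sub_le_gt f hk x

theorem j5c : J5c := by
  intro f hf hfin
  have hmg := measurable_gt hf
  set S := fun x => ⨆ n, ‖f n x‖ₑ with hS
  have hSm : Measurable S := Measurable.iSup fun n => (mart_meas hf n).enorm
  have hSfin : ∫⁻ x, S x ∂μ < ⊤ := by
    have h1 := Hnorm_rpow one_pos f
    rw [ENNReal.rpow_one] at h1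
    simp_rw [ENNReal.rpow_one] at h1
    rw [h1] at hfin
    exact hfin
  have hbdd : ∀ n, eLpNorm (f n) 1 μ ≤ (∫⁻ x, S x ∂μ).toNNReal := by
    intro n
    rw [ENNReal.coe_toNNReal hSfin.ne, eLpNorm_one_eq_lintegral_enorm]
    exact lintegral_mono fun x => le_iSup (fun n => ‖f n x‖ₑ) n
  have hconv := hf.submartingale.exists_ae_tendsto_of_bdd hbdd
  have h1 : ∀ n, Hnorm 1 (tail f n) = ∫⁻ x, gt f n x ∂μ := by
    intro n
    have := Hnorm_rpow one_pos (tail f n)
    rw [ENNReal.rpow_one] at this
    simp_rw [ENNReal.rpow_one] at this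
    rw [this]
    rfl
  simp_rw [h1]
  have h2 : ∫⁻ _, (0 : ℝ≥0∞) ∂μ = 0 := by simp
  rw [← h2]
  refine tendsto_lintegral_of_dominated_convergence (fun x => 2 * S x) hmg
    (fun n => Eventually.of_forall fun x => ?_) ?_ ?_
  · unfold gt tail
    refine iSup_le fun k => enorm_sub_le.trans ?_
    beta_reduce
    rw [two_mul]
    exact add_le_add (le_iSup (fun k => ‖f k x‖ₑ) k) (le_iSup (fun k => ‖f k x‖ₑ) (min k n))
  · rw [lintegral_const_mul _ hSm]
    exact (ENNReal.mul_lt_top (by norm_num) hSfin).ne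
  · filter_upwards [hconv] with x hx
    obtain ⟨l, hl⟩ := hx
    rw [ENNReal.tendsto_nhds_zero]
    intro ε hε
    by_cases hεt : ε = ⊤
    · rw [hεt]; exact Eventually.of_forall fun n => le_top
    · have hε' : 0 < ε.toReal := ENNReal.toReal_pos hε.ne' hεt
      obtain ⟨N, hN⟩ := Metric.cauchySeq_iff.1 hl.cauchySeq ε.toReal hε'
      filter_upwards [eventually_ge_atTop N] with n hn
      unfold gt tail
      refine iSup_le fun k => ?_
      rcases le_total k n with h | h
      · rw [min_eq_left h]; simp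
      · rw [min_eq_right h, Real.enorm_eq_ofReal_abs]
        have := hN k (by omega) n hn
        rw [Real.dist_eq] at this
        calc ENNReal.ofReal |f k x - f n x| ≤ ENNReal.ofReal ε.toReal :=
              ENNReal.ofReal_le_ofReal this.le
          _ = ε := ENNReal.ofReal_toReal hεt

end Q94.LM
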