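import Pool.Agent.Q94.LM.N2

/-!
# MP_332aa0_an: sharpness
-/

open scoped BigOperators Topology ENNReal
open MeasureTheory Finset Filter Q94.WF

namespace Q94.LM

lemma P_succ_two_pow (c : ℕ → ℝ) (n : ℕ) (x : G) :
    P c (2 ^ (n + 1)) x = P c (2 ^ n) x + r n x * P (fun i => c (2 ^ n + i)) (2 ^ n) x := by
  unfold P
  rw [pow_succ, mul_two, Finset.sum_range_add, Finset.mul_sum]
  congr 1
  refine Finset.sum_congr rfl fun i hi => ?_
  rw [w_two_pow_add (Finset.mem_range.1 hi)]
  ring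

/-- Walsh polynomials form a martingale -/
lemma P_martingale (c : ℕ → ℝ) : Martingale (fun n => P c (2 ^ n)) ℱ μ := by
  refine martingale_of_setIntegral_eq_succ ?_ ?_ ?_
  · intro n
    refine Measurable.stronglyMeasurable ?_
    unfold P
    exact Finset.measurable_fun_sum _ fun i hi => (w_meas (Finset.mem_range.1 hi)).const_mul _
  · intro n
    exact integrable_dep (dep_P c le_rfl)
  · intro n s hs
    have hs' : MeasurableSet s := ℱ.le n s hs
    have h1 : ∫ x in s, P c (2 ^ (n + 1)) x ∂μ = ∫ x in s, P c (2 ^ n) x ∂μ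
        + ∫ x in s, r n x * P (fun i => c (2 ^ n + i)) (2 ^ n) x ∂μ := by
      rw [← integral_add]
      · exact setIntegral_congr_fun hs' fun x _ => P_succ_two_pow c n x
      · exact (integrable_dep (dep_P c le_rfl)).integrableOn
      · exact (integrable_dep (J := n + 1) (dep_mul (dep_r (Nat.lt_succ_self n))
          (dep_mono (Nat.le_succ n) (dep_P _ le_rfl)))).integrableOn
    rw [h1]
    have h2 : ∫ x in s, r n x * P (fun i => c (2 ^ n + i)) (2 ^ n) x ∂μ = 0 := by
      rw [← integral_indicator hs']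
      obtain ⟨t, ht, rfl⟩ := hs
      refine integral_eq_zero_of_flip n (fun x => ?_)
        (((measurable_r n).mul (measurable_P _ _)).indicator hs')
      have hmem : WF.flip n x ∈ (fun (x : G) (k : Fin n) => x k) ⁻¹' t
          ↔ x ∈ (fun (x : G) (k : Fin n) => x k) ⁻¹' t := by
        simp only [Set.mem_preimage]
        have : (fun k : Fin n => WF.flip n x k) = fun k : Fin n => x k := by
          funext k
          unfold WF.flip
          rw [if_neg k.2.ne]
        rw [this]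
      by_cases hx : x ∈ (fun (x : G) (k : Fin n) => x k) ⁻¹' t
      · rw [Set.indicator_of_mem hx, Set.indicator_of_mem (hmem.2 hx), r_flip, if_pos rfl,
          dep_flip (dep_P _ le_rfl)]
        ring
      · rw [Set.indicator_of_notMem hx, Set.indicator_of_notMem (fun h => hx (hmem.1 h)), neg_zero]
    rw [h2, add_zero]

lemma coef_P (c : ℕ → ℝ) (i : ℕ) : coef (fun n => P c (2 ^ n)) i = c i := by
  have hi : i < 2 ^ i := Nat.lt_two_pow_self
  rw [coef_eq (P_martingale c) hi, integral_P_mul_w, if_pos hi]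

/-- the coefficients of the example -/
noncomputable def cc (i : ℕ) : ℝ := (Nat.log 2 i : ℝ)

/-- the example -/
noncomputable def ff (n : ℕ) : G → ℝ := P cc (2 ^ n)

lemma cc_add {n i : ℕ} (hi : i < 2 ^ n) : cc (2 ^ n + i) = n := by
  unfold cc
  have : Nat.log 2 (2 ^ n + i) = n :=
    Nat.log_eq_of_pow_le_of_lt_pow (by omega) (by rw [pow_succ]; omega)
  rw [this]

lemma ff_succ (n : ℕ) (x : G) : ff (n + 1) x = ff n x + n * (r n x * D (2 ^ n) x) := by
  unfold ff
  rw [P_succ_two_pow]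
  have : P (fun i => cc (2 ^ n + i)) (2 ^ n) x = n * D (2 ^ n) x := by
    unfold P D
    rw [Finset.mul_sum]
    refine Finset.sum_congr rfl fun i hi => ?_
    beta_reduce
    rw [cc_add (Finset.mem_range.1 hi)]
  rw [this]
  ring

lemma ff_zero (x : G) : ff 0 x = 0 := by
  unfold ff; rw [pow_zero, P_one]; simp [cc]

lemma ff_one (x : G) : ff 1 x = 0 := by
  rw [ff_succ, ff_zero]; simp

/-- first nonzero digit is `l` -/
def Z (l : ℕ) : Set G := {x | ∀ k < l + 1, x k = decide (k = l)}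

lemma Z_low {l : ℕ} {x : G} (hx : x ∈ Z l) {k : ℕ} (hk : k < l) : x k = false := by
  have := hx k (by omega)
  rw [this]; simp; omega

lemma Z_self {l : ℕ} {x : G} (hx : x ∈ Z l) : x l = true := by
  have := hx l (by omega)
  rw [this]; simp

lemma measure_Z (l : ℕ) : μ (Z l) = ENNReal.ofReal ((1 / 2) ^ (l + 1)) := measure_cyl (l + 1) _

lemma measurableSet_Z (l : ℕ) : MeasurableSet (Z l) := measurableSet_cyl (l + 1) _

lemma exists_Z {x : G} {k : ℕ} (hk : x k = true) : ∃ l ≤ k, x ∈ Z l := by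
  classical
  have hex : ∃ k, x k = true := ⟨k, hk⟩
  refine ⟨Nat.find hex, Nat.find_min' hex hk, ?_⟩
  intro j hj
  rcases Nat.lt_succ_iff_lt_or_eq.1 hj with h | h
  · have := Nat.find_min hex h
    simp only [Bool.not_eq_true] at this
    rw [this]
    symm
    simpa using h.ne
  · rw [h]
    rw [Nat.find_spec hex]
    simp

lemma term_le {l : ℕ} {x : G} (hx : x ∈ Z l) (n : ℕ) :
    |(n : ℝ) * (r n x * D (2 ^ n) x)| ≤ if n ≤ l then (l : ℝ) * 2 ^ n else 0 := by
  split_ifs with h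
  · rw [abs_mul, abs_mul, abs_r, one_mul, Nat.abs_cast]
    rw [D_two_pow_of_mem (fun k hk => Z_low hx (by omega)), abs_of_pos (by positivity)]
    have : (n : ℝ) ≤ l := by exact_mod_cast h
    gcongr
  · rw [D_two_pow_eq_zero (by omega : l < n) (Z_self hx)]
    simp

/-- increments of the example vanish after `l` -/
lemma ff_const {l : ℕ} {x : G} (hx : x ∈ Z l) {n k : ℕ} (hn : l < n) (hk : n ≤ k) :
    ff k x = ff n x := by
  induction k, hk using Nat.le_induction with
  | base => rfl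
  | succ k hk ih =>
    rw [ff_succ, ih, D_two_pow_eq_zero (by omega : l < k) (Z_self hx)]
    simp

lemma ff_diff_le {l : ℕ} {x : G} (hx : x ∈ Z l) {n k : ℕ} (hk : n ≤ k) :
    |ff k x - ff n x| ≤ l * 2 ^ (l + 1) := by
  have h1 : ∀ k, n ≤ k → |ff k x - ff n x| ≤ ∑ i ∈ range k, if i ≤ l then (l : ℝ) * 2 ^ i else 0 := by
    intro k hk
    induction k, hk using Nat.le_induction with
    | base =>
      rw [sub_self, abs_zero]
      exact Finset.sum_nonneg fun i _ => by split_ifs <;> positivity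
    | succ k hk ih =>
      rw [Finset.sum_range_succ, ff_succ]
      have h2 : ff k x + (k : ℝ) * (r k x * D (2 ^ k) x) - ff n x
          = (ff k x - ff n x) + (k : ℝ) * (r k x * D (2 ^ k) x) := by ring
      rw [h2]
      exact (abs_add_le _ _).trans (add_le_add ih (term_le hx k))
  refine (h1 k hk).trans ?_
  have h3 : ∀ K : ℕ, ∑ i ∈ range K, (if i ≤ l then (l : ℝ) * 2 ^ i else 0)
      ≤ ∑ i ∈ range (l + 1), (l : ℝ) * 2 ^ i := by
    intro K
    rw [← Finset.sum_filter]
    refine Finset.sum_le_sum_of_subset_of_nonneg ?_ fun i _ _ => by positivity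
    intro i hi
    rw [Finset.mem_filter] at hi
    exact Finset.mem_range.2 (by omega)
  refine (h3 k).trans ?_
  rw [← Finset.mul_sum]
  have h4 : ∑ i ∈ range (l + 1), (2 : ℝ) ^ i ≤ 2 ^ (l + 1) := by
    rw [geom_sum_eq (by norm_num)]
    norm_num
  gcongr

/-- almost every point has a nonzero digit -/
lemma ae_Z : ∀ᵐ x ∂μ, ∃ l, x ∈ Z l := by
  rw [ae_iff]
  refine le_antisymm ?_ zero_le
  have h1 : ∀ n : ℕ, μ {x : G | ¬ ∃ l, x ∈ Z l} ≤ ENNReal.ofReal ((1 / 2) ^ n) := by
    intro n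
    rw [← measure_cyl n (fun _ => false)]
    refine measure_mono fun x hx k _ => ?_
    by_contra hcon
    simp only [Bool.not_eq_false] at hcon
    obtain ⟨l, -, hl⟩ := exists_Z hcon
    exact hx ⟨l, hl⟩
  have h2 : Tendsto (fun n : ℕ => ENNReal.ofReal ((1 / 2 : ℝ) ^ n)) atTop (𝓝 0) := by
    have := (ENNReal.continuous_ofReal.tendsto 0).comp
      (tendsto_pow_atTop_nhds_zero_of_lt_one (by norm_num : (0 : ℝ) ≤ 1 / 2) (by norm_num))
    rwa [ENNReal.ofReal_zero] at this
  exact ge_of_tendsto' h2 h1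

lemma tail_bound {p : ℝ} (hp0 : 0 < p) (n : ℕ) {l : ℕ} {x : G} (hx : x ∈ Z l) :
    (⨆ k, ‖tail ff n k x‖ₑ) ^ p ≤ ∑' i, (Z (n + i)).indicator
      (fun _ => ENNReal.ofReal (((n + i : ℕ) * 2 ^ (n + i + 1) : ℝ) ^ p)) x := by
  by_cases h : l < n
  · have h1 : (⨆ k, ‖tail ff n k x‖ₑ) = 0 := by
      refine le_antisymm (iSup_le fun k => ?_) zero_le
      unfold tail
      rcases le_total k n with h' | h'
      · rw [min_eq_left h']; simp
      · rw [min_eq_right h', ff_const hx h h']; simp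
    rw [h1, ENNReal.zero_rpow_of_pos hp0]
    exact zero_le
  · push Not at h
    obtain ⟨i, rfl⟩ := Nat.exists_eq_add_of_le h
    refine le_trans ?_ (ENNReal.le_tsum i)
    rw [Set.indicator_of_mem hx, ← ENNReal.ofReal_rpow_of_nonneg (by positivity) hp0.le]
    refine ENNReal.rpow_le_rpow (iSup_le fun k => ?_) hp0.le
    unfold tail
    rcases le_total k n with h' | h'
    · rw [min_eq_left h']; simp
    · rw [min_eq_right h', Real.enorm_eq_ofReal_abs]
      exact ENNReal.ofReal_le_ofReal (ff_diff_le hx h')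

lemma tail_int {p : ℝ} (hp0 : 0 < p) (hp1 : p < 1) : ∃ c : ℝ, 0 < c ∧ ∀ n : ℕ, 1 ≤ n →
    Hnorm p (tail ff n) ^ p ≤ ENNReal.ofReal (c * ((n : ℝ) ^ p * 2 ^ (-(n * (1 - p))))) := by
  have hs : Summable (fun i : ℕ => ((i : ℝ) + 1) ^ p * 2 ^ (((i : ℝ) + 1) * (p - 1))) := by
    have hr : ‖(2 : ℝ) ^ (p - 1)‖ < 1 := by
      rw [Real.norm_eq_abs, abs_of_pos (by positivity)]
      exact Real.rpow_lt_one_of_one_lt_of_neg (by norm_num) (by linarith)
    have h1 := (summable_pow_mul_geometric_of_norm_lt_one 1 hr)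
    have h2 : Summable (fun j : ℕ => (((j + 1 : ℕ) : ℝ)) ^ 1 * ((2 : ℝ) ^ (p - 1)) ^ (j + 1)) :=
      (summable_nat_add_iff 1).2 h1
    refine Summable.of_nonneg_of_le (fun j => by positivity) (fun j => ?_) h2
    have h4 : ((j : ℝ) + 1) ^ p ≤ (j : ℝ) + 1 := by
      calc ((j : ℝ) + 1) ^ p ≤ ((j : ℝ) + 1) ^ (1 : ℝ) := by
            apply Real.rpow_le_rpow_of_exponent_le _ hp1.le
            have : (0 : ℝ) ≤ j := Nat.cast_nonneg j
            linarith
        _ = _ := Real.rpow_one _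
    have h5 : (2 : ℝ) ^ (((j : ℝ) + 1) * (p - 1)) = ((2 : ℝ) ^ (p - 1)) ^ (j + 1) := by
      rw [← Real.rpow_natCast, ← Real.rpow_mul (by norm_num)]
      congr 1; push_cast; ring
    rw [h5]
    push_cast
    rw [pow_one]
    gcongr
  set b : ℕ → ℝ := fun i => ((i : ℝ) + 1) ^ p * 2 ^ (((i : ℝ) + 1) * (p - 1)) with hb
  have hb0 : ∀ i, 0 ≤ b i := fun i => by simp only [hb]; positivity
  refine ⟨∑' i, b i, ?_, fun n hn => ?_⟩
  · refine hs.tsum_pos hb0 0 ?_
    simp only [hb]; positivity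
  · have hn' : (1 : ℝ) ≤ n := by exact_mod_cast hn
    rw [Hnorm_rpow hp0]
    have h1 : ∫⁻ x, (⨆ k, ‖tail ff n k x‖ₑ) ^ p ∂μ ≤ ∫⁻ x, ∑' i, (Z (n + i)).indicator
        (fun _ => ENNReal.ofReal (((n + i : ℕ) * 2 ^ (n + i + 1) : ℝ) ^ p)) x ∂μ := by
      refine lintegral_mono_ae ?_
      filter_upwards [ae_Z] with x hx
      obtain ⟨l, hl⟩ := hx
      exact tail_bound hp0 n hl
    refine h1.trans ?_
    rw [lintegral_tsum fun i => (measurable_const.indicator (measurableSet_Z _)).aemeasurable]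
    have h2 : ∀ i : ℕ, ∫⁻ x, (Z (n + i)).indicator
        (fun _ => ENNReal.ofReal (((n + i : ℕ) * 2 ^ (n + i + 1) : ℝ) ^ p)) x ∂μ
        ≤ ENNReal.ofReal ((n : ℝ) ^ p * 2 ^ (-(n * (1 - p)))) * ENNReal.ofReal (b i) := by
      intro i
      rw [lintegral_indicator_const (measurableSet_Z _), measure_Z,
        ← ENNReal.ofReal_mul (by positivity), ← ENNReal.ofReal_mul (by positivity)]
      apply ENNReal.ofReal_le_ofReal
      simp only [hb]
      rw [Real.mul_rpow (by positivity) (by positivity)]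
      have h3 : ((n + i : ℕ) : ℝ) ^ p ≤ (n : ℝ) ^ p * ((i : ℝ) + 1) ^ p := by
        rw [← Real.mul_rpow (by positivity) (by positivity)]
        apply Real.rpow_le_rpow (by positivity) _ hp0.le
        push_cast
        nlinarith [(Nat.cast_nonneg i : (0 : ℝ) ≤ i)]
      have h4 : ((2 : ℝ) ^ (n + i + 1)) ^ p * (1 / 2) ^ (n + i + 1)
          = 2 ^ (-((n : ℝ) * (1 - p))) * 2 ^ (((i : ℝ) + 1) * (p - 1)) := by
        rw [← Real.rpow_natCast, ← Real.rpow_mul (by norm_num), one_div, inv_pow,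
          ← Real.rpow_natCast, ← Real.rpow_neg (by norm_num), ← Real.rpow_add (by norm_num),
          ← Real.rpow_add (by norm_num)]
        congr 1
        push_cast; ring
      calc ((n + i : ℕ) : ℝ) ^ p * ((2 : ℝ) ^ (n + i + 1)) ^ p * (1 / 2) ^ (n + i + 1)
          = ((n + i : ℕ) : ℝ) ^ p * (((2 : ℝ) ^ (n + i + 1)) ^ p * (1 / 2) ^ (n + i + 1)) := by ring
        _ ≤ ((n : ℝ) ^ p * ((i : ℝ) + 1) ^ p) *
            (2 ^ (-((n : ℝ) * (1 - p))) * 2 ^ (((i : ℝ) + 1) * (p - 1))) := by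
            rw [h4]; gcongr
        _ = _ := by ring
    refine (ENNReal.tsum_le_tsum h2).trans ?_
    rw [ENNReal.tsum_mul_left, ← ENNReal.ofReal_tsum_of_nonneg hb0 hs,
      ← ENNReal.ofReal_mul (by positivity), mul_comm]

lemma tail_norm {p : ℝ} (hp0 : 0 < p) (hp1 : p < 1) : ∃ c : ℝ, ∀ n : ℕ, 1 ≤ n →
    Hnorm p (tail ff n) ≤ ENNReal.ofReal (c * n / 2 ^ (n * (1 / p - 1))) := by
  obtain ⟨c, hc, h⟩ := tail_int hp0 hp1
  refine ⟨c ^ (1 / p), fun n hn => ?_⟩
  have h1 := ENNReal.rpow_le_rpow (h n hn) (by positivity : (0 : ℝ) ≤ 1 / p)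
  rw [← ENNReal.rpow_mul, mul_one_div_cancel hp0.ne', ENNReal.rpow_one] at h1
  refine h1.trans (le_of_eq ?_)
  rw [ENNReal.ofReal_rpow_of_nonneg (by positivity) (by positivity)]
  congr 1
  rw [Real.mul_rpow hc.le (by positivity), Real.mul_rpow (by positivity) (by positivity),
    ← Real.rpow_mul (by positivity), mul_one_div_cancel hp0.ne', Real.rpow_one,
    ← Real.rpow_mul (by norm_num)]
  have e : (2 : ℝ) ^ (-((n : ℝ) * (1 - p)) * (1 / p)) = 1 / 2 ^ ((n : ℝ) * (1 / p - 1)) := by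
    have e1 : -((n : ℝ) * (1 - p)) * (1 / p) = -((n : ℝ) * (1 / p - 1)) := by
      field_simp
    rw [e1, Real.rpow_neg (by norm_num)]
    exact (one_div _).symm
  rw [e]
  ring

lemma flip_inv {n : ℕ} {x : G} {k : ℕ} (hk : k < n) (hx : x k = true) (N : ℕ) :
    ff N (WF.flip n x) = ff N x := by
  rcases le_total N n with h | h
  · exact dep_flip (dep_mono h (dep_P cc le_rfl)) x
  · obtain ⟨l, hl, hlZ⟩ := exists_Z hx
    have hx' : WF.flip n x k = true := by unfold WF.flip; rw [if_neg (by omega)]; exact hx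
    obtain ⟨l', hl', hlZ'⟩ := exists_Z hx'
    rw [ff_const hlZ' (by omega : l' < n) h, ff_const hlZ (by omega : l < n) h]
    exact dep_flip (dep_P cc le_rfl) x

lemma LL_flip (n : ℕ) (x : G) :
    LL cc (2 ^ n + 2) x - LL cc (2 ^ n + 2) (WF.flip n x) = 2 * n * r n x / H (2 ^ n + 2) := by
  have h1 : ∀ y, LL cc (2 ^ n + 2) y = (1 / H (2 ^ n + 2)) *
      (∑ i ∈ range (2 ^ n + 1), P cc i y / (((2 ^ n + 2 : ℕ) : ℝ) - i)
        + (P cc (2 ^ n) y + n * r n y)) := by
    intro y
    unfold LL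
    rw [show 2 ^ n + 2 = (2 ^ n + 1) + 1 from rfl, Finset.sum_range_succ]
    have h2 : P cc (2 ^ n + 1) y = P cc (2 ^ n) y + n * r n y := by
      unfold P
      rw [Finset.sum_range_succ, w_two_pow]
      have := cc_add (n := n) (i := 0) (by positivity)
      rw [add_zero] at this
      rw [this]
    rw [h2]
    have h3 : (((2 ^ n + 1 + 1 : ℕ) : ℝ) - ((2 ^ n + 1 : ℕ) : ℝ)) = 1 := by push_cast; ring
    rw [h3, div_one]
  rw [h1, h1]
  have h4 : ∑ i ∈ range (2 ^ n + 1), P cc i (WF.flip n x) / (((2 ^ n + 2 : ℕ) : ℝ) - i)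
      = ∑ i ∈ range (2 ^ n + 1), P cc i x / (((2 ^ n + 2 : ℕ) : ℝ) - i) := by
    refine Finset.sum_congr rfl fun i hi => ?_
    have := Finset.mem_range.1 hi
    rw [dep_flip (dep_P cc (by omega : i ≤ 2 ^ n)) x]
  rw [h4, dep_flip (dep_P cc le_rfl) x, r_flip, if_pos rfl]
  ring

lemma measure_flip_le (n : ℕ) (s : Set G) : μ (WF.flip n ⁻¹' s) ≤ μ s := by
  calc μ (WF.flip n ⁻¹' s) ≤ μ (WF.flip n ⁻¹' (toMeasurable μ s)) :=
        measure_mono (Set.preimage_mono (subset_toMeasurable μ s))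
    _ = μ (toMeasurable μ s) :=
        (mp_flip n).measure_preimage (measurableSet_toMeasurable μ s).nullMeasurableSet
    _ = μ s := measure_toMeasurable s

lemma weak_lower {n : ℕ} (hn : 2 ≤ n) :
    ENNReal.ofReal (1 / 4) ≤ μ {x | (1 / 4 : ℝ) < |Lm ff (2 ^ n + 2) x - limf ff x|} := by
  set k := 2 ^ n + 2 with hk
  set g : G → ℝ := fun x => Lm ff k x - limf ff x with hg
  have hc : coef ff = cc := funext fun i => coef_P cc i
  have h4 : 4 ≤ 2 ^ n := by
    calc 4 = 2 ^ 2 := by norm_num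
      _ ≤ 2 ^ n := Nat.pow_le_pow_right (by norm_num) hn
  have hHk : H k ≤ n + 2 := H_le' (by rw [hk, pow_succ]; omega)
  have hH0 : 0 < H k := lt_of_lt_of_le one_pos (one_le_H (by omega))
  have hn' : (2 : ℝ) ≤ n := by exact_mod_cast hn
  have h1 : ∀ x : G, (∃ j < n, x j = true) → (1 / 4 : ℝ) < |g x| ∨ (1 / 4 : ℝ) < |g (WF.flip n x)| := by
    intro x ⟨j, hj, hx⟩
    by_contra hcon
    push Not at hcon
    have h2 : limf ff (WF.flip n x) = limf ff x := by
      unfold limf
      congr 1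
      have : (fun N => ff N (WF.flip n x)) = fun N => ff N x := funext fun N => flip_inv hj hx N
      rw [this]
    have h3 : g x - g (WF.flip n x) = 2 * n * r n x / H k := by
      simp only [hg]
      rw [h2, Lm_eq, Lm_eq, hc, ← LL_flip n x]
      ring
    have h5 : |g x - g (WF.flip n x)| ≤ 1 / 4 + 1 / 4 := (abs_sub _ _).trans (add_le_add hcon.1 hcon.2)
    rw [h3, abs_div, abs_mul, abs_r, abs_of_pos hH0, mul_one, abs_of_pos (by positivity),
      div_le_iff₀ hH0] at h5
    nlinarith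
  have h2 : μ {x : G | ∃ j < n, x j = true} ≤ μ {x | (1 / 4 : ℝ) < |g x|} + μ {x | (1 / 4 : ℝ) < |g x|} := by
    have h3 : {x : G | ∃ j < n, x j = true} ⊆
        {x | (1 / 4 : ℝ) < |g x|} ∪ WF.flip n ⁻¹' {x | (1 / 4 : ℝ) < |g x|} := fun x hx => h1 x hx
    refine (measure_mono h3).trans ((measure_union_le _ _).trans ?_)
    exact add_le_add le_rfl (measure_flip_le n _)
  have h3 : ENNReal.ofReal (1 / 2) ≤ μ {x : G | ∃ j < n, x j = true} := by
    have h4 : {x : G | ∃ j < n, x j = true}ᶜ = {x : G | ∀ j < n, x j = false} := by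
      ext x
      simp
    have h5 := measure_cyl n (fun _ => false)
    have h6 : μ {x : G | ∃ j < n, x j = true} + μ {x : G | ∃ j < n, x j = true}ᶜ = 1 := by
      have hm : MeasurableSet {x : G | ∃ j < n, x j = true} := by
        have := (measurableSet_cyl n (fun _ => false)).compl
        rw [← h4, compl_compl] at this
        exact this
      rw [measure_add_measure_compl hm, measure_univ]
    rw [h4, h5] at h6
    have h7 : ENNReal.ofReal ((1 / 2 : ℝ) ^ n) ≤ ENNReal.ofReal (1 / 2) := by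
      apply ENNReal.ofReal_le_ofReal
      calc (1 / 2 : ℝ) ^ n ≤ (1 / 2) ^ 1 := pow_le_pow_of_le_one (by norm_num) (by norm_num) (by omega)
        _ = 1 / 2 := pow_one _
    have h8 : (1 : ℝ≥0∞) = ENNReal.ofReal (1 / 2) + ENNReal.ofReal (1 / 2) := by
      rw [← ENNReal.ofReal_add (by norm_num) (by norm_num)]; norm_num
    have h9 : ENNReal.ofReal (1 / 2) + ENNReal.ofReal (1 / 2)
        ≤ μ {x : G | ∃ j < n, x j = true} + ENNReal.ofReal (1 / 2) := by
      rw [← h8, ← h6]
      gcongr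
    exact (ENNReal.add_le_add_iff_right ENNReal.ofReal_ne_top).1 h9
  have h5 := h3.trans h2
  rw [← two_mul] at h5
  have h6 : ENNReal.ofReal (1 / 2) = 2 * ENNReal.ofReal (1 / 4) := by
    have : (2 : ℝ≥0∞) = ENNReal.ofReal 2 := by norm_num
    rw [this, ← ENNReal.ofReal_mul (by norm_num)]
    congr 1; norm_num
  rw [h6] at h5
  exact (ENNReal.mul_le_mul_iff_right (by norm_num) (by norm_num)).1 h5

theorem j6 : J6 := by
  intro p hp0 hp1
  obtain ⟨c, hc⟩ := tail_norm hp0 hp1
  refine ⟨ff, P_martingale cc, ?_, ⟨c, hc⟩, ?_⟩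
  · have h1 : ff = tail ff 1 := by
      funext k x
      unfold tail
      rcases Nat.eq_zero_or_pos k with h | h
      · subst h; simp [ff_zero]
      · rw [min_eq_right h, ff_one, sub_zero]
    rw [h1]
    exact lt_of_le_of_lt (hc 1 le_rfl) ENNReal.ofReal_lt_top
  · intro hT
    set a : ℝ≥0∞ := (ENNReal.ofReal ((1 / 4 : ℝ) ^ p) * ENNReal.ofReal (1 / 4)) ^ (1 / p) with ha
    have ha0 : 0 < a := by
      rw [ha]
      apply ENNReal.rpow_pos
      · rw [← ENNReal.ofReal_mul (by positivity)]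
        exact ENNReal.ofReal_pos.2 (by positivity)
      · rw [← ENNReal.ofReal_mul (by positivity)]
        exact ENNReal.ofReal_ne_top
    have h1 : Tendsto (fun n : ℕ => 2 ^ n + 2) atTop atTop := by
      rw [tendsto_atTop_atTop]
      intro b
      refine ⟨b, fun n hn => ?_⟩
      have : n < 2 ^ n := Nat.lt_two_pow_self
      omega
    have h2 := hT.comp h1
    have h3 : ∀ n, 2 ≤ n → a ≤ Wnorm p (fun x => Lm ff (2 ^ n + 2) x - limf ff x) := by
      intro n hn
      unfold Wnorm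
      rw [ha]
      refine ENNReal.rpow_le_rpow ?_ (by positivity)
      refine le_trans ?_ (le_iSup₂ (f := fun (t : ℝ) (_ : 0 < t) => ENNReal.ofReal (t ^ p) *
        μ {x | t < |Lm ff (2 ^ n + 2) x - limf ff x|}) (1 / 4 : ℝ) (by norm_num))
      gcongr
      exact weak_lower hn
    have h4 : a ≤ 0 := by
      refine ge_of_tendsto h2 ?_
      filter_upwards [eventually_ge_atTop 2] with n hn using h3 n hn
    exact absurd h4 (not_le.2 ha0)

end Q94.LM
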