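import Pool.Agent.Q94.WalshB

/-!
# Statements for MP_332aa0_an (Walsh logarithmic means)

`G`, `μ`, `r`, `w`, `D`, `flip`, `ℱ`, `coef`, `S`, `Lnorm`, `Hnorm` are those of
`Pool.Agent.Q94.WalshA`, `Pool.Agent.Q94.WalshB` (namespace `Q94.WF`).
-/

open scoped BigOperators Topology ENNReal
open MeasureTheory Finset Filter Q94.WF

namespace Q94.LM

/-- coordinatewise addition modulo 2 -/
def add (x y : G) : G := fun i => xor (x i) (y i)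

/-- `∫ |K|^p` -/
noncomputable def E (p : ℝ) (K : G → ℝ) : ℝ≥0∞ := ∫⁻ x, ‖K x‖ₑ ^ p ∂μ

/-- `g` depends on the first `n` digits only -/
def Dep (n : ℕ) (g : G → ℝ) : Prop := ∀ x y : G, (∀ k < n, x k = y k) → g x = g y

/-- harmonic numbers `∑_{i=1}^n 1/i` -/
noncomputable def H (n : ℕ) : ℝ := ∑ i ∈ range n, 1 / ((i : ℝ) + 1)

/-- convolution -/
noncomputable def conv (K g : G → ℝ) (x : G) : ℝ := ∫ t, K (add x t) * g t ∂μ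

/-- `∑_{t=0}^{i} D_t` -/
noncomputable def T (i : ℕ) (x : G) : ℝ := ∑ t ∈ range (i + 1), D t x

/-- the majorant of `|T_i|`, `i < 2^{j+1}` -/
noncomputable def Ts (j : ℕ) (x : G) : ℝ :=
  ∑ l ∈ range (j + 1), (|T (2 ^ l) x| + 2 ^ l * |D (2 ^ l) x|)

/-- `∑_{t=1}^{2^n} D_t / (κ + t)` -/
noncomputable def C (n κ : ℕ) (x : G) : ℝ :=
  ∑ t ∈ range (2 ^ n), D (t + 1) x / ((κ : ℝ) + ((t : ℝ) + 1))

/-- `∑_{i<k} D_i / (k - i)` -/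
noncomputable def A (k : ℕ) (x : G) : ℝ := ∑ i ∈ range k, D i x / ((k : ℝ) - i)

/-- `∑_{i<2^l} D_i / (k - i)` -/
noncomputable def B (l k : ℕ) (x : G) : ℝ := ∑ i ∈ range (2 ^ l), D i x / ((k : ℝ) - i)

/-- Walsh polynomial with coefficients `c` -/
noncomputable def P (c : ℕ → ℝ) (N : ℕ) (x : G) : ℝ := ∑ i ∈ range N, c i * w i x

/-- the martingale transform with multipliers `v` -/
noncomputable def Tr (v c : ℕ → ℝ) (J : ℕ) (x : G) : ℝ :=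
  ∑ j ∈ range J, v j * (P c (2 ^ (j + 1)) x - P c (2 ^ j) x)

/-- the martingale `f - S_{2^n} f = (f^{(k)} - f^{(min(k,n))})_k` -/
def tail (f : ℕ → G → ℝ) (n : ℕ) : ℕ → G → ℝ := fun k x => f k x - f (min k n) x

/-- the limit function of a martingale -/
noncomputable def limf (f : ℕ → G → ℝ) (x : G) : ℝ := limUnder atTop fun n => f n x

/-- the Nörlund logarithmic means -/
noncomputable def Lm (f : ℕ → G → ℝ) (n : ℕ) (x : G) : ℝ :=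
  (1 / H n) * ∑ k ∈ range n, S f k x / ((n : ℝ) - k)

/-- the weak-`L_p` quasi-norm -/
noncomputable def Wnorm (p : ℝ) (g : G → ℝ) : ℝ≥0∞ :=
  (⨆ (t : ℝ) (_ : 0 < t), ENNReal.ofReal (t ^ p) * μ {x | t < |g x|}) ^ (1 / p)

/-! ### Kernels -/

/-- J1a -/
def J1a : Prop := ∀ (p : ℝ) (l : ℕ) (g : G → ℝ), 0 < p → Dep l g →
  E p (fun x => (1 + r l x) * g x) = ENNReal.ofReal (2 ^ (p - 1)) * E p g

/-- J1b -/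
def J1b : Prop := ∀ (p : ℝ) (l : ℕ), 0 < p → p ≤ 1 →
  E p (D (2 ^ l)) = ENNReal.ofReal (2 ^ ((l : ℝ) * (p - 1))) ∧
  E p (T (2 ^ l)) ≤ ENNReal.ofReal (1 / (2 ^ (2 * p - 1) - 2 ^ (p - 1)) * 2 ^ ((l : ℝ) * (2 * p - 1)))

/-- J1c -/
def J1c : Prop := ∀ (j i : ℕ) (x : G), i < 2 ^ (j + 1) → |T i x| ≤ Ts j x

/-- J1d -/
def J1d : Prop := ∀ (p : ℝ) (j : ℕ), 0 < p → p ≤ 1 →
  E p (Ts j) ≤ ENNReal.ofReal ((1 / (2 ^ (2 * p - 1) - 2 ^ (p - 1)) + 1) *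
    ∑ l ∈ range (j + 1), (2 : ℝ) ^ ((l : ℝ) * (2 * p - 1)))

/-- J1e -/
def J1e : Prop := ∀ (p : ℝ) (n κ : ℕ), 0 < p → p ≤ 1 →
  E p (C n κ) ≤ ENNReal.ofReal ((1 / ((κ : ℝ) + 1)) ^ p) +
    ∑ j ∈ range n, ENNReal.ofReal ((2 / ((κ : ℝ) + 2 ^ j)) ^ p) * E p (Ts j)

/-- J1f -/
def J1f : Prop := ∀ (l k : ℕ) (x : G), 2 * 2 ^ l ≤ k → |B l k x| ≤ 4 * Ts l x / k

/-- J2a -/
def J2a : Prop := ∀ p : ℝ, 0 < p → p < 1 → ∃ c δ : ℝ, 0 < c ∧ 0 < δ ∧ ∀ n κ : ℕ,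
  E p (C n κ) ≤ ENNReal.ofReal (c * (max (κ : ℝ) 1) ^ (-δ))

/-- J2b -/
def J2b : Prop := (∀ n m κ : ℕ, 2 ^ m ≤ κ → m ≤ n →
    E 1 (C n κ) ≤ ENNReal.ofReal (20 * ((n : ℝ) - m + 1))) ∧
  ∀ n : ℕ, E 1 (C n 0) ≤ ENNReal.ofReal (20 * ((n : ℝ) + 1))

/-- J2c -/
def J2c : Prop := ∀ p : ℝ, 0 < p → p < 1 → ∃ c β : ℝ, 0 < c ∧ β < p ∧ 0 ≤ β ∧ ∀ j : ℕ,
  E p (Ts j) ≤ ENNReal.ofReal (c * (j + 1) * 2 ^ (β * j))

/-- J3a -/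
def J3a : Prop := ∀ (n κ : ℕ) (x : G), κ < 2 ^ n →
  A (2 ^ n + κ) x = H (2 ^ n + κ) * D (2 ^ n) x - w (2 ^ n - 1) x * C n κ x + r n x * A κ x

/-- J3b -/
def J3b : Prop := ∀ p : ℝ, 0 < p → p < 1 → ∃ c : ℝ, 0 < c ∧ ∀ k : ℕ, E p (A k) ≤ ENNReal.ofReal c

/-- J3c -/
def J3c : Prop := ∀ (n k : ℕ), 2 ^ n ≤ k → k < 2 ^ (n + 1) → ∃ v : ℕ → ℝ, (∀ j, |v j| ≤ H k) ∧
  E 1 (fun x => A k x - w k x * ∑ j ∈ range (n + 1), v j * (r j x * D (2 ^ j) x)) ≤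
    ENNReal.ofReal (60 * ((n : ℝ) + 1))

/-! ### Convolutions -/

/-- J4a -/
def J4a : Prop := ∀ (p : ℝ) (J : ℕ) (K g : G → ℝ), 0 < p → p ≤ 1 → Dep J K → Dep J g →
  E p (conv K g) ≤ ENNReal.ofReal (2 ^ ((J : ℝ) * (1 - p))) * E p K * E p g

/-- J4b: weak type of martingale transforms -/
def J4b : Prop := ∀ (J : ℕ) (c v : ℕ → ℝ) (t : ℝ), 0 < t → (∀ j, |v j| ≤ 1) →
  ENNReal.ofReal t * μ {x | t ≤ |Tr v c J x|} ≤ 2 * E 1 (P c (2 ^ J))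

/-- J4c -/
def J4c : Prop := (∀ (c : ℕ → ℝ) (k N : ℕ) (x : G), k ≤ N → conv (D k) (P c N) x = P c k x) ∧
  ∀ (J : ℕ) (g : G → ℝ), Dep J g → ∀ x, g x = P (fun i => ∫ t, g t * w i t ∂μ) (2 ^ J) x

/-- J4d -/
def J4d : Prop := ∃ c₀ : ℝ, 0 < c₀ ∧ ∀ (n k : ℕ), 2 ^ n ≤ k → k < 2 ^ (n + 1) →
  ∀ (c : ℕ → ℝ) (t : ℝ), 0 < t →
    ENNReal.ofReal t * μ {x | t < |conv (A k) (P c (2 ^ (n + 1))) x / H k|} ≤
      ENNReal.ofReal c₀ * E 1 (P c (2 ^ (n + 1)))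

/-! ### Martingales -/

/-- J5a -/
def J5a : Prop := ∀ f : ℕ → G → ℝ, Martingale f ℱ μ → ∀ n x, f n x = P (coef f) (2 ^ n) x

/-- J5b -/
def J5b : Prop := ∀ (p : ℝ) (f : ℕ → G → ℝ), 0 < p → Martingale f ℱ μ →
  Tendsto (fun n => Hnorm p (tail f n)) atTop (𝓝 0) →
    (∀ᵐ x ∂μ, Tendsto (fun n => f n x) atTop (𝓝 (limf f x))) ∧
    ∀ n, E p (fun x => f n x - limf f x) ≤ (Hnorm p (tail f n)) ^ p

/-- J5c -/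
def J5c : Prop := ∀ (f : ℕ → G → ℝ), Martingale f ℱ μ → Hnorm 1 f < ⊤ →
  Tendsto (fun n => Hnorm 1 (tail f n)) atTop (𝓝 0)

/-- J6: sharpness -/
def J6 : Prop := ∀ p : ℝ, 0 < p → p < 1 → ∃ f : ℕ → G → ℝ, Martingale f ℱ μ ∧ Hnorm p f < ⊤ ∧
  (∃ c : ℝ, ∀ n : ℕ, 1 ≤ n → Hnorm p (tail f n) ≤ ENNReal.ofReal (c * n / 2 ^ (n * (1 / p - 1)))) ∧
  ¬ Tendsto (fun k => Wnorm p (fun x => Lm f k x - limf f x)) atTop (𝓝 0)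

/-! ### The theorem -/

/-- `p < 1` -/
def M1 : Prop := ∀ (p : ℝ) (f : ℕ → G → ℝ), 0 < p → p < 1 → Martingale f ℱ μ →
  Hnorm p f < ⊤ →
  Tendsto (fun n : ℕ => Hnorm p (tail f n) * ENNReal.ofReal (2 ^ (n * (1 / p - 1)) / n)) atTop (𝓝 0) →
  Tendsto (fun k => Lnorm p (fun x => Lm f k x - limf f x)) atTop (𝓝 0)

/-- `p = 1` -/
def M2 : Prop := ∀ (f : ℕ → G → ℝ), Martingale f ℱ μ → Hnorm 1 f < ⊤ →
  Tendsto (fun k => Wnorm 1 (fun x => Lm f k x - limf f x)) atTop (𝓝 0)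

end Q94.LM
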