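import Pool.Agent.Q94.LM.K3

/-!
# MP_332aa0_an: convolution of Walsh polynomials, weak type of the logarithmic means
-/

open scoped BigOperators Topology ENNReal
open MeasureTheory Finset Filter Q94.WF

namespace Q94.LM

lemma r_add (k : ℕ) (x t : G) : r k (add x t) = r k x * r k t := by
  unfold r add
  cases x k <;> cases t k <;> simp

lemma w_add' (n : ℕ) (x t : G) : w n (add x t) = w n x * w n t := by
  unfold w
  rw [← Finset.prod_mul_distrib]
  refine Finset.prod_congr rfl fun k _ => ?_
  split_ifs
  · exact r_add k x t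
  · simp

lemma conv_w (i : ℕ) (g : G → ℝ) (x : G) : conv (w i) g x = (∫ t, g t * w i t ∂μ) * w i x := by
  unfold conv
  simp_rw [w_add']
  rw [← integral_mul_const]
  congr 1
  funext t
  ring

lemma integral_P_mul_w (c : ℕ → ℝ) (N i : ℕ) :
    ∫ t, P c N t * w i t ∂μ = if i < N then c i else 0 := by
  unfold P
  simp_rw [Finset.sum_mul, mul_assoc]
  rw [integral_finsetSum]
  · simp_rw [integral_const_mul, integral_w_mul]
    split_ifs with h
    · rw [Finset.sum_eq_single_of_mem i (Finset.mem_range.2 h)]
      · rw [if_pos rfl, mul_one]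
      · intro j _ hj
        rw [if_neg hj, mul_zero]
    · refine Finset.sum_eq_zero fun j hj => ?_
      have := Finset.mem_range.1 hj
      rw [if_neg (by omega), mul_zero]
  · intro j _
    refine Integrable.const_mul ?_ _
    refine Integrable.of_bound ((measurable_w _).mul (measurable_w _)).aestronglyMeasurable 1
      (Eventually.of_forall fun x => ?_)
    rw [Real.norm_eq_abs, abs_mul, abs_w, abs_w]; norm_num

lemma conv_D (g : G → ℝ) (hg : ∀ i x, Integrable (fun t => w i (add x t) * g t) μ) (k : ℕ) (x : G) :
    conv (D k) g x = P (fun i => ∫ t, g t * w i t ∂μ) k x := by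
  have h1 : D k = fun y => ∑ i ∈ range k, w i y * (1 : ℝ) := by
    funext y; unfold D; simp
  rw [h1, conv_sum_kernel (range k) w (fun _ => 1) g (fun i _ x => hg i x)]
  unfold P
  refine Finset.sum_congr rfl fun i _ => ?_
  rw [conv_w, mul_one]

lemma integrable_wg {g : G → ℝ} (hm : Measurable g) {M : ℝ} (hM : ∀ x, |g x| ≤ M) (i : ℕ) (x : G) :
    Integrable (fun t => w i (add x t) * g t) μ := by
  refine Integrable.of_bound (((measurable_w i).comp (measurable_add x)).mul hm).aestronglyMeasurable
    M (Eventually.of_forall fun t => ?_)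
  rw [Real.norm_eq_abs, abs_mul, abs_w, one_mul]
  exact hM t

/-- functions of the first digits are bounded -/
lemma dep_bdd {J : ℕ} {g : G → ℝ} (h : Dep J g) : ∃ M : ℝ, ∀ x, |g x| ≤ M := by
  classical
  refine ⟨∑ y : Fin J → Bool, |g (fun i => if hi : i < J then y ⟨i, hi⟩ else false)|, fun x => ?_⟩
  have h1 : g x = g (fun i => if hi : i < J then (fun k : Fin J => x k) ⟨i, hi⟩ else false) := by
    apply h
    intro k hk
    rw [dif_pos hk]
  rw [h1]
  exact Finset.single_le_sum (f := fun y : Fin J → Bool =>
    |g (fun i => if hi : i < J then y ⟨i, hi⟩ else false)|) (fun y _ => abs_nonneg _)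
    (Finset.mem_univ (fun k : Fin J => x k))

/-- Walsh expansion of functions of the first digits: existence of coefficients -/
lemma exists_P : ∀ (J : ℕ) (g : G → ℝ), Dep J g → ∃ c : ℕ → ℝ, ∀ x, g x = P c (2 ^ J) x := by
  intro J
  induction J with
  | zero =>
    intro g hg
    refine ⟨fun _ => g (fun _ => false), fun x => ?_⟩
    rw [pow_zero, P_one]
    exact hg _ _ (by simp)
  | succ J ih =>
    intro g hg
    have hflip : ∀ x, WF.flip J (WF.flip J x) = x := flip_flip J
    obtain ⟨c0, h0⟩ := ih (fun x => (g x + g (WF.flip J x)) / 2) (by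
      intro x y hxy
      beta_reduce
      rcases Bool.eq_or_eq_not (x J) (y J) with h | h
      · rw [hg x y fun k hk => ?_, hg (WF.flip J x) (WF.flip J y) fun k hk => ?_]
        · unfold WF.flip
          rcases Nat.lt_succ_iff_lt_or_eq.1 hk with h' | h'
          · rw [if_neg (by omega), if_neg (by omega), hxy k h']
          · rw [if_pos h', if_pos h', h', h]
        · rcases Nat.lt_succ_iff_lt_or_eq.1 hk with h' | h'
          · exact hxy k h'
          · rw [h', h]
      · rw [hg x (WF.flip J y) fun k hk => ?_, hg (WF.flip J x) y fun k hk => ?_]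
        · ring
        · unfold WF.flip
          rcases Nat.lt_succ_iff_lt_or_eq.1 hk with h' | h'
          · rw [if_neg (by omega), hxy k h']
          · rw [if_pos h', h', h]; simp
        · unfold WF.flip
          rcases Nat.lt_succ_iff_lt_or_eq.1 hk with h' | h'
          · rw [if_neg (by omega), hxy k h']
          · rw [if_pos h', h', h])
    obtain ⟨c1, h1⟩ := ih (fun x => r J x * (g x - g (WF.flip J x)) / 2) (by
      intro x y hxy
      beta_reduce
      rcases Bool.eq_or_eq_not (x J) (y J) with h | h
      · have hr : r J x = r J y := by unfold r; rw [h]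
        rw [hr, hg x y fun k hk => ?_, hg (WF.flip J x) (WF.flip J y) fun k hk => ?_]
        · unfold WF.flip
          rcases Nat.lt_succ_iff_lt_or_eq.1 hk with h' | h'
          · rw [if_neg (by omega), if_neg (by omega), hxy k h']
          · rw [if_pos h', if_pos h', h', h]
        · rcases Nat.lt_succ_iff_lt_or_eq.1 hk with h' | h'
          · exact hxy k h'
          · rw [h', h]
      · have hr : r J x = -r J y := by unfold r; rw [h]; cases y J <;> simp
        rw [hr, hg x (WF.flip J y) fun k hk => ?_, hg (WF.flip J x) y fun k hk => ?_]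
        · ring
        · unfold WF.flip
          rcases Nat.lt_succ_iff_lt_or_eq.1 hk with h' | h'
          · rw [if_neg (by omega), hxy k h']
          · rw [if_pos h', h', h]; simp
        · unfold WF.flip
          rcases Nat.lt_succ_iff_lt_or_eq.1 hk with h' | h'
          · rw [if_neg (by omega), hxy k h']
          · rw [if_pos h', h', h])
    refine ⟨fun i => if i < 2 ^ J then c0 i else c1 (i - 2 ^ J), fun x => ?_⟩
    have e1 : g x = (g x + g (WF.flip J x)) / 2 + r J x * (r J x * (g x - g (WF.flip J x)) / 2) := by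
      have := r_sq J x
      have e2 : r J x * (r J x * (g x - g (WF.flip J x)) / 2)
          = (r J x * r J x) * (g x - g (WF.flip J x)) / 2 := by ring
      rw [e2, this]; ring
    rw [e1]
    have e3 := h0 x
    have e4 := h1 x
    beta_reduce at e3 e4
    rw [e3, e4]
    unfold P
    rw [pow_succ, mul_two, Finset.sum_range_add]
    congr 1
    · refine Finset.sum_congr rfl fun i hi => ?_
      beta_reduce
      rw [if_pos (Finset.mem_range.1 hi)]
    · rw [Finset.mul_sum]
      refine Finset.sum_congr rfl fun i hi => ?_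
      beta_reduce
      rw [if_neg (by omega), Nat.add_sub_cancel_left, w_two_pow_add (Finset.mem_range.1 hi)]
      ring

theorem j4c : J4c := by
  refine ⟨fun c k N x hk => ?_, fun J g hg x => ?_⟩
  · rw [conv_D _ (integrable_wg (measurable_P c N) (abs_P_le c N))]
    unfold P
    refine Finset.sum_congr rfl fun i hi => ?_
    have h1 := integral_P_mul_w c N i
    unfold P at h1
    beta_reduce
    rw [h1, if_pos ((Finset.mem_range.1 hi).trans_le hk)]
  · obtain ⟨c, hc⟩ := exists_P J g hg
    have hg' : g = P c (2 ^ J) := funext hc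
    rw [hg']
    unfold P
    refine Finset.sum_congr rfl fun i hi => ?_
    have h1 := integral_P_mul_w c (2 ^ J) i
    unfold P at h1
    beta_reduce
    rw [h1, if_pos (Finset.mem_range.1 hi)]

lemma dep_conv {J : ℕ} {K g : G → ℝ} (hK : Dep J K) : Dep J (conv K g) := by
  intro x y hxy
  unfold conv
  congr 1
  funext t
  rw [hK (add x t) (add y t) fun k hk => ?_]
  unfold add
  rw [hxy k hk]

lemma dep_mul {J : ℕ} {g h : G → ℝ} (hg : Dep J g) (hh : Dep J h) : Dep J (fun x => g x * h x) :=
  fun x y hxy => by beta_reduce; rw [hg x y hxy, hh x y hxy]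

lemma dep_mono {J J' : ℕ} (h : J ≤ J') {g : G → ℝ} (hg : Dep J g) : Dep J' g :=
  fun x y hxy => hg x y fun k hk => hxy k (by omega)

lemma dep_r {j J : ℕ} (h : j < J) : Dep J (r j) := fun x y hxy => by
  unfold r; rw [hxy j h]

lemma integrable_dep {J : ℕ} {g : G → ℝ} (hg : Dep J g) : Integrable g μ := by
  obtain ⟨M, hM⟩ := dep_bdd hg
  exact Integrable.of_bound (dep_measurable hg).aestronglyMeasurable M
    (Eventually.of_forall fun x => by rw [Real.norm_eq_abs]; exact hM x)

lemma dep_add_left {J : ℕ} {K : G → ℝ} (hK : Dep J K) (x : G) : Dep J (fun t => K (add x t)) := by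
  intro s t hst
  apply hK
  intro k hk
  unfold add
  rw [hst k hk]

lemma rD_eq (j : ℕ) (x : G) : r j x * D (2 ^ j) x = D (2 ^ (j + 1)) x - D (2 ^ j) x := by
  rw [D_two_pow_succ]; ring

/-- convolution with the difference kernel -/
lemma conv_rD {J : ℕ} {h : G → ℝ} (hh : Dep J h) {j : ℕ} (x : G) :
    conv (fun y => r j y * D (2 ^ j) y) h x
      = P (fun i => ∫ t, h t * w i t ∂μ) (2 ^ (j + 1)) x - P (fun i => ∫ t, h t * w i t ∂μ) (2 ^ j) x := by
  obtain ⟨M, hM⟩ := dep_bdd hh
  have hi := integrable_wg (dep_measurable hh) hM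
  rw [← conv_D h hi, ← conv_D h hi]
  unfold conv
  rw [← integral_sub]
  · congr 1
    funext t
    beta_reduce
    rw [rD_eq]; ring
  · exact integrable_dep (J := max J (j + 1)) (dep_mul (dep_mono (le_max_right _ _)
      (dep_add_left (dep_D le_rfl) x)) (dep_mono (le_max_left _ _) hh))
  · exact integrable_dep (J := max J j) (dep_mul (dep_mono (le_max_right _ _)
      (dep_add_left (dep_D le_rfl) x)) (dep_mono (le_max_left _ _) hh))

theorem j4d (h1 : J3c) (h2 : J4a) (h3 : J4b) : J4d := by
  refine ⟨244, by norm_num, ?_⟩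
  intro n k hk hk' c t ht
  obtain ⟨v, hv, hvE⟩ := h1 n k hk hk'
  have hk1 : 1 ≤ k := le_trans Nat.one_le_two_pow hk
  have hH1 := one_le_H hk1
  have hH : 0 < H k := by linarith
  have hHn := H_ge hk
  set J := n + 1 with hJ
  set g := P c (2 ^ J) with hg
  have dg : Dep J g := dep_P c le_rfl
  have dwk : Dep J (w k) := dep_w hk'
  set h : G → ℝ := fun x => w k x * g x with hh
  have dh : Dep J h := dep_mul dwk dg
  set c' : ℕ → ℝ := fun i => ∫ t, h t * w i t ∂μ with hc'
  have hP : ∀ x, h x = P c' (2 ^ J) x := j4c.2 J h dh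
  set M : G → ℝ := fun x => ∑ j ∈ range J, v j * (r j x * D (2 ^ j) x) with hM
  have dM : Dep J M := by
    intro x y hxy
    simp only [hM]
    refine Finset.sum_congr rfl fun j hj => ?_
    have hj' := Finset.mem_range.1 hj
    rw [dep_r hj' x y hxy, dep_mono (by omega : j ≤ J) (dep_D le_rfl) x y hxy]
  set R : G → ℝ := fun x => A k x - w k x * M x with hR
  have dR : Dep J R := by
    intro x y hxy
    simp only [hR]
    rw [dep_A hk'.le x y hxy, dwk x y hxy, dM x y hxy]
  -- the main part
  have e1 : ∀ x, conv (fun y => w k y * M y) g x = w k x * Tr v c' J x := by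
    intro x
    have e2 : ∀ t, (w k (add x t) * M (add x t)) * g t = w k x * (M (add x t) * h t) := by
      intro t
      rw [w_add']; simp only [hh]; ring
    have e3 : conv (fun y => w k y * M y) g x = w k x * conv M h x := by
      unfold conv
      beta_reduce
      simp_rw [e2]
      exact integral_const_mul _ _
    have e4 : M = fun y => ∑ j ∈ range J, (fun j y => r j y * D (2 ^ j) y) j y * v j := by
      funext y
      simp only [hM]
      exact Finset.sum_congr rfl fun j _ => mul_comm _ _
    rw [e3]
    congr 1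
    rw [e4, conv_sum_kernel (range J) (fun j y => r j y * D (2 ^ j) y) v h ?_ x]
    · unfold Tr
      refine Finset.sum_congr rfl fun j _ => ?_
      rw [conv_rD dh]
      ring
    · intro j hj x
      have hj' := Finset.mem_range.1 hj
      exact integrable_dep (dep_mul (dep_add_left (dep_mul (dep_r hj')
        (dep_mono (by omega : j ≤ J) (dep_D le_rfl))) x) dh)
  have e5 : ∀ x, conv (A k) g x / H k = conv R g x / H k + w k x * Tr (fun j => v j / H k) c' J x := by
    intro x
    have e6 : conv (A k) g x = conv R g x + conv (fun y => w k y * M y) g x := by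
      unfold conv
      rw [← integral_add]
      · congr 1
        funext t
        simp only [hR]; ring
      · exact integrable_dep (dep_mul (dep_add_left dR x) dg)
      · exact integrable_dep (dep_mul (dep_add_left (dep_mul dwk dM) x) dg)
    have e7 : Tr (fun j => v j / H k) c' J x = Tr v c' J x / H k := by
      unfold Tr
      rw [Finset.sum_div]
      exact Finset.sum_congr rfl fun j _ => by ring
    rw [e6, e1, e7]
    ring
  have ht2 : 0 < t / 2 := by positivity
  have b1 : ENNReal.ofReal (t / 2) * μ {x | t / 2 ≤ |Tr (fun j => v j / H k) c' J x|} ≤ 2 * E 1 g := by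
    have h4 := h3 J c' (fun j => v j / H k) (t / 2) ht2 (fun j => by
      rw [abs_div, abs_of_pos hH, div_le_one hH]; exact hv j)
    have h5 : P c' (2 ^ J) = h := (funext hP).symm
    rw [h5] at h4
    simp only [hh] at h4
    rwa [E_w_mul] at h4
  have b2 : ENNReal.ofReal (t / 2) * μ {x | t / 2 ≤ |conv R g x / H k|} ≤ 120 * E 1 g := by
    have mR : Measurable (conv R g) := dep_measurable (dep_conv dR)
    have h4 := mul_meas_ge_le_lintegral₀ (μ := μ) (f := fun x => ‖conv R g x / H k‖ₑ)
      (by fun_prop) (ENNReal.ofReal (t / 2))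
    have h5 : {x | t / 2 ≤ |conv R g x / H k|} ⊆ {x | ENNReal.ofReal (t / 2) ≤ ‖conv R g x / H k‖ₑ} := by
      intro x hx
      have : t / 2 ≤ |conv R g x / H k| := hx
      show ENNReal.ofReal (t / 2) ≤ ‖conv R g x / H k‖ₑ
      rw [Real.enorm_eq_ofReal_abs]
      exact ENNReal.ofReal_le_ofReal this
    refine (mul_le_mul_right (measure_mono h5) _).trans (h4.trans ?_)
    have h6 : ∫⁻ x, ‖conv R g x / H k‖ₑ ∂μ = ENNReal.ofReal (1 / H k) * E 1 (conv R g) := by
      have := E_const_mul zero_le_one (a := 1 / H k) (conv R g)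
      rw [Real.rpow_one, abs_of_pos (by positivity)] at this
      rw [← this]
      unfold E
      refine lintegral_congr fun x => ?_
      rw [ENNReal.rpow_one]
      congr 1
      ring
    rw [h6]
    have h7 := h2 1 J R g one_pos le_rfl dR dg
    rw [sub_self, mul_zero, Real.rpow_zero, ENNReal.ofReal_one, one_mul] at h7
    have h8 : E 1 R ≤ ENNReal.ofReal (60 * ((n : ℝ) + 1)) := hvE
    calc ENNReal.ofReal (1 / H k) * E 1 (conv R g)
        ≤ ENNReal.ofReal (1 / H k) * (ENNReal.ofReal (60 * ((n : ℝ) + 1)) * E 1 g) := by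
          gcongr
          exact h7.trans (by gcongr)
      _ = ENNReal.ofReal (1 / H k * (60 * ((n : ℝ) + 1))) * E 1 g := by
          rw [← mul_assoc, ← ENNReal.ofReal_mul (by positivity)]
      _ ≤ ENNReal.ofReal 120 * E 1 g := by
          gcongr
          rw [one_div_mul_eq_div, div_le_iff₀ hH]
          linarith
      _ = _ := by norm_num
  have hsub : {x | t < |conv (A k) g x / H k|} ⊆
      {x | t / 2 ≤ |Tr (fun j => v j / H k) c' J x|} ∪ {x | t / 2 ≤ |conv R g x / H k|} := by
    intro x hx
    have hx' : t < |conv (A k) g x / H k| := hx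
    rw [e5] at hx'
    by_contra hcon
    simp only [Set.mem_union, Set.mem_ofPred_eq, not_or, not_le] at hcon
    have h4 := abs_add_le (conv R g x / H k) (w k x * Tr (fun j => v j / H k) c' J x)
    rw [abs_mul, abs_w, one_mul] at h4
    linarith [hcon.1, hcon.2]
  have h9 : ENNReal.ofReal t = 2 * ENNReal.ofReal (t / 2) := by
    have : (2 : ℝ≥0∞) = ENNReal.ofReal 2 := by norm_num
    rw [this, ← ENNReal.ofReal_mul (by norm_num)]
    congr 1; ring
  calc ENNReal.ofReal t * μ {x | t < |conv (A k) g x / H k|}
      ≤ 2 * ENNReal.ofReal (t / 2) * (μ {x | t / 2 ≤ |Tr (fun j => v j / H k) c' J x|}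
        + μ {x | t / 2 ≤ |conv R g x / H k|}) := by
        rw [h9]
        gcongr
        exact (measure_mono hsub).trans (measure_union_le _ _)
    _ = 2 * (ENNReal.ofReal (t / 2) * μ {x | t / 2 ≤ |Tr (fun j => v j / H k) c' J x|}
        + ENNReal.ofReal (t / 2) * μ {x | t / 2 ≤ |conv R g x / H k|}) := by
        rw [mul_assoc, mul_add]
    _ ≤ 2 * (2 * E 1 g + 120 * E 1 g) := by gcongr
    _ = _ := by
        rw [← add_mul, ← mul_assoc]
        norm_num

end Q94.LM
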